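import Pool.Agent.Work.MP_129c4a_an.N.Nilp

/-!
Nilpotent radical elements of every index.
-/

namespace Pool.Agent.Work.MP_129c4a_an.N

open MeasureTheory Filter Topology

universe u v

section Ring

variable {B : Type v} [NonUnitalRing B]

theorem iter_mul_sum (Φ : B) (n : ℕ) {κ : Type*} (s : Finset κ) (x : κ → B) :
    (fun y => Φ * y)^[n] (∑ i ∈ s, x i) = ∑ i ∈ s, (fun y => Φ * y)^[n] (x i) := by
  induction n with
  | zero => rfl
  | succ n ih =>
    simp only [Function.iterate_succ_apply']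
    rw [ih, Finset.mul_sum]

/-- `a` annihilates the left ideal generated by `x` -/
def Ann (a x : B) : Prop := a * x = 0 ∧ ∀ y, a * (y * x) = 0

theorem Ann.mul {a x : B} (h : Ann a x) (z : B) : Ann a (z * x) :=
  ⟨h.2 z, fun y => by rw [← mul_assoc y, h.2]⟩

theorem Ann.mul_right {a x : B} (h : Ann a x) (z : B) : Ann a (x * z) :=
  ⟨by rw [← mul_assoc, h.1, zero_mul], fun y => by
    rw [← mul_assoc y, ← mul_assoc, h.2, zero_mul]⟩

variable {Ψ : ℕ → B} (hΨ : ∀ c, Ann (Ψ c) (Ψ c)) (T : Finset ℕ)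
include hΨ

omit hΨ in
theorem sum_mul_ann {x : B} {D : Finset ℕ} (hD : ∀ c ∈ D, Ann (Ψ c) x) :
    (∑ c ∈ T, Ψ c) * x = ∑ c ∈ T \ D, Ψ c * x := by
  rw [Finset.sum_mul]
  refine (Finset.sum_subset Finset.sdiff_subset fun c hc hc' => (hD c ?_).1).symm
  by_contra hh
  exact hc' (Finset.mem_sdiff.2 ⟨hc, hh⟩)

theorem ann_insert {x : B} {D : Finset ℕ} (hD : ∀ c ∈ D, Ann (Ψ c) x) (c : ℕ) :
    ∀ c' ∈ insert c D, Ann (Ψ c') (Ψ c * x) := by
  intro c' hc'
  rcases Finset.mem_insert.1 hc' with rfl | hc'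
  · exact (hΨ _).mul_right x
  · exact (hD c' hc').mul _

omit hΨ in
theorem card_sdiff_insert {D : Finset ℕ} {c : ℕ} (hc : c ∈ T \ D) :
    (T \ insert c D).card + 1 = (T \ D).card := by
  rw [Finset.sdiff_insert, Finset.card_erase_add_one hc]

theorem iter_eq_zero (n : ℕ) : ∀ (x : B) (D : Finset ℕ), (∀ c ∈ D, Ann (Ψ c) x) →
    (T \ D).card ≤ n → (fun y => (∑ c ∈ T, Ψ c) * y)^[n + 1] x = 0 := by
  induction n with
  | zero =>
    intro x D hD hn
    rw [zero_add, Function.iterate_one, sum_mul_ann T hD,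
      Finset.card_eq_zero.1 (Nat.le_zero.1 hn), Finset.sum_empty]
  | succ n ih =>
    intro x D hD hn
    rw [Function.iterate_succ_apply, sum_mul_ann T hD, iter_mul_sum]
    refine Finset.sum_eq_zero fun c hc => ih _ _ (ann_insert hΨ hD c) ?_
    have := card_sdiff_insert T hc
    omega

theorem le_iter (φ : B →+ ℝ) {δ : ℝ} (hδ : 0 ≤ δ) (n : ℕ) : ∀ (x : B) (D : Finset ℕ),
    (∀ c ∈ D, Ann (Ψ c) x) → (T \ D).card = n →
    (∀ l : List ℕ, l.Nodup → l.toFinset = T \ D → δ ≤ φ (l.foldr (fun c y => Ψ c * y) x)) →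
    δ ≤ φ ((fun y => (∑ c ∈ T, Ψ c) * y)^[n] x) := by
  induction n with
  | zero =>
    intro x D _ hn hl
    exact hl [] List.nodup_nil (by rw [Finset.card_eq_zero.1 hn]; rfl)
  | succ n ih =>
    intro x D hD hn hl
    rw [Function.iterate_succ_apply, sum_mul_ann T hD, iter_mul_sum, map_sum]
    have key : ∀ c ∈ T \ D, δ ≤ φ ((fun y => (∑ c ∈ T, Ψ c) * y)^[n] (Ψ c * x)) := by
      intro c hc
      refine ih _ _ (ann_insert hΨ hD c) (by have := card_sdiff_insert T hc; omega)
        fun l h1 h2 => ?_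
      rw [Finset.sdiff_insert] at h2
      have h3 : c ∉ l := fun hh => by
        rw [← List.mem_toFinset, h2] at hh
        exact Finset.notMem_erase _ _ hh
      have := hl (l ++ [c]) (List.nodup_append_comm.1 (List.nodup_cons.2 ⟨h3, h1⟩)) (by
        rw [List.toFinset_append, h2, Finset.union_comm]
        exact Finset.insert_erase hc)
      rwa [List.foldr_append] at this
    refine le_trans ?_ (Finset.card_nsmul_le_sum _ _ _ key)
    rw [hn, nsmul_eq_mul]
    exact le_mul_of_one_le_left hδ (by exact_mod_cast Nat.succ_le_succ (Nat.zero_le n))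

omit hΨ in
theorem inr_iter [Module ℂ B] [IsScalarTower ℂ B B] [SMulCommClass ℂ B B] (Φ : B) (n : ℕ) :
    (Φ : Unitization ℂ B) ^ (n + 1) = ((fun y => Φ * y)^[n] Φ : B) := by
  induction n with
  | zero => simp
  | succ n ih => rw [pow_succ', ih, Function.iterate_succ_apply', Unitization.inr_mul]

end Ring

variable {G : Type u} [Group G] [TopologicalSpace G] [IsTopologicalGroup G]
  [LocallyCompactSpace G] [T2Space G] [MeasurableSpace G] [BorelSpace G] {μ : Measure G}
  [μ.IsHaarMeasure] {A : Type v} [NonUnitalNormedRing A] [NormedSpace ℂ A] {ι : A → G → ℂ}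

omit [TopologicalSpace G] [IsTopologicalGroup G] [LocallyCompactSpace G] [T2Space G] [BorelSpace G]
  [μ.IsHaarMeasure] in
theorem fa_foldr (h : IsFourierAlgebra μ A ι) (x : ℕ → A) (a : A) (l : List ℕ) :
    ι (l.foldr (fun c y => x c * y) a) = (l.map fun c => ι (x c)).prod * ι a := by
  induction l with
  | nil => simp
  | cons c l ih => rw [List.foldr_cons, h.map_mul, ih, List.map_cons, List.prod_cons, mul_assoc]

theorem exists_index [μ.InnerRegularCompactLTTop] [IsScalarTower ℂ A A]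
    [SMulCommClass ℂ A A] (h : IsFourierAlgebra μ A ι) (K : Subgroup G)
    (hK : ∀ a ∈ K, ∀ b ∈ K, a * b = b * a) (hnd : ¬ DiscreteTopology K) (n : ℕ) :
    ∃ Φ ∈ rad (ArensBidual A), (Φ : Unitization ℂ (ArensBidual A)) ^ n ≠ 0 ∧
      (Φ : Unitization ℂ (ArensBidual A)) ^ (n + 1) = 0 := by
  rcases n with _ | k
  · exact ⟨0, mem_rad_of_sq _ (mul_zero _) fun _ => zero_mul _, by simp, by simp⟩
  have hKi : ∀ W ∈ 𝓝 (1 : G), (W ∩ K).Infinite := fun W hW => by
    have h1 := infinite_of_nhds hnd (continuous_subtype_val.continuousAt.preimage_mem_nhds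
      (show W ∈ 𝓝 ((1 : K) : G) from hW))
    exact (h1.image Subtype.val_injective.injOn).mono (by
      rintro _ ⟨x, hx, rfl⟩
      exact ⟨hx, x.2⟩)
  obtain ⟨e, Ψ, S, h1, h2, h3⟩ := exists_family h K hK hKi k
  set T := Finset.range (k + 1) with hT
  have hcard : ∀ c ∈ T, (T \ {c}).card = k := fun c hc => by
    rw [Finset.sdiff_singleton_eq_erase, Finset.card_erase_of_mem hc, hT, Finset.card_range]
    rfl
  have hann : ∀ c, ∀ c' ∈ ({c} : Finset ℕ), Ann (Ψ c') (Ψ c) := fun c c' hc' => by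
    rw [Finset.mem_singleton.1 hc']
    exact h1 c
  refine ⟨∑ c ∈ T, Ψ c, ?_, ?_, ?_⟩
  · change ((Unitization.inrHom ℂ ℂ (ArensBidual A)) (∑ c ∈ T, Ψ c)) ∈ Ring.jacobson _
    rw [map_sum]
    exact Submodule.sum_mem _ fun c _ => mem_rad_of_sq _ (h1 c).1 (h1 c).2
  · rw [inr_iter, ← Unitization.inr_zero ℂ, Unitization.inr_injective.ne_iff]
    intro h0
    let φ : ArensBidual A →+ ℝ :=
      { toFun := fun Φ => (toB Φ S).re
        map_zero' := rfl
        map_add' := fun _ _ => rfl }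
    have key : ∀ c ∈ T, 1 / 2 ≤ φ ((fun y => (∑ c ∈ T, Ψ c) * y)^[k] (Ψ c)) := by
      intro c hc
      refine le_iter h1 T φ (by norm_num) k _ {c} (hann c) (hcard c hc) fun l hl1 hl2 => ?_
      rw [Finset.sdiff_singleton_eq_erase] at hl2
      have hcl : c ∉ l := fun hh => by
        rw [← List.mem_toFinset, hl2] at hh
        exact Finset.notMem_erase _ _ hh
      refine le_re_foldr h2 _ c l hl1 hcl S fun n => (h3 n).trans_eq ?_
      congr 2
      apply h.injective
      rw [fa_rprod h, fa_foldr h (fun c => e c (n c)), ← List.prod_toFinset _ hl1, hl2,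
        Finset.prod_erase_mul _ _ hc]
    have h4 := Finset.card_nsmul_le_sum _ _ _ key
    rw [← map_sum, ← iter_mul_sum, h0, map_zero, hT, Finset.card_range, nsmul_eq_mul] at h4
    have : (0 : ℝ) < ((k + 1 : ℕ) : ℝ) * (1 / 2) := by positivity
    linarith
  · rw [inr_iter, iter_mul_sum, Finset.sum_eq_zero, Unitization.inr_zero]
    exact fun c hc => iter_eq_zero h1 T k _ {c} (hann c) (hcard c hc).le

end Pool.Agent.Work.MP_129c4a_an.N
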