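import Pool.Agent.Work.MP_129c4a_an.Abstract
import Mathlib.RingTheory.Ideal.Maps

/-!
Weak-star limits of almost orthogonal sequences lie in the radical of the bidual; iterated limits;
characters vanish on the radical.
-/

namespace Pool.Agent.Work.MP_129c4a_an.N

open Filter Topology

universe u v

/-- a fixed free ultrafilter -/
noncomputable def uf : Ultrafilter ℕ := Ultrafilter.of atTop

theorem uf_le : (uf : Filter ℕ) ≤ atTop := Ultrafilter.of_le _

/-- the product `x k * (x (k-1) * (... * x 0))` -/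
def rprod {M : Type*} [Mul M] (x : ℕ → M) : ℕ → M
  | 0 => x 0
  | k + 1 => x (k + 1) * rprod x k

theorem rprod_congr {M : Type*} [Mul M] {x y : ℕ → M} {k : ℕ} (h : ∀ i ≤ k, x i = y i) :
    rprod x k = rprod y k := by
  induction k with
  | zero => exact h 0 le_rfl
  | succ k ih =>
    rw [rprod, rprod, h _ le_rfl, ih fun i hi => h i (hi.trans (Nat.le_succ k))]

variable {A : Type v} [NonUnitalNormedRing A] [NormedSpace ℂ A] [IsScalarTower ℂ A A]
  [SMulCommClass ℂ A A]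

/-- an element of the bidual as a functional -/
def toB (Φ : ArensBidual A) : StrongDual ℂ (StrongDual ℂ A) := Φ

theorem toB_mul (Φ Ψ : ArensBidual A) (f : StrongDual ℂ A) :
    toB (Φ * Ψ) f = toB Φ (bidualAct (toB Ψ) f) := rfl

theorem toB_zero (f : StrongDual ℂ A) : toB (0 : ArensBidual A) f = 0 := rfl

omit [IsScalarTower ℂ A A] [SMulCommClass ℂ A A] in
theorem toB_ext {Φ Ψ : ArensBidual A} (h : ∀ f, toB Φ f = toB Ψ f) : Φ = Ψ :=
  ContinuousLinearMap.ext h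

/-- `Ψ` is the weak-star limit of `e` along the ultrafilter -/
def IsLim (e : ℕ → A) (Ψ : StrongDual ℂ (StrongDual ℂ A)) : Prop :=
  ∀ f : StrongDual ℂ A, Tendsto (fun n => f (e n)) (uf : Filter ℕ) (𝓝 (Ψ f))

omit [IsScalarTower ℂ A A] [SMulCommClass ℂ A A] in
theorem IsLim.norm_le {e : ℕ → A} {Ψ : StrongDual ℂ (StrongDual ℂ A)} (h : IsLim e Ψ)
    (f : StrongDual ℂ A) {r : ℝ} (hr : ∀ᶠ n in atTop, ‖f (e n)‖ ≤ r) : ‖Ψ f‖ ≤ r :=
  le_of_tendsto (h f).norm (uf_le hr)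

omit [IsScalarTower ℂ A A] [SMulCommClass ℂ A A] in
theorem IsLim.le_re {e : ℕ → A} {Ψ : StrongDual ℂ (StrongDual ℂ A)} (h : IsLim e Ψ)
    (f : StrongDual ℂ A) {r : ℝ} (hr : ∀ᶠ n in atTop, r ≤ (f (e n)).re) : r ≤ (Ψ f).re :=
  ge_of_tendsto ((Complex.continuous_re.tendsto _).comp (h f)) (uf_le hr)

omit [IsScalarTower ℂ A A] [SMulCommClass ℂ A A] in
theorem IsLim.eq_zero {e : ℕ → A} {Ψ : StrongDual ℂ (StrongDual ℂ A)} (h : IsLim e Ψ)
    (f : StrongDual ℂ A) {ε : ℕ → ℝ} (hε : Tendsto ε atTop (𝓝 0)) (hr : ∀ n, ‖f (e n)‖ ≤ ε n) :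
    Ψ f = 0 :=
  tendsto_nhds_unique (h f) ((squeeze_zero_norm hr hε).mono_left uf_le)

theorem exists_sq_lim (hcomm : ∀ a b : A, a * b = b * a) (e : ℕ → A) (C : ℝ)
    (he : ∀ n, ‖e n‖ ≤ C) (ε : ℕ → ℝ) (hε : Tendsto ε atTop (𝓝 0))
    (hz : ∀ n m, n < m → ‖e n * e m‖ ≤ ε n) :
    ∃ Ψ : ArensBidual A, (Ψ * Ψ = 0 ∧ ∀ Φ, Ψ * (Φ * Ψ) = 0) ∧ IsLim e (toB Ψ) := by
  obtain ⟨Ψ, hΨ⟩ := exists_ultralim uf (fun n => NormedSpace.inclusionInDoubleDual ℂ A (e n)) C
    (fun n => (NormedSpace.double_dual_bound ℂ A (e n)).trans (he n))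
  have hΨ' : IsLim e Ψ := hΨ
  have hε0 : ∀ n, 0 ≤ ε n := fun n => (norm_nonneg _).trans (hz n (n + 1) (Nat.lt_succ_self n))
  have hact : ∀ (f : StrongDual ℂ A) (n : ℕ), ‖bidualAct Ψ (dualAct f (e n))‖ ≤ ‖f‖ * ε n := by
    intro f n
    refine ContinuousLinearMap.opNorm_le_bound _ (mul_nonneg (norm_nonneg f) (hε0 n)) fun a => ?_
    rw [bidualAct_apply]
    refine hΨ'.norm_le _ ?_
    filter_upwards [eventually_gt_atTop n] with m hm
    rw [dualAct_apply, dualAct_apply, ← mul_assoc, hcomm (e n) a, mul_assoc]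
    refine (f.le_opNorm _).trans ?_
    rw [mul_assoc]
    refine mul_le_mul_of_nonneg_left ((norm_mul_le _ _).trans ?_) (norm_nonneg f)
    rw [mul_comm]
    exact mul_le_mul_of_nonneg_right (hz n m hm) (norm_nonneg a)
  refine ⟨Ψ, ⟨?_, ?_⟩, hΨ'⟩
  · refine ContinuousLinearMap.ext fun f => ?_
    change Ψ (bidualAct Ψ f) = 0
    refine hΨ'.eq_zero _ (ε := fun n => ‖f‖ * ε n) (by simpa using hε.const_mul ‖f‖) fun n => ?_
    rw [bidualAct_apply]
    refine hΨ'.norm_le _ ?_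
    filter_upwards [eventually_gt_atTop n] with m hm
    rw [dualAct_apply]
    exact (f.le_opNorm _).trans (mul_le_mul_of_nonneg_left (hz n m hm) (norm_nonneg f))
  · intro Φ
    refine ContinuousLinearMap.ext fun f => ?_
    let Φ' : StrongDual ℂ (StrongDual ℂ A) := toB Φ
    change Ψ (bidualAct (arens Φ' Ψ) f) = 0
    refine hΨ'.eq_zero _ (ε := fun n => ‖Φ'‖ * (‖f‖ * ε n))
      (by simpa using (hε.const_mul ‖f‖).const_mul ‖Φ'‖) fun n => ?_
    rw [bidualAct_apply, arens_apply]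
    exact (Φ'.le_opNorm _).trans (mul_le_mul_of_nonneg_left (hact f n) (norm_nonneg _))

theorem exists_rad_lim (hcomm : ∀ a b : A, a * b = b * a) (e : ℕ → A) (C : ℝ)
    (he : ∀ n, ‖e n‖ ≤ C) (ε : ℕ → ℝ) (hε : Tendsto ε atTop (𝓝 0))
    (hz : ∀ n m, n < m → ‖e n * e m‖ ≤ ε n) :
    ∃ Ψ : ArensBidual A, Ψ ∈ rad (ArensBidual A) ∧ IsLim e (toB Ψ) := by
  obtain ⟨Ψ, h1, h2⟩ := exists_sq_lim hcomm e C he ε hε hz
  exact ⟨Ψ, mem_rad_of_sq _ h1.1 h1.2, h2⟩

theorem mul_ne_zero_of_lim {d e : ℕ → A} {Φ Ψ : ArensBidual A} (hd : IsLim d (toB Φ))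
    (he : IsLim e (toB Ψ)) (F : StrongDual ℂ A) {δ : ℝ} (hδ : 0 < δ)
    (h : ∀ n, ∀ᶠ m in atTop, δ ≤ (F (d n * e m)).re) : Φ * Ψ ≠ 0 := by
  intro h0
  have h1 : δ ≤ (toB (Φ * Ψ) F).re := by
    rw [toB_mul]
    refine hd.le_re _ (Eventually.of_forall fun n => ?_)
    rw [bidualAct_apply]
    exact he.le_re _ (h n)
  rw [h0, toB_zero] at h1
  simp at h1
  linarith

theorem le_re_foldr {e : ℕ → ℕ → A} {Ψ : ℕ → ArensBidual A} (h : ∀ c, IsLim (e c) (toB (Ψ c)))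
    (δ : ℝ) (c₀ : ℕ) (l : List ℕ) (hl : l.Nodup) (hc : c₀ ∉ l) : ∀ F : StrongDual ℂ A,
      (∀ n : ℕ → ℕ, δ ≤ (F (l.foldr (fun c y => e c (n c) * y) (e c₀ (n c₀)))).re) →
      δ ≤ (toB (l.foldr (fun c y => Ψ c * y) (Ψ c₀)) F).re := by
  induction l with
  | nil =>
    intro F hF
    exact (h c₀).le_re _ (Eventually.of_forall fun n => hF fun _ => n)
  | cons c l ih =>
    intro F hF
    rw [List.foldr_cons, toB_mul]
    refine (h c).le_re _ (Eventually.of_forall fun j => ?_)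
    rw [bidualAct_apply]
    rw [List.nodup_cons] at hl
    rw [List.mem_cons, not_or] at hc
    refine ih hl.2 hc.2 _ fun n => ?_
    rw [dualAct_apply]
    have := hF (Function.update n c j)
    rwa [List.foldr_cons, Function.update_self, Function.update_of_ne hc.1,
      List.foldr_ext _ (fun c y => e c (n c) * y) _ fun a ha b => by
        rw [Function.update_of_ne fun hh : a = c => hl.1 (hh ▸ ha)]] at this

theorem bidualAct_char (Ψ : StrongDual ℂ (StrongDual ℂ A)) {f : StrongDual ℂ A}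
    (hf : ∀ a b, f (a * b) = f a * f b) : bidualAct Ψ f = Ψ f • f := by
  ext a
  have : dualAct f a = f a • f := by
    ext b
    rw [dualAct_apply, hf]
    rfl
  rw [bidualAct_apply, this, map_smul, smul_eq_mul, mul_comm]
  rfl

theorem rad_char {Ψ : ArensBidual A} (hΨ : Ψ ∈ rad (ArensBidual A)) {f : StrongDual ℂ A}
    (hf : ∀ a b, f (a * b) = f a * f b) : toB Ψ f = 0 := by
  let φ : ArensBidual A →ₙₐ[ℂ] ℂ :=
    { toFun := fun Φ => toB Φ f
      map_smul' := fun _ _ => rfl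
      map_zero' := rfl
      map_add' := fun _ _ => rfl
      map_mul' := fun Φ Ξ => by
        rw [toB_mul, bidualAct_char _ hf, map_smul, smul_eq_mul, mul_comm] }
  let φ' : Unitization ℂ (ArensBidual A) →ₐ[ℂ] ℂ := Unitization.lift φ
  have hs : Function.Surjective φ' := fun c => ⟨algebraMap ℂ _ c, by simp⟩
  have := RingHom.ker_isMaximal_of_surjective φ' hs
  have h1 : (Ψ : Unitization ℂ (ArensBidual A)) ∈ RingHom.ker φ' :=
    Ring.jacobson_le_of_isMaximal _ hΨ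
  rw [RingHom.mem_ker] at h1
  have h2 : φ Ψ = 0 := by simpa [φ'] using h1
  exact h2

end Pool.Agent.Work.MP_129c4a_an.N
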