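import Pool.Agent.Work.MP_129c4a_an.N.Node

/-!
Pairs of vectors whose coefficient function is supported near the identity.
-/

namespace Pool.Agent.Work.MP_129c4a_an.N

open Filter Topology
open scoped InnerProductSpace

universe u v

variable {G : Type u} [Group G] {H : Type v} [NormedAddCommGroup H] [InnerProductSpace ℂ H]

/-- the coefficient function of `x`, `y` vanishes off `Z` -/
def Lives (U : G →* (H →L[ℂ] H)) (Z : Set G) (x y : H) : Prop :=
  ∀ g, g ∉ Z → ⟪y, U g x⟫_ℂ = 0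

/-- sums of operators `U g` with `g ∈ W` -/
def PosW (U : G →* (H →L[ℂ] H)) (W : Set G) : AddSubmonoid (H →L[ℂ] H) :=
  AddSubmonoid.closure (U '' W)

variable {U : G →* (H →L[ℂ] H)}

theorem Lives.mono {Z Z' : Set G} {x y : H} (h : Lives U Z x y) (hZ : Z ⊆ Z') : Lives U Z' x y :=
  fun g hg => h g fun hh => hg (hZ hh)

theorem Lives.smul {Z : Set G} {x y : H} (h : Lives U Z x y) (c d : ℂ) :
    Lives U Z (c • x) (d • y) := fun g hg => by
  rw [map_smul, inner_smul_left, inner_smul_right, h g hg, mul_zero, mul_zero]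

theorem rep_mem_posW {W : Set G} {g : G} (hg : g ∈ W) : U g ∈ PosW U W :=
  AddSubmonoid.subset_closure ⟨g, hg, rfl⟩

theorem one_mem_posW {W : Set G} (hg : (1 : G) ∈ W) : (1 : H →L[ℂ] H) ∈ PosW U W := by
  rw [← U.map_one]
  exact rep_mem_posW hg

theorem posW_mono {W W' : Set G} (h : W ⊆ W') {T : H →L[ℂ] H} (hT : T ∈ PosW U W) :
    T ∈ PosW U W' :=
  AddSubmonoid.closure_mono (Set.image_mono h) hT

theorem mul_mem_posW {W₁ W₂ W₃ : Set G} (h : ∀ a ∈ W₁, ∀ b ∈ W₂, a * b ∈ W₃)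
    {S T : H →L[ℂ] H} (hS : S ∈ PosW U W₁) (hT : T ∈ PosW U W₂) : S * T ∈ PosW U W₃ := by
  induction hS using AddSubmonoid.closure_induction with
  | mem x hx =>
    obtain ⟨a, ha, rfl⟩ := hx
    induction hT using AddSubmonoid.closure_induction with
    | mem y hy =>
      obtain ⟨b, hb, rfl⟩ := hy
      rw [← U.map_mul]
      exact rep_mem_posW (h a ha b hb)
    | zero => simp
    | add y z _ _ hy hz => rw [mul_add]; exact add_mem hy hz
  | zero => simp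
  | add y z _ _ hy hz => rw [add_mul]; exact add_mem hy hz

theorem mul_mem_pos {S T : H →L[ℂ] H} (hS : S ∈ PosW U Set.univ) (hT : T ∈ PosW U Set.univ) :
    S * T ∈ PosW U Set.univ :=
  mul_mem_posW (fun _ _ _ _ => Set.mem_univ _) hS hT

theorem posW_span {W : Set G} {T : H →L[ℂ] H} (hT : T ∈ PosW U W) : T ∈ spanRep U := by
  induction hT using AddSubmonoid.closure_induction with
  | mem x hx =>
    obtain ⟨a, -, rfl⟩ := hx
    exact rep_mem U a
  | zero => exact zero_mem _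
  | add y z _ _ hy hz => exact add_mem hy hz

theorem Lives.posW (hU : IsUnitaryRep U) {W Z Z' : Set G}
    (h : ∀ t ∈ W, ∀ z ∈ Z, ∀ s ∈ W, t * z * s⁻¹ ∈ Z') {x y : H} (hxy : Lives U Z x y)
    {S T : H →L[ℂ] H} (hS : S ∈ PosW U W) (hT : T ∈ PosW U W) : Lives U Z' (S x) (T y) := by
  intro g hg
  induction hS using AddSubmonoid.closure_induction with
  | mem a ha =>
    obtain ⟨s, hs, rfl⟩ := ha
    induction hT using AddSubmonoid.closure_induction with
    | mem b hb =>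
      obtain ⟨t, ht, rfl⟩ := hb
      rw [hU.inner_left, rep_rep, rep_rep]
      refine hxy _ fun hh => hg ?_
      simpa [mul_assoc] using h t ht _ hh s hs
    | zero => simp
    | add y z _ _ hy hz => rw [add_apply, inner_add_left, hy, hz, add_zero]
  | zero => simp
  | add y z _ _ hy hz => rw [add_apply, map_add, inner_add_right, hy, hz, add_zero]

variable [TopologicalSpace G]

variable (U) in
/-- the filter of small pairs -/
def Sm : Filter (H × H) where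
  sets := {A | ∃ Z ∈ 𝓝 (1 : G), ∀ x y, Lives U Z x y → (x, y) ∈ A}
  univ_sets := ⟨Set.univ, univ_mem, fun _ _ _ => Set.mem_univ _⟩
  sets_of_superset := fun ⟨Z, hZ, h⟩ hAB => ⟨Z, hZ, fun x y hxy => hAB (h x y hxy)⟩
  inter_sets := fun ⟨Z, hZ, h⟩ ⟨Z', hZ', h'⟩ => ⟨Z ∩ Z', inter_mem hZ hZ', fun x y hxy =>
    ⟨h x y (hxy.mono Set.inter_subset_left), h' x y (hxy.mono Set.inter_subset_right)⟩⟩

variable (U) in
/-- the filter of small vectors -/
def Sm1 : Filter H where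
  sets := {A | ∃ Z ∈ 𝓝 (1 : G), ∀ x, Lives U Z x x → x ∈ A}
  univ_sets := ⟨Set.univ, univ_mem, fun _ _ => Set.mem_univ _⟩
  sets_of_superset := fun ⟨Z, hZ, h⟩ hAB => ⟨Z, hZ, fun x hxy => hAB (h x hxy)⟩
  inter_sets := fun ⟨Z, hZ, h⟩ ⟨Z', hZ', h'⟩ => ⟨Z ∩ Z', inter_mem hZ hZ', fun x hxy =>
    ⟨h x (hxy.mono Set.inter_subset_left), h' x (hxy.mono Set.inter_subset_right)⟩⟩

theorem eventually_Sm {P : H × H → Prop} :
    (∀ᶠ p in Sm U, P p) ↔ ∃ Z ∈ 𝓝 (1 : G), ∀ x y, Lives U Z x y → P (x, y) := Iff.rfl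

theorem eventually_Sm1 {P : H → Prop} :
    (∀ᶠ x in Sm1 U, P x) ↔ ∃ Z ∈ 𝓝 (1 : G), ∀ x, Lives U Z x x → P x := Iff.rfl

theorem Sm_diag {P : H × H → Prop} (h : ∀ᶠ p in Sm U, P p) : ∀ᶠ x in Sm1 U, P (x, x) := by
  obtain ⟨Z, hZ, h⟩ := eventually_Sm.1 h
  exact eventually_Sm1.2 ⟨Z, hZ, fun x hx => h x x hx⟩

theorem eventually_lives {Z : Set G} (hZ : Z ∈ 𝓝 (1 : G)) : ∀ᶠ p in Sm U, Lives U Z p.1 p.2 :=
  eventually_Sm.2 ⟨Z, hZ, fun _ _ h => h⟩

theorem eventually_inner_zero [T1Space G] {g : G} (hg : g ≠ 1) :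
    ∀ᶠ p in Sm U, ⟪p.2, U g p.1⟫_ℂ = 0 :=
  (eventually_lives (isOpen_compl_singleton.mem_nhds hg.symm)).mono fun _ h => h g (by simp)

theorem lives_rep [IsTopologicalGroup G] (hU : IsUnitaryRep U) (h : G) {Z : Set G}
    (hZ : Z ∈ 𝓝 (1 : G)) : ∀ᶠ p in Sm U, Lives U Z (U h p.1) (U h p.2) := by
  have h1 : Tendsto (fun g : G => h * g * h⁻¹) (𝓝 1) (𝓝 1) := by
    have : Continuous fun g : G => h * g * h⁻¹ := by fun_prop
    simpa using this.tendsto 1
  filter_upwards [eventually_lives (h1 hZ)] with p hp g hg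
  rw [hU.inner_left, rep_rep, rep_rep]
  refine hp _ fun hh => hg ?_
  simpa [mul_assoc] using hh

theorem tendsto_rep [IsTopologicalGroup G] (hU : IsUnitaryRep U) (h : G) :
    Tendsto (fun p : H × H => (U h p.1, U h p.2)) (Sm U) (Sm U) := by
  intro A hA
  obtain ⟨Z, hZ, hA⟩ := hA
  exact (lives_rep hU h hZ).mono fun p hp => hA _ _ hp

theorem tendsto_rep1 [IsTopologicalGroup G] (hU : IsUnitaryRep U) (h : G) :
    Tendsto (fun x : H => U h x) (Sm1 U) (Sm1 U) := by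
  intro A hA
  obtain ⟨Z, hZ, hA⟩ := hA
  exact (Sm_diag (lives_rep hU h hZ)).mono fun p hp => hA _ hp

theorem exists_generic [T1Space G] (hU : IsUnitaryRep U) {B B' : H →L[ℂ] H} (hB : B ∈ spanRep U)
    (hB' : B' ∈ spanRep U) :
    ∃ D : Finset G, ∀ g, g ∉ D → ∀ᶠ p in Sm U, ⟪B' p.2, U g (B p.1)⟫_ℂ = 0 := by
  classical
  obtain ⟨S, κ, rfl⟩ := exists_rep_span hB
  obtain ⟨S', κ', rfl⟩ := exists_rep_span hB'
  refine ⟨(S' ×ˢ S).image fun p => p.1 * p.2⁻¹, fun g hg => ?_⟩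
  have : ∀ᶠ p in Sm U, ∀ t ∈ S', ∀ s ∈ S, ⟪p.2, U (t⁻¹ * g * s) p.1⟫_ℂ = 0 := by
    rw [eventually_all_finset]
    intro t ht
    rw [eventually_all_finset]
    intro s hs
    refine eventually_inner_zero fun hh => hg (Finset.mem_image.2 ⟨(t, s), ?_, ?_⟩)
    · exact Finset.mem_product.2 ⟨ht, hs⟩
    · have : g = t * (t⁻¹ * g * s) * s⁻¹ := by group
      rw [this, hh, mul_one]
  filter_upwards [this] with p hp
  rw [inner_rep_sum hU]
  exact Finset.sum_eq_zero fun t ht => Finset.sum_eq_zero fun s hs => by rw [hp t ht s hs, mul_zero]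

variable (U) in
/-- on small pairs `T` acts as the scalar `τ` -/
def HasTau (T : H →L[ℂ] H) (τ : ℝ) : Prop :=
  ∀ᶠ p in Sm U, ⟪p.2, T p.1⟫_ℂ = τ * ⟪p.2, p.1⟫_ℂ

theorem HasTau.add {S T : H →L[ℂ] H} {σ τ : ℝ} (hS : HasTau U S σ) (hT : HasTau U T τ) :
    HasTau U (S + T) (σ + τ) := by
  filter_upwards [hS, hT] with p h1 h2
  rw [add_apply, inner_add_right, h1, h2]
  push_cast
  ring

theorem HasTau.smul {T : H →L[ℂ] H} {τ : ℝ} (hT : HasTau U T τ) (c : ℝ) :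
    HasTau U ((c : ℂ) • T) (c * τ) := by
  filter_upwards [hT] with p h1
  rw [smul_apply, inner_smul_right, h1]
  push_cast
  ring

theorem hasTau_one : HasTau U 1 1 := Eventually.of_forall fun p => by simp

theorem hasTau_zero : HasTau U 0 0 := Eventually.of_forall fun p => by simp

theorem HasTau.conj [IsTopologicalGroup G] (hU : IsUnitaryRep U) {T : H →L[ℂ] H} {τ : ℝ}
    (hT : HasTau U T τ) (g : G) : HasTau U (U g * T * U g⁻¹) τ := by
  filter_upwards [(tendsto_rep hU g⁻¹).eventually hT] with p hp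
  rw [hU] at hp
  rw [← hp, hU.inner_left, inv_inv]
  rfl

theorem exists_tau_pos [T1Space G] {W : Set G} {T : H →L[ℂ] H} (hT : T ∈ PosW U W) :
    ∃ τ : ℝ, 0 ≤ τ ∧ HasTau U T τ := by
  induction hT using AddSubmonoid.closure_induction with
  | mem x hx =>
    obtain ⟨a, -, rfl⟩ := hx
    by_cases ha : a = 1
    · rw [ha, U.map_one]
      exact ⟨1, zero_le_one, hasTau_one⟩
    · exact ⟨0, le_rfl, (eventually_inner_zero ha).mono fun p hp => by simpa using hp⟩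
  | zero => exact ⟨0, le_rfl, hasTau_zero⟩
  | add y z _ _ hy hz =>
    obtain ⟨σ, h1, h2⟩ := hy
    obtain ⟨τ, h3, h4⟩ := hz
    exact ⟨σ + τ, add_nonneg h1 h3, h2.add h4⟩

theorem exists_generic_tau [T1Space G] (hU : IsUnitaryRep U) {T : H →L[ℂ] H}
    (hT : T ∈ spanRep U) : ∃ D : Finset G, ∀ g, g ∉ D → HasTau U (U g * T) 0 := by
  obtain ⟨D, hD⟩ := exists_generic hU hT (one_mem_spanRep U)
  exact ⟨D, fun g hg => (hD g hg).mono fun p hp => by simpa using hp⟩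

theorem HasTau.norm_sq {S S' : H →L[ℂ] H} (h : ∀ x y, ⟪S x, y⟫_ℂ = ⟪x, S' y⟫_ℂ) {τ : ℝ}
    (hT : HasTau U (S' * S) τ) : ∀ᶠ x in Sm1 U, ‖S x‖ ^ 2 = τ * ‖x‖ ^ 2 := by
  filter_upwards [Sm_diag hT] with x hx
  rw [← re_inner_self, h, ← re_inner_self, ← Complex.re_ofReal_mul]
  exact congrArg Complex.re hx

theorem infinite_of_nhds [IsTopologicalGroup G] [T1Space G] (hnd : ¬ DiscreteTopology G)
    {W : Set G} (hW : W ∈ 𝓝 (1 : G)) : W.Infinite := by
  intro hfin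
  apply hnd
  rw [discreteTopology_iff_isOpen_singleton_one]
  have h1 : IsClosed (W \ {1}) := (hfin.subset Set.sdiff_subset).isClosed
  have h2 : (W \ {1})ᶜ ∈ 𝓝 (1 : G) := h1.isOpen_compl.mem_nhds (by simp)
  rw [isOpen_iff_mem_nhds]
  rintro a rfl
  filter_upwards [hW, h2] with t ht1 ht2
  by_contra hne
  exact ht2 ⟨ht1, hne⟩

theorem eventually_near (hc : ∀ ξ, Continuous fun s => U s ξ) (ζ : H) {ε : ℝ} (hε : 0 < ε) :
    ∀ᶠ t in 𝓝 (1 : G), ‖U t ζ - ζ‖ ≤ ε := by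
  have h1 : Tendsto (fun t => ‖U t ζ - ζ‖) (𝓝 (1 : G)) (𝓝 0) := by
    have := (((hc ζ).sub continuous_const (g := fun _ => ζ)).norm).tendsto 1
    simpa using this
  exact h1.eventually (ge_mem_nhds hε)

end Pool.Agent.Work.MP_129c4a_an.N
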