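import Pool.Agent.Work.MP_129c4a_an.Fourier
import Pool.Agent.Work.MP_129c4a_an.Main
import Pool.Agent.Work.MP_129c4a_an.N.Small
import Pool.Agent.Work.MP_129c4a_an.N.Rad

/-!
Plateau pairs in `L²(G)` and basic facts on the Fourier algebra.
-/

namespace Pool.Agent.Work.MP_129c4a_an.N

open MeasureTheory Filter Topology
open scoped InnerProductSpace Pointwise ENNReal

universe u v

section Basic

variable {G : Type u} [Group G] [MeasurableSpace G] [MeasurableMul G] {μ : Measure G}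
  [μ.IsMulLeftInvariant] {A : Type v} [NonUnitalNormedRing A] [NormedSpace ℂ A] {ι : A → G → ℂ}

/-- the embedding as a linear map -/
def lin (h : IsFourierAlgebra μ A ι) : A →ₗ[ℂ] (G → ℂ) where
  toFun := ι
  map_add' := h.map_add
  map_smul' := h.map_smul

omit [MeasurableMul G] [μ.IsMulLeftInvariant] in
theorem fa_sub (h : IsFourierAlgebra μ A ι) (a b : A) : ι (a - b) = ι a - ι b :=
  (lin h).map_sub a b

omit [MeasurableMul G] [μ.IsMulLeftInvariant] in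
theorem fa_zero (h : IsFourierAlgebra μ A ι) : ι 0 = 0 := (lin h).map_zero

omit [MeasurableMul G] [μ.IsMulLeftInvariant] in
theorem fa_sum (h : IsFourierAlgebra μ A ι) {κ : Type*} (s : Finset κ) (a : κ → A) :
    ι (∑ i ∈ s, a i) = ∑ i ∈ s, ι (a i) := map_sum (lin h) a s

omit [MeasurableMul G] [μ.IsMulLeftInvariant] in
theorem fa_rprod (h : IsFourierAlgebra μ A ι) (x : ℕ → A) (k : ℕ) :
    ι (rprod x k) = ∏ i ∈ Finset.range (k + 1), ι (x i) := by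
  induction k with
  | zero => simp [rprod]
  | succ k ih => rw [rprod, h.map_mul, ih, Finset.prod_range_succ _ (k + 1), mul_comm]

theorem fa_elem (h : IsFourierAlgebra μ A ι) (ξ η : Lp ℂ 2 μ) :
    ∃ a : A, (∀ g, ι a g = ⟪η, lam μ g ξ⟫_ℂ) ∧ ι a = coeff μ ξ η ∧ ‖a‖ ≤ ‖ξ‖ * ‖η‖ := by
  have : coeff μ ξ η ∈ Set.range ι := by
    rw [h.range_eq]
    exact ⟨_, _, rfl⟩
  obtain ⟨a, ha⟩ := this
  exact ⟨a, fun g => by rw [ha, coeff_eq_inner], ha, h.norm_le ha⟩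

theorem fa_eval (h : IsFourierAlgebra μ A ι) (g : G) :
    ∃ F : StrongDual ℂ A, ‖F‖ ≤ 1 ∧ ∀ a, F a = ι a g := by
  obtain ⟨F, h1, h2⟩ := h.exists_clm (rep_mem (lam μ) g)
    fun y => ((isUnitaryRep_lam μ).norm g y).le
  refine ⟨F, h1, fun a => ?_⟩
  obtain ⟨ξ, η, ha⟩ := h.exists_rep a
  rw [h2 a ξ η ha, ha, coeff_eq_inner]

theorem fa_norm_apply (h : IsFourierAlgebra μ A ι) (a : A) (g : G) : ‖ι a g‖ ≤ ‖a‖ := by
  obtain ⟨F, h1, h2⟩ := fa_eval h g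
  rw [← h2]
  exact (F.le_opNorm a).trans (mul_le_of_le_one_left (norm_nonneg a) h1)

omit [NormedSpace ℂ A] in
theorem norm_rprod_le {x : ℕ → A} (hx : ∀ i, ‖x i‖ ≤ 1) (k : ℕ) : ‖rprod x k‖ ≤ 1 := by
  induction k with
  | zero => exact hx 0
  | succ k ih => exact (norm_mul_le _ _).trans (mul_le_one₀ (hx _) (norm_nonneg _) ih)

end Basic

variable {G : Type u} [Group G] [TopologicalSpace G] [IsTopologicalGroup G]
  [LocallyCompactSpace G] [T2Space G] [MeasurableSpace G] [BorelSpace G] {μ : Measure G}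
  [μ.IsHaarMeasure] {A : Type v} [NonUnitalNormedRing A] [NormedSpace ℂ A] {ι : A → G → ℂ}

omit [T2Space G] in
theorem fa_continuous [μ.InnerRegularCompactLTTop] (h : IsFourierAlgebra μ A ι) (a : A) :
    Continuous (ι a) := by
  obtain ⟨ξ, η, ha⟩ := h.exists_rep a
  have : ι a = fun g => ⟪η, lam μ g ξ⟫_ℂ := funext fun g => by rw [ha, coeff_eq_inner]
  rw [this]
  exact continuous_const.inner (continuous_lam μ ξ)

omit [LocallyCompactSpace G] [T2Space G] in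
theorem fa_state (h : IsFourierAlgebra μ A ι) {a : A} (h1 : ‖a‖ ≤ 1) (h2 : ι a 1 = 1) {δ : ℝ}
    (hδ : 0 < δ) : ∃ ξ η : Lp ℂ 2 μ, ι a = coeff μ ξ η ∧ ‖ξ‖ ≤ 2 ∧ ‖η‖ ≤ 2 ∧
      ∀ g, ‖⟪ξ, lam μ g ξ⟫_ℂ - ι a g‖ ≤ δ := by
  set s : ℝ := min 1 (δ ^ 2 / 8) with hs
  have hs0 : 0 < s := lt_min one_pos (by positivity)
  have hs1 : s ≤ 1 := min_le_left _ _
  have hs2 : s ≤ δ ^ 2 / 8 := min_le_right _ _
  obtain ⟨ξ1, η1, ha1⟩ := h.exists_rep a
  obtain ⟨_, ⟨ξ0, η0, ha0, rfl⟩, hlt⟩ := exists_lt_of_csInf_lt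
    (s := {r : ℝ | ∃ ξ η : Lp ℂ 2 μ, ι a = coeff μ ξ η ∧ r = ‖ξ‖ * ‖η‖}) (b := 1 + s)
    ⟨_, ξ1, η1, ha1, rfl⟩ (by rw [← h.norm_eq]; linarith)
  obtain ⟨ξ, η, e1, e2, e3⟩ := exists_balanced ξ0 η0
  have ha : ι a = coeff μ ξ η := ha0.trans e1.symm
  have b1 : ‖ξ‖ ≤ 2 := (pow_le_pow_iff_left₀ (norm_nonneg _) (by norm_num) two_ne_zero).1
    (by linarith)
  have b2 : ‖η‖ ≤ 2 := (pow_le_pow_iff_left₀ (norm_nonneg _) (by norm_num) two_ne_zero).1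
    (by linarith)
  have b3 : ⟪η, ξ⟫_ℂ = 1 := by
    rw [← h2, ha, coeff_eq_inner, map_one]
    rfl
  have b4 : ‖η - ξ‖ ≤ δ / 2 := by
    refine (pow_le_pow_iff_left₀ (norm_nonneg _) (by positivity) two_ne_zero).1 ?_
    rw [norm_sub_sq (𝕜 := ℂ), b3, RCLike.one_re]
    linarith
  refine ⟨ξ, η, ha, b1, b2, fun g => ?_⟩
  rw [ha, coeff_eq_inner, ← inner_sub_left]
  refine (norm_inner_le_norm _ _).trans ?_
  rw [(isUnitaryRep_lam μ).norm, norm_sub_rev]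
  nlinarith [norm_nonneg ξ, norm_nonneg (η - ξ)]

omit [LocallyCompactSpace G] [T2Space G] in
theorem inner_ind_lam' {V O : Set G} (hV : MeasurableSet V) (hμ : μ V ≠ ∞) (hO : MeasurableSet O)
    (hμ' : μ O ≠ ∞) (c : ℂ) (s : G) :
    ⟪indicatorConstLp 2 hO hμ' c, lam μ s (indicatorConstLp 2 hV hμ c)⟫_ℂ =
      μ.real (O ∩ (fun t => s⁻¹ * t) ⁻¹' V) • ⟪c, c⟫_ℂ := by
  rw [lam_apply, DomMulAct.mk_smul_indicatorConstLp]
  exact L2.inner_indicatorConstLp_indicatorConstLp _ _ _ _ _ _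

variable (μ) in
theorem exists_plateau [μ.InnerRegularCompactLTTop] {M : Set G} (hM : M ∈ 𝓝 (1 : G)) :
    ∃ α β : Lp ℂ 2 μ, ‖α‖ = 1 ∧ ‖β‖ ≤ 2 ∧ Lives (lam μ) M α α ∧ Lives (lam μ) M α β ∧
      Lives (lam μ) M β β ∧ ∀ᶠ g in 𝓝 (1 : G), ⟪β, lam μ g α⟫_ℂ = 1 := by
  obtain ⟨V0, hV0, hV0W⟩ := exists_nhds_split_inv hM
  obtain ⟨V, hV1, hV2, hV3⟩ := local_compact_nhds (interior_mem_nhds.2 hV0)
  have hVm : MeasurableSet V := hV3.measurableSet
  have hμ : μ V ≠ ∞ := hV3.measure_lt_top.ne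
  have hμ0 : μ V ≠ 0 := (Measure.measure_pos_of_mem_nhds μ hV1).ne'
  have hpos : 0 < μ.real V := ENNReal.toReal_pos hμ0 hμ
  obtain ⟨O1, hO1, hO2, hO3⟩ := hV3.exists_isOpen_lt_of_lt (μ := μ) (4 * μ V) (by
    conv_lhs => rw [← one_mul (μ V)]
    exact ENNReal.mul_lt_mul_left hμ0 hμ (by norm_num))
  set O := O1 ∩ interior V0 with hO_def
  have hOo : IsOpen O := hO2.inter isOpen_interior
  have hVO : V ⊆ O := Set.subset_inter hO1 hV2
  have hOV0 : O ⊆ V0 := Set.inter_subset_right.trans interior_subset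
  have hO4 : μ O ≤ 4 * μ V := (measure_mono Set.inter_subset_left).trans hO3.le
  have h4 : 4 * μ V ≠ ∞ := ENNReal.mul_ne_top (by norm_num) hμ
  have hμ' : μ O ≠ ∞ := ne_top_of_le_ne_top h4 hO4
  have hO5 : μ.real O ≤ 4 * μ.real V := by
    have := ENNReal.toReal_mono h4 hO4
    rwa [ENNReal.toReal_mul, ENNReal.toReal_ofNat] at this
  set c : ℂ := (((√(μ.real V))⁻¹ : ℝ) : ℂ) with hc
  have hsq : 0 < √(μ.real V) := Real.sqrt_pos.2 hpos
  have hlive : ∀ {X Y : Set G} (hX : MeasurableSet X) (hX' : μ X ≠ ∞) (hY : MeasurableSet Y)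
      (hY' : μ Y ≠ ∞), X ⊆ V0 → Y ⊆ V0 →
      Lives (lam μ) M (indicatorConstLp 2 hX hX' c) (indicatorConstLp 2 hY hY' c) := by
    intro X Y hX hX' hY hY' h1 h2 s hs
    rw [inner_ind_lam']
    have : Y ∩ (fun t => s⁻¹ * t) ⁻¹' X = ∅ := by
      refine Set.eq_empty_of_forall_notMem fun t ht => hs ?_
      have := hV0W t (h2 ht.1) (s⁻¹ * t) (h1 ht.2)
      simpa using this
    rw [this]
    simp
  have hnorm : ∀ {X : Set G} (hX : MeasurableSet X) (hX' : μ X ≠ ∞),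
      ‖indicatorConstLp 2 hX hX' c‖ = (√(μ.real V))⁻¹ * √(μ.real X) := by
    intro X hX hX'
    rw [norm_indicatorConstLp two_ne_zero ENNReal.ofNat_ne_top, hc, Complex.norm_real, norm_inv,
      Real.norm_of_nonneg (Real.sqrt_nonneg _), Real.sqrt_eq_rpow (μ.real X),
      ENNReal.toReal_ofNat]
  refine ⟨indicatorConstLp 2 hVm hμ c, indicatorConstLp 2 hOo.measurableSet hμ' c, ?_, ?_,
    hlive _ _ _ _ (hVO.trans hOV0) (hVO.trans hOV0), hlive _ _ _ _ (hVO.trans hOV0) hOV0,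
    hlive _ _ _ _ hOV0 hOV0, ?_⟩
  · rw [hnorm, inv_mul_cancel₀ hsq.ne']
  · rw [hnorm, inv_mul_le_iff₀ hsq, Real.sqrt_le_iff, mul_pow, Real.sq_sqrt hpos.le]
    exact ⟨by positivity, by linarith⟩
  · obtain ⟨W, hW, hWO⟩ := compact_open_separated_mul_left hV3 hOo hVO
    filter_upwards [hW] with s hs
    have e1 : O ∩ (fun t => s⁻¹ * t) ⁻¹' V = (fun t => s⁻¹ * t) ⁻¹' V :=
      Set.inter_eq_right.2 fun t ht => hWO ⟨s, hs, _, ht, by simp⟩
    rw [inner_ind_lam', e1, measureReal_def, measure_preimage_mul, ← measureReal_def,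
      inner_self_eq_norm_sq_to_K, hc, Complex.norm_real, norm_inv,
      Real.norm_of_nonneg (Real.sqrt_nonneg _), Complex.real_smul]
    change (μ.real V : ℂ) * (((√(μ.real V))⁻¹ : ℝ) : ℂ) ^ 2 = 1
    rw [← Complex.ofReal_pow, ← Complex.ofReal_mul, inv_pow, Real.sq_sqrt hpos.le,
      mul_inv_cancel₀ hpos.ne', Complex.ofReal_one]

end Pool.Agent.Work.MP_129c4a_an.N
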