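import Pool.Agent.Work.MP_129c4a_an.N.Folner
import Pool.Agent.Work.MP_129c4a_an.N.Plateau
import Mathlib.Data.Nat.Pairing

/-!
An independent system of elements of the Fourier algebra for a group with a non-discrete abelian
subgroup.
-/

namespace Pool.Agent.Work.MP_129c4a_an.N

open MeasureTheory Filter Topology
open scoped InnerProductSpace

universe u v

theorem norm_one_sub_prod_le {κ : Type*} (s : Finset κ) (f : κ → ℂ) (hf : ∀ i ∈ s, ‖f i‖ ≤ 1) :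
    ‖1 - ∏ i ∈ s, f i‖ ≤ ∑ i ∈ s, ‖1 - f i‖ := by
  classical
  induction s using Finset.induction_on with
  | empty => simp
  | insert a s ha ih =>
    rw [Finset.prod_insert ha, Finset.sum_insert ha]
    have e : 1 - f a * ∏ i ∈ s, f i = (1 - f a) + f a * (1 - ∏ i ∈ s, f i) := by ring
    rw [e]
    refine (norm_add_le _ _).trans (add_le_add le_rfl ?_)
    rw [norm_mul]
    exact (mul_le_of_le_one_left (norm_nonneg _) (hf a (Finset.mem_insert_self _ _))).trans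
      (ih fun i hi => hf i (Finset.mem_insert_of_mem hi))

theorem sum_geom_le {c : ℝ} (hc : 0 ≤ c) (n : ℕ) : ∑ t ∈ Finset.range n, c / 2 ^ t ≤ 2 * c := by
  have : ∑ t ∈ Finset.range n, c / 2 ^ t = c * ∑ t ∈ Finset.range n, (1 / 2 : ℝ) ^ t := by
    rw [Finset.mul_sum]
    exact Finset.sum_congr rfl fun t _ => by rw [one_div, inv_pow, div_eq_mul_inv]
  rw [this, mul_comm]
  exact mul_le_mul_of_nonneg_right (sum_geometric_two_le n) hc

variable {G : Type u} [Group G] [TopologicalSpace G] [IsTopologicalGroup G]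
  [LocallyCompactSpace G] [T2Space G] [MeasurableSpace G] [BorelSpace G] {μ : Measure G}
  [μ.IsHaarMeasure] {A : Type v} [NonUnitalNormedRing A] [NormedSpace ℂ A] {ι : A → G → ℂ}

omit [LocallyCompactSpace G] [T2Space G] in
theorem exists_cesaro (h : IsFourierAlgebra μ A ι) {v : A} (hv : ‖v‖ ≤ 1) (n : ℕ) :
    ∃ P : A, ‖P‖ ≤ 1 ∧ ‖P - v * P‖ ≤ 2 / (n + 1) ∧ (∀ g, ι v g = 0 → ι P g = 0) ∧
      ∀ g, ‖1 - ι P g‖ ≤ (n + 1) * ‖1 - ι v g‖ := by
  have hn : (0 : ℝ) < n + 1 := by positivity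
  have hn' : ((n : ℂ) + 1) ≠ 0 := by exact_mod_cast hn.ne'
  have hnn : ‖((n : ℂ) + 1)⁻¹‖ = ((n : ℝ) + 1)⁻¹ := by
    rw [norm_inv]
    congr 1
    exact_mod_cast Complex.norm_natCast (n + 1)
  set w : ℕ → A := rprod fun _ => v with hw
  have hw1 : ∀ i, ‖w i‖ ≤ 1 := norm_rprod_le fun _ => hv
  have hw2 : ∀ i g, ι (w i) g = ∏ _j ∈ Finset.range (i + 1), ι v g := fun i g => by
    rw [hw, fa_rprod h, Finset.prod_apply]
  set P : A := ((n : ℂ) + 1)⁻¹ • ∑ i ∈ Finset.range (n + 1), w i with hP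
  have hP1 : ∀ g, ι P g = ((n : ℂ) + 1)⁻¹ * ∑ i ∈ Finset.range (n + 1), ι (w i) g := fun g => by
    rw [hP, h.map_smul, fa_sum h, Pi.smul_apply, Finset.sum_apply, smul_eq_mul]
  refine ⟨P, ?_, ?_, fun g hg => ?_, fun g => ?_⟩
  · rw [hP, norm_smul, hnn, inv_mul_le_iff₀ hn]
    refine (norm_sum_le _ _).trans ((Finset.sum_le_card_nsmul _ _ 1 fun i _ => hw1 i).trans ?_)
    simp
  · have e : P - v * P = ((n : ℂ) + 1)⁻¹ • (w 0 - w (n + 1)) := by
      apply h.injective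
      funext g
      rw [fa_sub h, h.map_mul, Pi.sub_apply, Pi.mul_apply, hP1, h.map_smul, fa_sub h, Pi.smul_apply,
        Pi.sub_apply, ← Finset.sum_range_sub' (fun i => ι (w i) g), Finset.sum_sub_distrib,
        smul_eq_mul, mul_sub, mul_left_comm, Finset.mul_sum _ _ (ι v g)]
      congr 2
      exact Finset.sum_congr rfl fun i _ => by
        rw [hw2, hw2, Finset.prod_range_succ _ (i + 1), mul_comm]
    rw [e, norm_smul, hnn, div_eq_inv_mul]
    refine mul_le_mul_of_nonneg_left ((norm_sub_le _ _).trans ?_) (inv_pos.2 hn).le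
    linarith [hw1 0, hw1 (n + 1)]
  · rw [hP1, Finset.sum_eq_zero, mul_zero]
    intro i _
    rw [hw2, hg]
    simp
  · have e : 1 - ι P g = ((n : ℂ) + 1)⁻¹ * ∑ i ∈ Finset.range (n + 1), (1 - ι (w i) g) := by
      rw [hP1, Finset.sum_sub_distrib, mul_sub]
      simp [hn']
    rw [e, norm_mul, hnn, inv_mul_le_iff₀ hn]
    refine (norm_sum_le _ _).trans ((Finset.sum_le_card_nsmul _ _ ((n + 1) * ‖1 - ι v g‖)
      fun i hi => ?_).trans (by simp))
    rw [hw2]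
    refine (norm_one_sub_prod_le _ _ fun _ _ => (fa_norm_apply h v g).trans hv).trans ?_
    rw [Finset.sum_const, Finset.card_range, nsmul_eq_mul]
    refine mul_le_mul_of_nonneg_right ?_ (norm_nonneg _)
    have := Finset.mem_range.1 hi
    exact_mod_cast this

/-- one level of the independent system -/
structure Dat (G : Type u) (A : Type v) where
  v : A
  P : A
  F : Finset G
  k : ℕ

theorem exists_indep [μ.InnerRegularCompactLTTop] (h : IsFourierAlgebra μ A ι) (K : Subgroup G)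
    (hK : ∀ a ∈ K, ∀ b ∈ K, a * b = b * a) (hKi : ∀ W ∈ 𝓝 (1 : G), (W ∩ K).Infinite) (r : ℕ)
    {c : ℝ} (hc : 0 < c) : ∃ (v P : ℕ → A) (F : ℕ → Finset G),
      (∀ j, ‖v j‖ ≤ 1 ∧ ‖P j‖ ≤ 1 ∧ ι (v j) 1 = 1 ∧ ι (P j) 1 = 1 ∧
        ‖P j - v j * P j‖ ≤ 2 / (j + 1) ∧ (F j).card = r ∧
        ∀ a ∈ F j, ∀ b ∈ F j, a ≠ b → ι (v j) (a⁻¹ * b) = 0 ∧ ι (P j) (a⁻¹ * b) = 0) ∧
      ∀ i j, i ≠ j → ∀ g ∈ F i, ‖1 - ι (v j) g‖ ≤ c / 4 ^ i / 2 ^ j ∧
        ‖1 - ι (P j) g‖ ≤ c / 4 ^ i / 2 ^ j := by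
  classical
  have hU := isUnitaryRep_lam μ
  obtain ⟨x, hx1, hx2⟩ := exists_seq_of_forall_finset_exists
    (fun d : Dat G A => (‖d.v‖ ≤ 1 ∧ ‖d.P‖ ≤ 1 ∧ ι d.v 1 = 1 ∧ ι d.P 1 = 1 ∧
        ‖d.P - d.v * d.P‖ ≤ 2 / (d.k + 1) ∧ d.F.card = r ∧
        ∀ a ∈ d.F, ∀ b ∈ d.F, a ≠ b → ι d.v (a⁻¹ * b) = 0 ∧ ι d.P (a⁻¹ * b) = 0) ∧
        ∀ g ∈ d.F, g ∈ K)
    (fun d d' => d.k < d'.k ∧
      (∀ g ∈ d.F, ‖1 - ι d'.v g‖ ≤ c / 8 ^ d'.k ∧ ‖1 - ι d'.P g‖ ≤ c / 8 ^ d'.k) ∧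
      ∀ g ∈ d'.F, ‖1 - ι d.v g‖ ≤ c / 8 ^ d'.k ∧ ‖1 - ι d.P g‖ ≤ c / 8 ^ d'.k) (by
      intro s hs
      set k := s.sup Dat.k + 1 with hk
      have hε : 0 < c / 8 ^ k := by positivity
      have hnear : ∀ a : A, ι a 1 = 1 → ∀ᶠ g in 𝓝 (1 : G), ‖1 - ι a g‖ ≤ c / 8 ^ k := by
        intro a ha
        have h1 : Tendsto (fun g => ‖1 - ι a g‖) (𝓝 (1 : G)) (𝓝 0) := by
          have := ((continuous_const (y := (1 : ℂ))).sub (fa_continuous h a)).norm.tendsto 1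
          simpa [ha] using this
        exact h1.eventually (ge_mem_nhds hε)
      have hW : ∀ᶠ g in 𝓝 (1 : G), ∀ d ∈ s,
          ‖1 - ι d.v g‖ ≤ c / 8 ^ k ∧ ‖1 - ι d.P g‖ ≤ c / 8 ^ k := by
        rw [eventually_all_finset]
        exact fun d hd => (hnear _ (hs d hd).1.2.2.1).and (hnear _ (hs d hd).1.2.2.2.1)
      obtain ⟨z, F, hz, hF1, hF2, hF3, hF4⟩ := exists_unit hU (exists_small_vector μ) K hK
        (s.biUnion Dat.F) (fun g hg => by
          obtain ⟨d, hd, hg⟩ := Finset.mem_biUnion.1 hg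
          exact (hs d hd).2 g hg) (η := c / 8 ^ k / (k + 1)) (by positivity) (hKi _ hW) r
      obtain ⟨v, hv1, -, hv2⟩ := fa_elem h z z
      rw [hz, mul_one] at hv2
      obtain ⟨P, hP1, hP2, hP3, hP4⟩ := exists_cesaro h hv2 k
      have hzz : ⟪z, z⟫_ℂ = 1 := by
        rw [inner_self_eq_norm_sq_to_K, hz]
        simp
      have hv3 : ι v 1 = 1 := by rw [hv1, map_one, one_apply_eq_self, hzz]
      have hP5 : ι P 1 = 1 := by
        have := hP4 1
        rw [hv3, sub_self, norm_zero, mul_zero] at this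
        exact (sub_eq_zero.1 (norm_le_zero_iff.1 this)).symm
      refine ⟨⟨v, P, F, k⟩, ⟨⟨hv2, hP1, hv3, hP5, hP2, hF2, fun a ha b hb hab => ?_⟩,
        fun g hg => (hF1 hg).2⟩, fun d hd => ⟨?_, fun g hg => ?_, fun g hg => (hF1 hg).1 d hd⟩⟩
      · have : ι v (a⁻¹ * b) = 0 := by rw [hv1, hF4 a ha b hb hab]
        exact ⟨this, hP3 _ this⟩
      · exact Nat.lt_succ_of_le (Finset.le_sup (f := Dat.k) hd)
      · have h1 : ‖1 - ι v g‖ ≤ c / 8 ^ k / (k + 1) := by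
          rw [hv1, ← hzz, ← inner_sub_right]
          refine (norm_inner_le_norm _ _).trans ?_
          rw [hz, one_mul, norm_sub_rev]
          exact hF3 g (Finset.mem_biUnion.2 ⟨d, hd, hg⟩)
        have hk1 : (0 : ℝ) < k + 1 := by positivity
        refine ⟨h1.trans (div_le_self hε.le (by linarith [(k.cast_nonneg : (0 : ℝ) ≤ k)])),
          (hP4 g).trans ?_⟩
        rwa [le_div_iff₀' hk1] at h1)
  have hk : ∀ n, n ≤ (x n).k := fun _ => (strictMono_nat_of_lt_succ (f := fun n => (x n).k)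
    fun n => (hx2 n (n + 1) (Nat.lt_succ_self n)).1).le_apply
  have hb : ∀ i j m, i ≤ m → j ≤ m → c / 8 ^ (x m).k ≤ c / 4 ^ i / 2 ^ j := by
    intro i j m hi hj
    rw [div_div]
    refine div_le_div_of_nonneg_left hc.le (by positivity) ?_
    rw [show (8 : ℝ) = 4 * 2 by norm_num, mul_pow]
    exact mul_le_mul (pow_le_pow_right₀ (by norm_num) (hi.trans (hk m)))
      (pow_le_pow_right₀ (by norm_num) (hj.trans (hk m))) (by positivity) (by positivity)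
  refine ⟨fun j => (x j).v, fun j => (x j).P, fun j => (x j).F, fun j => ?_, fun i j hij g hg => ?_⟩
  · obtain ⟨a1, a2, a3, a4, a5, a6, a7⟩ := (hx1 j).1
    refine ⟨a1, a2, a3, a4, a5.trans ?_, a6, a7⟩
    refine div_le_div_of_nonneg_left zero_le_two (by positivity) ?_
    exact_mod_cast Nat.succ_le_succ (hk j)
  · rcases lt_or_gt_of_ne hij with hlt | hlt
    · have := (hx2 i j hlt).2.1 g hg
      exact ⟨this.1.trans (hb i j j hlt.le le_rfl), this.2.trans (hb i j j hlt.le le_rfl)⟩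
    · have := (hx2 j i hlt).2.2 g hg
      exact ⟨this.1.trans (hb i j i le_rfl hlt.le), this.2.trans (hb i j i le_rfl hlt.le)⟩

end Pool.Agent.Work.MP_129c4a_an.N
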