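import Pool.Agent.Work.MP_129c4a_an.N.Plateau

/-!
Discrete groups: the radical has square zero; finite groups: the radical is zero.
-/

namespace Pool.Agent.Work.MP_129c4a_an.N

open MeasureTheory Filter Topology
open scoped InnerProductSpace

universe u v

variable {G : Type u} [Group G] [TopologicalSpace G] [IsTopologicalGroup G]
  [MeasurableSpace G] [BorelSpace G] {μ : Measure G}
  [μ.IsHaarMeasure] {A : Type v} [NonUnitalNormedRing A] [NormedSpace ℂ A] {ι : A → G → ℂ}

theorem eq_zero_of_basis {H : Type*} [NormedAddCommGroup H] [InnerProductSpace ℂ H] {κ : Type*}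
    (b : HilbertBasis κ ℂ H) (p : Submodule ℂ H) (hp : IsClosed (p : Set H)) (hb : ∀ i, b i ∈ p)
    (x : H) : x ∈ p := by
  have h1 : Submodule.span ℂ (Set.range b) ≤ p :=
    Submodule.span_le.2 (by rintro _ ⟨i, rfl⟩; exact hb i)
  have h2 := Submodule.topologicalClosure_minimal _ h1 hp
  rw [b.dense_span] at h2
  exact h2 Submodule.mem_top

theorem functional_eq_zero (h : IsFourierAlgebra μ A ι) (b : HilbertBasis G ℂ (Lp ℂ 2 μ))
    (f : StrongDual ℂ A) (hf : ∀ x y a, ι a = coeff μ (b x) (b y) → f a = 0) : f = 0 := by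
  choose el hel1 hel2 hel3 using fa_elem h
  have hadd : ∀ ξ ξ' η, el (ξ + ξ') η = el ξ η + el ξ' η := fun ξ ξ' η => h.injective (by
    funext g
    rw [h.map_add, Pi.add_apply, hel1, hel1, hel1, map_add, inner_add_right])
  have hsmul : ∀ (c : ℂ) ξ η, el (c • ξ) η = c • el ξ η := fun c ξ η => h.injective (by
    funext g
    rw [h.map_smul, Pi.smul_apply, hel1, hel1, map_smul, inner_smul_right, smul_eq_mul])
  have hadd' : ∀ ξ η η', el ξ (η + η') = el ξ η + el ξ η' := fun ξ η η' => h.injective (by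
    funext g
    rw [h.map_add, Pi.add_apply, hel1, hel1, hel1, inner_add_left])
  have hsmul' : ∀ (c : ℂ) ξ η, el ξ (c • η) = (starRingEnd ℂ) c • el ξ η :=
    fun c ξ η => h.injective (by
      funext g
      rw [h.map_smul, Pi.smul_apply, hel1, hel1, inner_smul_left, smul_eq_mul])
  let l1 : ∀ η : Lp ℂ 2 μ, Lp ℂ 2 μ →L[ℂ] A := fun η =>
    LinearMap.mkContinuous ⟨⟨fun ξ => el ξ η, fun ξ ξ' => hadd ξ ξ' η⟩, fun c ξ => hsmul c ξ η⟩
      ‖η‖ fun ξ => (hel3 ξ η).trans_eq (mul_comm _ _)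
  let l2 : ∀ ξ : Lp ℂ 2 μ, Lp ℂ 2 μ →L⋆[ℂ] A := fun ξ =>
    LinearMap.mkContinuous ⟨⟨fun η => el ξ η, hadd' ξ⟩, fun c η => hsmul' c ξ η⟩ ‖ξ‖ (hel3 ξ)
  have h1 : ∀ y ξ, f (el ξ (b y)) = 0 := fun y ξ =>
    eq_zero_of_basis b (f.comp (l1 (b y))).ker (ContinuousLinearMap.isClosed_ker _)
      (fun x => hf x y _ (hel2 _ _)) ξ
  have h2 : ∀ ξ η, f (el ξ η) = 0 := fun ξ η =>
    eq_zero_of_basis b (f.comp (l2 ξ)).ker (ContinuousLinearMap.isClosed_ker _)
      (fun y => h1 y ξ) η
  ext a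
  obtain ⟨ξ, η, ha⟩ := h.exists_rep a
  rw [h.injective (ha.trans (hel2 ξ η).symm), h2]
  rfl

open Classical in
theorem coeff_basis (b : HilbertBasis G ℂ (Lp ℂ 2 μ)) (hb : ∀ s x, lam μ s (b x) = b (s * x))
    (x y g : G) : coeff μ (b x) (b y) g = if g = y * x⁻¹ then 1 else 0 := by
  rw [coeff_eq_inner, hb, orthonormal_iff_ite.1 b.orthonormal]
  exact if_congr (by rw [eq_mul_inv_iff_mul_eq]; exact eq_comm) rfl rfl

variable [IsScalarTower ℂ A A] [SMulCommClass ℂ A A]

omit [TopologicalSpace G] [IsTopologicalGroup G] [BorelSpace G] [μ.IsHaarMeasure] in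
theorem rad_eval (h : IsFourierAlgebra μ A ι) {Ψ : ArensBidual A} (hΨ : Ψ ∈ rad (ArensBidual A))
    {g : G} {F : StrongDual ℂ A} (hF : ∀ a, F a = ι a g) : toB Ψ F = 0 :=
  rad_char hΨ fun a b => by rw [hF, hF, hF, h.map_mul, Pi.mul_apply]

theorem mul_rad_eq_zero [DiscreteTopology G] (h : IsFourierAlgebra μ A ι) (Φ : ArensBidual A)
    {Ψ : ArensBidual A} (hΨ : Ψ ∈ rad (ArensBidual A)) : Φ * Ψ = 0 := by
  obtain ⟨b, hb⟩ := exists_basis_discrete μ
  refine toB_ext fun T => ?_
  have : bidualAct (toB Ψ) T = 0 := by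
    refine functional_eq_zero h b _ fun x y a ha => ?_
    obtain ⟨F, -, hF⟩ := fa_eval h (y * x⁻¹)
    have e1 : dualAct T a = T a • F := by
      ext c
      have e2 : a * c = ι c (y * x⁻¹) • a := h.injective (by
        funext g
        rw [h.map_mul, h.map_smul, Pi.mul_apply, Pi.smul_apply, ha, coeff_basis b hb]
        split_ifs with hg
        · rw [hg, one_mul, smul_eq_mul, mul_one]
        · rw [zero_mul, smul_zero])
      rw [dualAct_apply, e2, map_smul, smul_apply, hF, smul_eq_mul, smul_eq_mul, mul_comm]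
    rw [bidualAct_apply, e1, map_smul, rad_eval h hΨ hF, smul_zero]
  rw [toB_mul, this, map_zero, toB_zero]

theorem rad_eq_zero [Finite G] [T2Space G] (h : IsFourierAlgebra μ A ι) {Ψ : ArensBidual A}
    (hΨ : Ψ ∈ rad (ArensBidual A)) : Ψ = 0 := by
  classical
  have := Fintype.ofFinite G
  obtain ⟨b, hb⟩ := exists_basis_discrete μ
  choose F _ hF using fa_eval h
  choose el _ hel _ using fun s => fa_elem h (b 1) (b s)
  refine toB_ext fun T => ?_
  have e1 : T = ∑ s, T (el s) • F s := by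
    ext a
    have e2 : a = ∑ s, ι a s • el s := h.injective (by
      funext g
      rw [fa_sum h, Finset.sum_apply]
      simp [h.map_smul, hel, coeff_basis b hb])
    conv_lhs => rw [e2]
    rw [map_sum, sum_apply]
    exact Finset.sum_congr rfl fun s _ => by
      rw [map_smul, smul_apply, hF, smul_eq_mul, smul_eq_mul, mul_comm]
  rw [e1, map_sum, toB_zero]
  exact Finset.sum_eq_zero fun s _ => by rw [map_smul, rad_eval h hΨ (hF s), smul_zero]

end Pool.Agent.Work.MP_129c4a_an.N
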