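import Pool.Agent.Work.MP_129c4a_an.N.System
import Pool.Agent.Work.MP_129c4a_an.N.Plateau

/-!
For a non-discrete group the radical of the bidual of the Fourier algebra has a non-zero square.
-/

namespace Pool.Agent.Work.MP_129c4a_an.N

open MeasureTheory Filter Topology
open scoped InnerProductSpace

universe u v

variable {G : Type u} [Group G] [TopologicalSpace G] [IsTopologicalGroup G]
  [LocallyCompactSpace G] [T2Space G] [MeasurableSpace G] [BorelSpace G] {μ : Measure G}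
  [μ.IsHaarMeasure] {A : Type v} [NonUnitalNormedRing A] [NormedSpace ℂ A] {ι : A → G → ℂ}

omit [LocallyCompactSpace G] [T2Space G] in
theorem dec_est (h : IsFourierAlgebra μ A ι) {ω : ℝ} {I : ℕ → Inp G (Lp ℂ 2 μ)}
    {O : ℕ → Out G (Lp ℂ 2 μ)} (hS : Sys (lam μ) ω I O) {j m : ℕ} (hjm : j < m) {x y : Lp ℂ 2 μ}
    (hp : Pair (lam μ) (I m).M x y) {a w : A}
    (ha : ∀ g, ι a g = ⟪(O j).β, lam μ g (O j).α⟫_ℂ)
    (hw : ∀ g, ι w g = ⟪(I m).A (lam μ) y, lam μ g ((I m).A (lam μ) x)⟫_ℂ)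
    {T : Lp ℂ 2 μ →L[ℂ] Lp ℂ 2 μ} {F : StrongDual ℂ A}
    (hF : ∀ a ξ η, ι a = coeff μ ξ η → F a = ⟪η, T ξ⟫_ℂ) {σ : ℂ} {ε : ℝ}
    (hT : ∀ s ∈ (I j).S, ‖T (lam μ s (tl (fun i => (O i).a) j m x)) -
      σ • lam μ s (tl (fun i => (O i).a) j m x)‖ ≤ ε) : ‖F (a * w) - σ‖ ≤ 2 * ε := by
  have hU := isUnitaryRep_lam μ
  have hq := hS.pair_tl' hjm hp
  set ζ := tl (fun i => (O i).a) j m x with hζ
  set ζ' := tl (fun i => (O i).a) j m y with hζ'
  have hdec := (hS.spec j).dec ζ ζ' hq.2.2.2.1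
  have hA : ∀ z, (I j).A (lam μ) (tl (fun i => (O i).a) j m z) = (I m).A (lam μ) z := fun z => by
    rw [hS.A_eq hjm.le]
    rfl
  rw [hζ, hζ', hA, hA, ← hζ, ← hζ'] at hdec
  have hsum : ∑ s ∈ (I j).S, ((‖(I j).κ s‖ ^ 2 : ℝ) : ℂ) = 1 := by
    have h1 := hdec 1
    have h2 := (hS.pair_tl (Nat.zero_le m) hp).2.2.2.2.2
    rw [← hS.A_eq_tl] at h2
    simp only [map_one, one_apply_eq_self] at h1
    rw [h2, (hS.spec j).pair.2.2.2.2.2, mul_one] at h1
    rw [h1]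
    exact Finset.sum_congr rfl fun s _ => by rw [hU, hq.2.2.2.2.2, mul_one]
  choose el hel1 hel2 _ using fun s => fa_elem h (lam μ s ζ) (lam μ s ζ')
  have hprod : a * w = ∑ s ∈ (I j).S, ((‖(I j).κ s‖ ^ 2 : ℝ) : ℂ) • el s := by
    apply h.injective
    funext g
    rw [h.map_mul, fa_sum h, Pi.mul_apply, ha, hw, hdec, Finset.sum_apply]
    exact Finset.sum_congr rfl fun s _ => by rw [h.map_smul, Pi.smul_apply, hel1, smul_eq_mul]
  have e1 : F (a * w) - σ = ∑ s ∈ (I j).S, ((‖(I j).κ s‖ ^ 2 : ℝ) : ℂ) *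
      ⟪lam μ s ζ', T (lam μ s ζ) - σ • lam μ s ζ⟫_ℂ := by
    conv_lhs => rw [hprod, map_sum, ← one_mul σ, ← hsum, Finset.sum_mul, ← Finset.sum_sub_distrib]
    refine Finset.sum_congr rfl fun s _ => ?_
    rw [map_smul, hF _ _ _ (hel2 s), inner_sub_right, inner_smul_right, hU, hq.2.2.2.2.2,
      smul_eq_mul]
    ring
  have hsum' : ∑ s ∈ (I j).S, ‖(I j).κ s‖ ^ 2 = 1 := by exact_mod_cast hsum
  rw [e1, ← one_mul (2 * ε), ← hsum', Finset.sum_mul]
  refine (norm_sum_le _ _).trans (Finset.sum_le_sum fun s hs => ?_)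
  rw [norm_mul, Complex.norm_real, Real.norm_of_nonneg (sq_nonneg _)]
  refine mul_le_mul_of_nonneg_left ((norm_inner_le_norm _ _).trans ?_) (sq_nonneg _)
  rw [hU.norm]
  exact mul_le_mul hq.2.1 (hT s hs) (norm_nonneg _) zero_le_two

theorem exists_mul_ne_zero [μ.InnerRegularCompactLTTop] [IsScalarTower ℂ A A]
    [SMulCommClass ℂ A A] (hnd : ¬ DiscreteTopology G) (h : IsFourierAlgebra μ A ι) :
    ∃ Φ ∈ rad (ArensBidual A), ∃ Ψ ∈ rad (ArensBidual A), Φ * Ψ ≠ 0 := by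
  have hU := isUnitaryRep_lam μ
  obtain ⟨I, O, hS⟩ := exists_sys hnd hU (continuous_lam μ) (fun M hM => exists_plateau μ hM)
    (ω := 1 / 200) (by norm_num)
  choose a ha _ han using fun j => fa_elem h (O j).α (O j).β
  choose y hy _ hyn using fun m => fa_elem h ((I m).A (lam μ) (O m).α) ((I m).A (lam μ) (O m).β)
  choose y' hy' _ hyn' using
    fun m => fa_elem h ((I m).A (lam μ) (O m).α') ((I m).A (lam μ) (O m).β')
  choose F hF1 hF2 using fun N => h.exists_clm (hS.opT_mem N) (hS.opT_contr N)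
  obtain ⟨T, hT⟩ := exists_ultralim uf F 1 hF1
  have hlim : ∀ (b : A) (σ : ℂ) (ε : ℝ), (∀ᶠ N in atTop, ‖F N b - σ‖ ≤ ε) → ‖T b - σ‖ ≤ ε :=
    fun b σ ε hb => le_of_tendsto ((hT b).sub_const σ).norm (uf_le hb)
  have hpn : ∀ {M : Set G} {x z : Lp ℂ 2 μ}, Pair (lam μ) M x z → ‖x‖ * ‖z‖ ≤ 2 := fun hp => by
    rw [hp.1, one_mul]
    exact hp.2.1
  have ha2 : ∀ j, ‖a j‖ ≤ 2 := fun j => (han j).trans (hpn (hS.spec j).pair)
  have hy2 : ∀ m, ‖y m‖ ≤ 2 := fun m => (hyn m).trans (by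
    rw [hS.A_eq_tl]
    exact hpn (hS.pair_tl (Nat.zero_le m) (hS.spec m).pair))
  have hy2' : ∀ m, ‖y' m‖ ≤ 2 := fun m => (hyn' m).trans (by
    rw [hS.A_eq_tl]
    exact hpn (hS.pair_tl (Nat.zero_le m) (hS.spec m).pair'))
  have hzero : ∀ b : A, ι b = 0 → ‖b‖ ≤ 0 := fun b hb => by
    rw [h.injective (hb.trans (fa_zero h).symm), norm_zero]
  obtain ⟨Φ, hΦ, hΦ'⟩ := exists_rad_lim h.comm (fun n => a (2 * n + 1) - a (2 * n + 1 + 1)) 4
    (fun n => (norm_sub_le _ _).trans (by linarith [ha2 (2 * n + 1), ha2 (2 * n + 1 + 1)]))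
    (fun _ => 0) tendsto_const_nhds (fun n m hnm => hzero _ (by
      funext g
      rw [h.map_mul, fa_sub h, fa_sub h, Pi.mul_apply, Pi.sub_apply, Pi.sub_apply, ha, ha, ha, ha]
      by_cases hg : g ∈ (I (2 * m + 1)).M
      · rw [(hS.spec _).one g (hS.M_sub_W (by omega) hg),
          (hS.spec _).one g (hS.M_sub_W (by omega) hg), sub_self, zero_mul]
        rfl
      · rw [(hS.spec (2 * m + 1)).pair.2.2.2.1 g hg, (hS.spec (2 * m + 1 + 1)).pair.2.2.2.1 g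
          fun hh => hg (hS.M_anti (by omega) hh), sub_self, mul_zero]
        rfl))
  obtain ⟨Ψ, hΨ, hΨ'⟩ := exists_rad_lim h.comm (fun m => y' (2 * m) - y (2 * m)) 4
    (fun n => (norm_sub_le _ _).trans (by linarith [hy2 (2 * n), hy2' (2 * n)]))
    (fun _ => 0) tendsto_const_nhds (fun n m hnm => hzero _ (by
      funext g
      have hlt : 2 * n < 2 * m := by omega
      have h1 := (hS.spec (2 * n)).agree _ _ (hS.pair_tl' hlt (hS.spec _).pair).2.2.2.1 g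
      have h2 := (hS.spec (2 * n)).agree _ _ (hS.pair_tl' hlt (hS.spec _).pair').2.2.2.1 g
      rw [h.map_mul, fa_sub h, fa_sub h, Pi.mul_apply, Pi.sub_apply, Pi.sub_apply, hy, hy, hy', hy',
        mul_sub, hS.A_eq hlt.le]
      exact (congrArg₂ (· - ·) h2 h1).trans (sub_zero 0)))
  refine ⟨Φ, hΦ, Ψ, hΨ, mul_ne_zero_of_lim hΦ' hΨ' T (δ := 1 / 2) (by norm_num) fun n => ?_⟩
  filter_upwards [eventually_gt_atTop (n + 1)] with m hm
  have k1 : ∀ j, j + 1 < 2 * m → ‖T (a (j + 1) * y' (2 * m)) - sg j‖ ≤ 2 * (12 * (1 / 200)) := by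
    intro j hj
    refine hlim _ _ _ ?_
    filter_upwards [eventually_gt_atTop (2 * m)] with N hN
    exact dec_est h hS hj (hS.spec _).pair' (ha _) (hy' _) (hF2 N)
      fun s hs => hS.opT_est' hj.le (even_two_mul m) hN hs
  have k2 : ∀ j, j < 2 * m → ‖T (a j * y (2 * m)) - 0‖ ≤ 2 * (12 * (1 / 200)) := by
    intro j hj
    refine hlim _ _ _ ?_
    filter_upwards [eventually_gt_atTop (2 * m)] with N hN
    obtain ⟨k, hk⟩ : ∃ k, 2 * m = k + 1 := ⟨2 * m - 1, by omega⟩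
    rw [hk] at hj hN ⊢
    exact dec_est h hS hj (hS.spec _).pair (ha _) (hy _) (hF2 N)
      fun s hs => hS.opT_est (by omega) (by rw [Nat.even_iff]; omega) (by omega) hs
  have b1 := k1 (2 * n) (by omega)
  have b2 := k1 (2 * n + 1) (by omega)
  have b3 := k2 (2 * n + 1) (by omega)
  have b4 := k2 (2 * n + 1 + 1) (by omega)
  rw [sg, if_pos (even_two_mul n)] at b1
  rw [sg, if_neg (by rw [Nat.even_iff]; omega)] at b2
  rw [sub_zero] at b2 b3 b4
  have c1 := (abs_le.1 ((Complex.abs_re_le_norm _).trans b1)).1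
  have c2 := (abs_le.1 ((Complex.abs_re_le_norm _).trans b2)).2
  have c3 := (abs_le.1 ((Complex.abs_re_le_norm _).trans b3)).2
  have c4 := (abs_le.1 ((Complex.abs_re_le_norm _).trans b4)).1
  rw [Complex.sub_re, Complex.one_re] at c1
  rw [sub_mul, mul_sub, mul_sub, map_sub, map_sub, map_sub, Complex.sub_re, Complex.sub_re,
    Complex.sub_re]
  linarith

end Pool.Agent.Work.MP_129c4a_an.N
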