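import Pool.Agent.Work.MP_129c4a_an.N.Index
import Pool.Agent.Work.MP_129c4a_an.N.Square
import Pool.Agent.Work.MP_129c4a_an.N.Disc

/-!
The value of the nilpotency index of the radical, truncated at three.
-/

namespace Pool.Agent.Work.MP_129c4a_an.N

open MeasureTheory

universe u v

section Index

variable {B : Type v} [NonUnitalRing B] [Module ℂ B] [IsScalarTower ℂ B B] [SMulCommClass ℂ B B]

theorem one_le_radIndex : 1 ≤ radIndex B :=
  le_sInf (by rintro _ ⟨k, rfl, -⟩; exact le_add_self)

theorem radIndex_le_one (h : ∀ x ∈ rad B, x = 0) : radIndex B ≤ 1 :=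
  sInf_le ⟨0, by simp, fun x hx l hl _ => by
    rw [List.length_eq_zero_iff.1 hl]
    exact h x hx⟩

theorem radIndex_le_two (h : ∀ y ∈ rad B, ∀ x ∈ rad B, y * x = 0) : radIndex B ≤ 2 :=
  sInf_le ⟨1, by norm_num, fun x hx l hl hl' => by
    obtain ⟨y, rfl⟩ := List.length_eq_one_iff.1 hl
    exact h y (hl' y (by simp)) x hx⟩

theorem two_le_radIndex (h : ∃ x : B, x ≠ 0 ∧ x ∈ rad B) : 2 ≤ radIndex B := by
  obtain ⟨x, hx0, hx⟩ := h
  refine le_sInf ?_
  rintro _ ⟨k, rfl, hk⟩
  rcases k with _ | k
  · exact (hx0 (hk x hx [] rfl (by simp))).elim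
  · exact_mod_cast (by omega : 2 ≤ k + 1 + 1)

theorem three_le_radIndex (h : ∃ y ∈ rad B, ∃ x ∈ rad B, y * x ≠ 0) : 3 ≤ radIndex B := by
  obtain ⟨y, hy, x, hx, hyx⟩ := h
  refine le_sInf ?_
  rintro _ ⟨k, rfl, hk⟩
  rcases k with _ | _ | k
  · exact (hyx (by rw [show x = 0 from hk x hx [] rfl (by simp), mul_zero])).elim
  · exact (hyx (hk x hx [y] rfl (by simpa using hy))).elim
  · exact_mod_cast (by omega : 3 ≤ k + 1 + 1 + 1)

end Index

variable {G : Type u} [Group G] [TopologicalSpace G] [IsTopologicalGroup G]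
  [LocallyCompactSpace G] [T2Space G] [MeasurableSpace G] [BorelSpace G] (μ : Measure G)
  [μ.IsHaarMeasure] [μ.InnerRegularCompactLTTop]

theorem isFourierAlgebra : IsFourierAlgebra μ (FourierAlgebra μ) Subtype.val where
  injective := Subtype.val_injective
  range_eq := Subtype.range_val
  map_add := fun _ _ => rfl
  map_smul := fun _ _ => rfl
  map_mul := fun _ _ => rfl
  norm_eq := fun _ => rfl

open Classical in
theorem min_radIndex : min (radIndex (ArensBidual (FourierAlgebra μ))) 3 =
    if Finite G then 1 else if DiscreteTopology G then 2 else 3 := by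
  have h := isFourierAlgebra μ
  split_ifs with h1 h2
  · rw [le_antisymm (radIndex_le_one fun x hx => rad_eq_zero h hx) one_le_radIndex]
    exact min_eq_left (by norm_num)
  · have := not_finite_iff_infinite.1 h1
    rw [le_antisymm (radIndex_le_two fun y _ x hx => mul_rad_eq_zero h y hx)
      (two_le_radIndex (exists_rad μ h))]
    exact min_eq_left (by norm_num)
  · exact min_eq_right (three_le_radIndex (exists_mul_ne_zero h2 h))

end Pool.Agent.Work.MP_129c4a_an.N
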