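import Pool.Agent.Work.MP_129c4a_an.N.Small

/-!
Almost invariant vectors with orthogonal translates for a non-discrete abelian subgroup.
-/

namespace Pool.Agent.Work.MP_129c4a_an.N

open Filter Topology
open scoped InnerProductSpace

universe u v

variable {G : Type u} [Group G] {H : Type v} [NormedAddCommGroup H] [InnerProductSpace ℂ H]

theorem exists_sparse {I : Set G} (hI : I.Infinite) (D : Finset G) (r : ℕ) :
    ∃ F : Finset G, ↑F ⊆ I ∧ F.card = r ∧ ∀ a ∈ F, ∀ b ∈ F, a ≠ b → a⁻¹ * b ∉ D := by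
  classical
  induction r with
  | zero => exact ⟨∅, by simp, rfl, by simp⟩
  | succ r ih =>
    obtain ⟨F, h1, h2, h3⟩ := ih
    obtain ⟨g, hg1, hg2⟩ := hI.exists_notMem_finset
      (F ∪ (F ×ˢ D).image (fun p => p.1 * p.2) ∪ (F ×ˢ D).image fun p => p.1 * p.2⁻¹)
    simp only [Finset.mem_union, Finset.mem_image, Finset.mem_product, not_or, not_exists,
      not_and, Prod.forall] at hg2
    obtain ⟨⟨k1, k2⟩, k3⟩ := hg2
    refine ⟨insert g F, ?_, by rw [Finset.card_insert_of_notMem k1, h2], ?_⟩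
    · rw [Finset.coe_insert]
      exact Set.insert_subset hg1 h1
    · intro a ha b hb hab hD
      rcases Finset.mem_insert.1 ha with rfl | ha' <;> rcases Finset.mem_insert.1 hb with rfl | hb'
      · exact hab rfl
      · exact k3 b _ ⟨hb', hD⟩ (by group)
      · exact k2 a _ ⟨ha', hD⟩ (by group)
      · exact h3 a ha' b hb' hab hD

variable [TopologicalSpace G] [T1Space G] {U : G →* (H →L[ℂ] H)}

theorem eventually_re_nonneg (hU : IsUnitaryRep U) {W : Set G} {S T : H →L[ℂ] H}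
    (hS : S ∈ PosW U W) (hT : T ∈ PosW U W) : ∀ᶠ z in Sm1 U, 0 ≤ (⟪S z, T z⟫_ℂ).re := by
  induction hS using AddSubmonoid.closure_induction with
  | mem a ha =>
    obtain ⟨s, -, rfl⟩ := ha
    obtain ⟨τ, h1, h2⟩ := exists_tau_pos (mul_mem_pos (rep_mem_posW (Set.mem_univ s⁻¹))
      (posW_mono (Set.subset_univ W) hT))
    filter_upwards [Sm_diag h2] with z hz
    rw [hU.inner_left]
    change 0 ≤ (⟪z, (U s⁻¹ * T) z⟫_ℂ).re
    rw [hz, Complex.re_ofReal_mul, re_inner_self]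
    positivity
  | zero => simp
  | add y z _ _ hy hz =>
    filter_upwards [hy, hz] with w h1 h2
    rw [add_apply, inner_add_left, Complex.add_re]
    exact add_nonneg h1 h2

theorem exists_folner (hU : IsUnitaryRep U) (K : Subgroup G)
    (hK : ∀ a ∈ K, ∀ b ∈ K, a * b = b * a) (E : Finset G) (hE : ∀ h ∈ E, h ∈ K) :
    ∀ η : ℝ, 0 < η → ∃ a ∈ PosW U K,
      ∀ᶠ z in Sm1 U, ‖z‖ ≤ ‖a z‖ ∧ ∀ h ∈ E, ‖U h (a z) - a z‖ ≤ η * ‖a z‖ := by
  classical
  induction E using Finset.induction_on with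
  | empty => exact fun η _ => ⟨1, one_mem_posW K.one_mem, Eventually.of_forall fun z => by simp⟩
  | insert h E _ ih =>
    intro η hη
    have hh : h ∈ K := hE h (Finset.mem_insert_self _ _)
    obtain ⟨n, hn⟩ := exists_nat_gt (max 1 (4 / η ^ 2))
    have hn1 : (1 : ℝ) < n := (le_max_left _ _).trans_lt hn
    have hn2 : 4 ≤ η ^ 2 * n := by
      have := (le_max_right _ _).trans hn.le
      rwa [div_le_iff₀' (by positivity)] at this
    obtain ⟨a, ha, hz⟩ := ih (fun g hg => hE g (Finset.mem_insert_of_mem hg)) (η / n)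
      (by positivity)
    have hmul : ∀ {S T : H →L[ℂ] H}, S ∈ PosW U K → T ∈ PosW U K → S * T ∈ PosW U K :=
      mul_mem_posW fun a ha b hb => K.mul_mem ha hb
    have hM : ∀ m, ∑ i ∈ Finset.range m, U (h ^ i) ∈ PosW U K := fun m =>
      sum_mem fun i _ => rep_mem_posW (K.pow_mem hh i)
    have hgrow : ∀ m : ℕ, ∀ᶠ z in Sm1 U,
        m * ‖a z‖ ^ 2 ≤ ‖(∑ i ∈ Finset.range m, U (h ^ i)) (a z)‖ ^ 2 := by
      intro m
      induction m with
      | zero => simp
      | succ m ihm =>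
        filter_upwards [ihm, eventually_re_nonneg hU (hmul (hM m) ha)
          (hmul (rep_mem_posW (K.pow_mem hh m)) ha)] with z h1 h2
        rw [Finset.sum_range_succ, add_apply, norm_add_sq (𝕜 := ℂ), hU.norm, Nat.cast_succ]
        change 0 ≤ RCLike.re ⟪(∑ i ∈ Finset.range m, U (h ^ i)) (a z), U (h ^ m) (a z)⟫_ℂ at h2
        linarith
    refine ⟨_, hmul (hM n) ha, ?_⟩
    filter_upwards [hz, hgrow n] with z h1 h2
    rw [mul_apply_eq_comp]
    set y := a z with hy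
    set M := ∑ i ∈ Finset.range n, U (h ^ i) with hMdef
    have h3 : ‖y‖ ≤ ‖M y‖ := (pow_le_pow_iff_left₀ (norm_nonneg _) (norm_nonneg _) two_ne_zero).1
      (le_trans (le_mul_of_one_le_left (sq_nonneg _) hn1.le) h2)
    refine ⟨h1.1.trans h3, fun g hg => ?_⟩
    rcases Finset.mem_insert.1 hg with rfl | hg'
    · have e1 : U g (M y) - M y = U (g ^ n) y - y := by
        have := Finset.sum_range_sub (fun i => U (g ^ i) y) n
        rw [pow_zero, U.map_one, one_apply_eq_self] at this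
        rw [← this, hMdef, sum_apply, map_sum, ← Finset.sum_sub_distrib]
        exact Finset.sum_congr rfl fun i _ => by rw [rep_rep, pow_succ']
      rw [e1]
      have h4 : ‖U (g ^ n) y - y‖ ≤ 2 * ‖y‖ := by
        refine (norm_sub_le _ _).trans ?_
        rw [hU.norm, two_mul]
      refine h4.trans ((pow_le_pow_iff_left₀ (by positivity) (by positivity) two_ne_zero).1 ?_)
      nlinarith [mul_le_mul_of_nonneg_left h2 (sq_nonneg η),
        mul_le_mul_of_nonneg_right hn2 (sq_nonneg ‖y‖)]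
    · have e1 : U g (M y) - M y = ∑ i ∈ Finset.range n, U (h ^ i) (U g y - y) := by
        rw [hMdef, sum_apply, map_sum, ← Finset.sum_sub_distrib]
        exact Finset.sum_congr rfl fun i _ => by
          rw [map_sub, rep_rep, rep_rep, hK g (hE g hg) _ (K.pow_mem hh i)]
      rw [e1]
      refine (norm_sum_le _ _).trans ((Finset.sum_le_card_nsmul _ _ (η / n * ‖y‖)
        fun i _ => ?_).trans ?_)
      · rw [hU.norm]
        exact h1.2 g hg'
      · rw [Finset.card_range, nsmul_eq_mul, ← mul_assoc, mul_div_cancel₀ _ (by linarith)]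
        exact mul_le_mul_of_nonneg_left h3 hη.le

theorem exists_unit (hU : IsUnitaryRep U)
    (hv : ∀ W ∈ 𝓝 (1 : G), ∃ ξ : H, ‖ξ‖ = 1 ∧ ∀ s, s ∉ W → ⟪ξ, U s ξ⟫_ℂ = 0) (K : Subgroup G)
    (hK : ∀ a ∈ K, ∀ b ∈ K, a * b = b * a) (E : Finset G) (hE : ∀ h ∈ E, h ∈ K) {η : ℝ}
    (hη : 0 < η) {I : Set G} (hI : I.Infinite) (r : ℕ) :
    ∃ (x : H) (F : Finset G), ‖x‖ = 1 ∧ ↑F ⊆ I ∧ F.card = r ∧ (∀ h ∈ E, ‖U h x - x‖ ≤ η) ∧
      ∀ a ∈ F, ∀ b ∈ F, a ≠ b → ⟪x, U (a⁻¹ * b) x⟫_ℂ = 0 := by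
  obtain ⟨a, ha, h1⟩ := exists_folner hU K hK E hE η hη
  obtain ⟨D, hD⟩ := exists_generic hU (posW_span ha) (posW_span ha)
  obtain ⟨F, hF1, hF2, hF3⟩ := exists_sparse hI D r
  have h2 : ∀ᶠ z in Sm1 U, ∀ s ∈ F, ∀ t ∈ F, s ≠ t → ⟪a z, U (s⁻¹ * t) (a z)⟫_ℂ = 0 := by
    rw [eventually_all_finset]
    intro s hs
    rw [eventually_all_finset]
    intro t ht
    by_cases hst : s = t
    · exact Eventually.of_forall fun _ h => (h hst).elim
    · exact (Sm_diag (hD _ (hF3 s hs t ht hst))).mono fun _ h _ => h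
  obtain ⟨Z, hZ, hZ'⟩ := eventually_Sm1.1 (h1.and h2)
  obtain ⟨z, hz1, hz2⟩ := hv Z hZ
  obtain ⟨⟨k1, k2⟩, k3⟩ := hZ' z hz2
  have hpos : 0 < ‖a z‖ := by linarith
  refine ⟨((‖a z‖⁻¹ : ℝ) : ℂ) • a z, F, ?_, hF1, hF2, fun h hh => ?_, fun s hs t ht hst => ?_⟩
  · rw [norm_smul, Complex.norm_real, norm_inv, norm_norm, inv_mul_cancel₀ hpos.ne']
  · rw [map_smul, ← smul_sub, norm_smul, Complex.norm_real, norm_inv, norm_norm,
      inv_mul_le_iff₀ hpos, mul_comm]
    exact k2 h hh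
  · rw [map_smul, inner_smul_left, inner_smul_right, k3 s hs t ht hst, mul_zero, mul_zero]

end Pool.Agent.Work.MP_129c4a_an.N
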