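import Pool.Agent.Work.MP_129c4a_an.Defs
import Mathlib.Data.ENat.Lattice

/-!
The nilpotency index of the Jacobson radical.
-/

namespace Pool.Agent.Work.MP_129c4a_an.N

universe v

/-- The nilpotency index of the radical: the least `n ≥ 1` such that every product of `n` elements
of the radical is zero, and `⊤` if there is no such `n`. -/
noncomputable def radIndex (B : Type v) [NonUnitalRing B] [Module ℂ B] [IsScalarTower ℂ B B]
    [SMulCommClass ℂ B B] : ℕ∞ :=
  sInf {n : ℕ∞ | ∃ k : ℕ, n = k + 1 ∧ ∀ x ∈ rad B, ∀ l : List B, l.length = k →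
    (∀ y ∈ l, y ∈ rad B) → l.foldr (· * ·) x = 0}

end Pool.Agent.Work.MP_129c4a_an.N
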