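import Pool.Agent.Work.MP_129c4a_an.N.Small

/-!
An element `a` of the group algebra of trace norm one together with an effect `q` of small trace
that almost fixes the range of finitely many translates of `a` on small vectors.
-/

namespace Pool.Agent.Work.MP_129c4a_an.N

open Filter Topology
open scoped InnerProductSpace Pointwise

universe u v

variable {G : Type u} [Group G] {H : Type v} [NormedAddCommGroup H] [InnerProductSpace ℂ H]

theorem effect_step {g : H →L[ℂ] H} (hg : IsEffect g) (y : H) :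
    (⟪g (y - g y), y - g y⟫_ℂ).re ≤ (⟪g y, y⟫_ℂ).re ∧
    ‖y - g y‖ ^ 2 ≤ ‖y‖ ^ 2 - (⟪g y, y⟫_ℂ).re ∧
    ‖y‖ ^ 2 - 2 * (⟪g y, y⟫_ℂ).re ≤ ‖y - g y‖ ^ 2 := by
  have h1 := hg.2 y
  have h2 := norm_sub_sq (𝕜 := ℂ) y (g y)
  have h3 : RCLike.re ⟪y, g y⟫_ℂ = (⟪g y, y⟫_ℂ).re := by
    rw [hg.1]
    rfl
  rw [h3] at h2
  refine ⟨?_, by linarith, by nlinarith [sq_nonneg ‖g y‖]⟩
  have h4 : (⟪g (g y), g y⟫_ℂ).re ≤ ‖g y‖ ^ 2 := by
    refine (Complex.re_le_norm _).trans ((norm_inner_le_norm _ _).trans ?_)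
    rw [sq]
    exact mul_le_mul_of_nonneg_right (hg.norm_le _) (norm_nonneg _)
  rw [map_sub, inner_sub_left, inner_sub_right, inner_sub_right, hg.1 (g y) y]
  simp only [Complex.sub_re, re_inner_self]
  linarith [sq_nonneg ‖g y‖]

theorem effect_iter {g : H →L[ℂ] H} (hg : IsEffect g) (x : H) (n : ℕ) :
    (n : ℝ) * (⟪g (((1 - g) ^ n) x), ((1 - g) ^ n) x⟫_ℂ).re + ‖((1 - g) ^ n) x‖ ^ 2 ≤ ‖x‖ ^ 2 ∧
    (⟪g (((1 - g) ^ n) x), ((1 - g) ^ n) x⟫_ℂ).re ≤ (⟪g x, x⟫_ℂ).re ∧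
    ‖x‖ ^ 2 - 2 * n * (⟪g x, x⟫_ℂ).re ≤ ‖((1 - g) ^ n) x‖ ^ 2 := by
  induction n with
  | zero => simp
  | succ n ih =>
    obtain ⟨h1, h2, h3⟩ := ih
    have e : ((1 - g) ^ (n + 1)) x = ((1 - g) ^ n) x - g (((1 - g) ^ n) x) := by
      rw [pow_succ']
      rfl
    obtain ⟨h4, h5, h6⟩ := effect_step hg (((1 - g) ^ n) x)
    rw [e, Nat.cast_succ]
    have hn : (0 : ℝ) ≤ n := n.cast_nonneg
    refine ⟨by clear * - n H g x h1 h4 h5 h2; nlinarith, h4.trans h2, by linarith⟩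

theorem pow_symm {P : H →L[ℂ] H} (hP : ∀ x y, ⟪P x, y⟫_ℂ = ⟪x, P y⟫_ℂ) (n : ℕ) (x y : H) :
    ⟪(P ^ n) x, y⟫_ℂ = ⟪x, (P ^ n) y⟫_ℂ := by
  induction n generalizing x y with
  | zero => simp
  | succ n ih =>
    conv_lhs => rw [pow_succ']
    rw [pow_succ, mul_apply_eq_comp, mul_apply_eq_comp, hP, ih]

theorem pow_contr {P : H →L[ℂ] H} (hP : Contr P) (n : ℕ) : Contr (P ^ n) := by
  induction n with
  | zero => rw [pow_zero]; exact contr_one
  | succ n ih => rw [pow_succ]; exact ih.mul hP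

theorem exists_filter {g : H →L[ℂ] H} (hg : IsEffect g) (n : ℕ) :
    IsEffect (1 - (1 - g) ^ n * (1 - g) ^ n) ∧
    (∀ x, ‖(1 - (1 - g) ^ n * (1 - g) ^ n) x‖ ^ 2 ≤ 2 * n * (⟪g x, x⟫_ℂ).re) ∧
    ∀ x, ∃ y, ‖(1 - (1 - g) ^ n * (1 - g) ^ n) x - x‖ ^ 2 ≤ (⟪y, x⟫_ℂ).re ∧
      2 * n * (⟪g y, y⟫_ℂ).re ≤ ‖x‖ ^ 2 := by
  have hs := pow_symm hg.one_sub.1 n
  have hc : Contr ((1 - g) ^ n) := pow_contr hg.one_sub.norm_le n
  have hE : IsEffect (1 - (1 - g) ^ n * (1 - g) ^ n) := (isEffect_of_pair hs hc).one_sub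
  refine ⟨hE, fun x => (hE.2 x).trans ?_, fun x => ⟨((1 - g) ^ (n + n)) x, ?_, ?_⟩⟩
  · have := (effect_iter hg x n).2.2
    change (⟪x - ((1 - g) ^ n) (((1 - g) ^ n) x), x⟫_ℂ).re ≤ _
    rw [inner_sub_left, hs, Complex.sub_re, re_inner_self, re_inner_self]
    linarith
  · change ‖x - ((1 - g) ^ n) (((1 - g) ^ n) x) - x‖ ^ 2 ≤ _
    rw [sub_sub_cancel_left, norm_neg, pow_add, mul_apply_eq_comp, hs, re_inner_self]
    exact pow_le_pow_left₀ (norm_nonneg _) (hc _) 2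
  · have := (effect_iter hg x (n + n)).1
    rw [Nat.cast_add] at this
    nlinarith [sq_nonneg ‖((1 - g) ^ (n + n)) x‖]

theorem level_arith {ε r β γ z k ρ : ℝ} {p : ℕ} (hε : 0 < ε) (hr : 0 ≤ r) (hβ : 0 ≤ β) (hγ : 0 ≤ γ)
    (hp : 2 * k / ε ^ 6 ≤ p) (hρ : (p + 1) / 2 * 4 ^ p ≤ ρ) (hr2 : r ^ 2 * ρ = 1)
    (hz1 : γ ^ 2 = 2 ^ p * z ^ 2) (a2 : β ^ 2 * ε ^ 2 ≤ k * 2 ^ p * z ^ 2) :
    β * (r * γ) ≤ (ε * z) ^ 2 := by
  have a5 : k * 4 ^ p ≤ ε ^ 6 * ρ := by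
    clear * - p ε hε k ρ hρ hp
    rw [div_le_iff₀ (by positivity)] at hp
    have a6 : (0 : ℝ) < 4 ^ p := by positivity
    have a7 : (0 : ℝ) < ε ^ 6 := by positivity
    nlinarith [mul_le_mul_of_nonneg_left hρ a7.le, mul_le_mul_of_nonneg_right hp a6.le,
      mul_pos a6 a7]
  have a8 : (β * (r * γ)) ^ 2 ≤ ((ε * z) ^ 2) ^ 2 := by
    have a9 : (4 : ℝ) ^ p = 2 ^ p * 2 ^ p := by
      rw [← mul_pow]
      norm_num
    have a10 : k * 4 ^ p * r ^ 2 ≤ ε ^ 6 := by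
      refine (mul_le_mul_of_nonneg_right a5 (sq_nonneg r)).trans_eq ?_
      rw [mul_assoc, mul_comm ρ, hr2, mul_one]
    rw [mul_pow, mul_pow, hz1]
    refine le_of_mul_le_mul_right ?_ (sq_pos_of_pos hε)
    have a11 := mul_le_mul_of_nonneg_right a2 (show 0 ≤ r ^ 2 * (2 ^ p * z ^ 2) by positivity)
    have a12 := mul_le_mul_of_nonneg_right a10 (show 0 ≤ z ^ 4 by positivity)
    rw [a9] at a12
    clear * - β r p z ε k a11 a12
    nlinarith
  exact (pow_le_pow_iff_left₀ (by positivity) (by positivity) two_ne_zero).1 a8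

variable [TopologicalSpace G] [IsTopologicalGroup G] [T1Space G] {U : G →* (H →L[ℂ] H)}

theorem exists_big (hnd : ¬ DiscreteTopology G) (hU : IsUnitaryRep U) (p : ℕ) :
    ∀ W ∈ 𝓝 (1 : G), ∃ (b b' d : H →L[ℂ] H) (ρ : ℝ), b ∈ PosW U Set.univ ∧ b' ∈ PosW U Set.univ ∧
      (∀ x y, ⟪b x, y⟫_ℂ = ⟪x, b' y⟫_ℂ) ∧ b * b' ∈ PosW U W ∧ d ∈ PosW U Set.univ ∧
      b * b' = ((2 ^ p : ℕ) : H →L[ℂ] H) + d ∧ HasTau U (b * b') (2 ^ p) ∧
      (p + 1) / 2 * 4 ^ p ≤ ρ ∧ HasTau U (b * b' * (b * b')) ρ := by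
  have h1 : (1 : H →L[ℂ] H) ∈ PosW U Set.univ := one_mem_posW (Set.mem_univ _)
  induction p with
  | zero =>
    intro W hW
    refine ⟨1, 1, 0, 1, h1, h1, fun _ _ => rfl, ?_, zero_mem _, by simp, ?_, by norm_num, ?_⟩
    · rw [mul_one]
      exact one_mem_posW (mem_of_mem_nhds hW)
    · simpa using hasTau_one
    · simpa using hasTau_one
  | succ p ih =>
    intro W hW
    obtain ⟨V, hV, hVW⟩ := exists_nhds_one_split4 hW
    have hV1 : (1 : G) ∈ V := mem_of_mem_nhds hV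
    obtain ⟨b, b', d, ρ, hb, hb', hadj, hcV, hd, hcd, hτ, hρ, hτ2⟩ := ih V hV
    set c := b * b' with hc_def
    have hc : c ∈ PosW U Set.univ := mul_mem_pos hb hb'
    obtain ⟨D, hD⟩ := exists_generic_tau hU (posW_span hc)
    classical
    obtain ⟨g, hgV, hgD⟩ := (infinite_of_nhds hnd (inter_mem hV (inv_mem_nhds_one G hV))
      ).exists_notMem_finset (D ∪ D.image fun t => t⁻¹)
    have hg1 : g ∉ D := fun hh => hgD (Finset.mem_union_left _ hh)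
    have hg2 : g⁻¹ ∉ D := fun hh =>
      hgD (Finset.mem_union_right _ (Finset.mem_image.2 ⟨_, hh, inv_inv g⟩))
    set R := U g with hR
    set R' := U g⁻¹ with hR'
    have hRR : R * R' = 1 := by rw [hR, hR', ← U.map_mul, mul_inv_cancel, U.map_one]
    have hRR' : R' * R = 1 := by rw [hR, hR', ← U.map_mul, inv_mul_cancel, U.map_one]
    have hRp : R ∈ PosW U Set.univ := rep_mem_posW (Set.mem_univ _)
    have hRp' : R' ∈ PosW U Set.univ := rep_mem_posW (Set.mem_univ _)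
    set ν : H →L[ℂ] H := ((2 ^ p : ℕ) : H →L[ℂ] H) with hν
    have hνp : ν ∈ PosW U Set.univ := by
      rw [hν, ← nsmul_one]
      exact nsmul_mem h1 _
    set e := R * d * R' with he
    have hep : e ∈ PosW U Set.univ := mul_mem_pos (mul_mem_pos hRp hd) hRp'
    have hce : R * c * R' = ν + e := by
      rw [hcd, mul_add, add_mul, ← (Nat.cast_commute (2 ^ p) R).eq, mul_assoc, hRR, mul_one]
    have e0 : (1 + R) * b * (b' * (1 + R')) = (1 + R) * c * (1 + R') := by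
      rw [hc_def]
      noncomm_ring
    have e1 : (1 + R) * c * (1 + R') = c + R * c + c * R' + R * c * R' := by noncomm_ring
    have e2 : (1 + R') * (1 + R) = 1 + 1 + R + R' := by
      rw [add_mul, mul_add, mul_add, hRR']
      noncomm_ring
    set R0 := c * R * c + c * R' * c + R * (c * R * c + c * R' * c) * R' + R * c * c + R * c * c +
      R * c * R * c + c * c * R' + c * c * R' + c * R' * c * R' with hR0
    set R1 := ν * d + e * ν + e * d + (ν * e + d * ν + d * e) with hR1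
    have e3 : (1 + R) * c * (1 + R') * ((1 + R) * c * (1 + R')) =
        c * c + c * c + R * (c * c) * R' + R * (c * c) * R' + ν * ν + ν * ν + (R0 + R1) := by
      clear * - H R c R' ν R1 e hce d hR1 hcd G U p g R0 hR0 b b' e2
      have e4 : (1 + R) * c * (1 + R') * ((1 + R) * c * (1 + R')) =
          (1 + R) * c * ((1 + R') * (1 + R)) * c * (1 + R') := by noncomm_ring
      have e5 : (R * c * R') * c + c * (R * c * R') = ν * ν + ν * ν + R1 := by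
        rw [hce, hR1]
        conv_lhs => rw [hcd]
        noncomm_ring
      have e6 : (1 + R) * c * (1 + 1 + R + R') * c * (1 + R') =
          c * c + c * c + R * (c * c) * R' + R * (c * c) * R' +
            ((R * c * R') * c + c * (R * c * R')) + R0 := by
        rw [hR0]
        noncomm_ring
      rw [e4, e2, e6, e5]
      abel
    have hR0p : R0 + R1 ∈ PosW U Set.univ := by
      have x1 := mul_mem_pos (mul_mem_pos hc hRp) hc
      have x2 := mul_mem_pos (mul_mem_pos hc hRp') hc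
      have x3 := mul_mem_pos (mul_mem_pos hRp hc) hc
      have x4 := mul_mem_pos (mul_mem_pos hc hc) hRp'
      exact add_mem (add_mem (add_mem (add_mem (add_mem (add_mem (add_mem (add_mem
        (add_mem x1 x2) (mul_mem_pos (mul_mem_pos hRp (add_mem x1 x2)) hRp')) x3) x3)
        (mul_mem_pos (mul_mem_pos (mul_mem_pos hRp hc) hRp) hc)) x4) x4) (mul_mem_pos x2 hRp'))
        (add_mem (add_mem (add_mem (mul_mem_pos hνp hd) (mul_mem_pos hep hνp)) (mul_mem_pos hep hd))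
        (add_mem (add_mem (mul_mem_pos hνp hep) (mul_mem_pos hd hνp)) (mul_mem_pos hd hep)))
    obtain ⟨τ0, hτ0, hτ0'⟩ := exists_tau_pos hR0p
    have hνν : HasTau U (ν * ν) (4 ^ p) := by
      have : ν * ν = (((4 : ℝ) ^ p : ℝ) : ℂ) • (1 : H →L[ℂ] H) := by
        rw [hν, ← Nat.cast_mul, ← mul_pow, ← nsmul_one, ← Nat.cast_smul_eq_nsmul ℂ]
        push_cast
        rfl
      rw [this]
      simpa using hasTau_one.smul (U := U) ((4 : ℝ) ^ p)
    refine ⟨(1 + R) * b, b' * (1 + R'), d + e + R * c + c * R', ρ + ρ + ρ + ρ + 4 ^ p + 4 ^ p + τ0,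
      mul_mem_pos (add_mem h1 hRp) hb, mul_mem_pos hb' (add_mem h1 hRp'), fun x y => ?_, ?_,
      add_mem (add_mem (add_mem hd hep) (mul_mem_pos hRp hc)) (mul_mem_pos hc hRp'), ?_, ?_, ?_, ?_⟩
    · change ⟪b x + R (b x), y⟫_ℂ = ⟪x, b' (y + R' y)⟫_ℂ
      rw [← hadj, inner_add_left, inner_add_right, hU.inner_left]
    · rw [e0]
      refine mul_mem_posW (W₁ := V * V) (W₂ := V) ?_
        (mul_mem_posW (fun a ha b hb => Set.mul_mem_mul ha hb)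
          (add_mem (one_mem_posW hV1) (rep_mem_posW hgV.1)) hcV)
        (add_mem (one_mem_posW hV1) (rep_mem_posW hgV.2))
      rintro _ ⟨a, ha, b, hb, rfl⟩ s hs
      simpa using hVW ha hb hs hV1
    · rw [e0, e1, hce, pow_succ, Nat.cast_mul, ← hν]
      conv_lhs => enter [1, 1, 1]; rw [hcd]
      push_cast
      noncomm_ring
    · rw [e0, e1]
      have a1 : HasTau U (c * R') 0 := by
        have := (hD _ hg2).conj hU g
        rwa [← mul_assoc, hRR, one_mul] at this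
      have := ((hτ.add (hD g hg1)).add a1).add (hτ.conj hU g)
      rwa [add_zero, add_zero, ← mul_two, ← pow_succ] at this
    · push_cast
      rw [pow_succ]
      clear * - p ρ τ0 hρ hτ0
      nlinarith
    · rw [e0, e3]
      exact (((((hτ2.add hτ2).add (hτ2.conj hU g)).add (hτ2.conj hU g)).add hνν).add hνν).add hτ0'

theorem exists_level (hnd : ¬ DiscreteTopology G) (hU : IsUnitaryRep U) (S : Finset G) {ε : ℝ}
    (hε : 0 < ε) {N : Set G} (hN : N ∈ 𝓝 (1 : G)) :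
    ∃ a q : H →L[ℂ] H, a ∈ spanRep U ∧ q ∈ spanRep U ∧ IsEffect q ∧
      (∀ᶠ p in Sm U, Lives U N (a p.1) (a p.2) ∧ ⟪a p.2, a p.1⟫_ℂ = ⟪p.2, p.1⟫_ℂ) ∧
      (∀ᶠ z in Sm1 U, ‖q z‖ ≤ ε * ‖z‖) ∧
      ∀ᶠ z in Sm1 U, ∀ t ∈ S, ‖q (U t (a z)) - U t (a z)‖ ≤ ε * ‖z‖ := by
  classical
  obtain ⟨V, hV, hVN⟩ := exists_nhds_one_split4 hN
  have hV1 : (1 : G) ∈ V := mem_of_mem_nhds hV
  obtain ⟨p, hp⟩ := exists_nat_ge (2 * (S.card + 1) / ε ^ 6)
  obtain ⟨b, b', d, ρ, hb, hb', hadj, hcV, -, -, hτ, hρ, hτ2⟩ :=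
    exists_big hnd hU p _ (inter_mem hV (inv_mem_nhds_one G hV))
  have hadj' : ∀ x y, ⟪b' x, y⟫_ℂ = ⟪x, b y⟫_ℂ := fun x y => by
    rw [← inner_conj_symm, ← hadj, inner_conj_symm]
  set c := b * b' with hc_def
  have hcs : ∀ x y, ⟪c x, y⟫_ℂ = ⟪x, c y⟫_ℂ := fun x y => by
    rw [hc_def, mul_apply_eq_comp, mul_apply_eq_comp, hadj, hadj']
  have hρ0 : 0 < ρ := lt_of_lt_of_le
    (mul_pos (div_pos (Nat.cast_add_one_pos p) two_pos) (pow_pos four_pos p)) hρ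
  set r : ℝ := (√ρ)⁻¹ with hr
  have hr0 : 0 < r := inv_pos.2 (Real.sqrt_pos.2 hρ0)
  have hr2 : r ^ 2 * ρ = 1 := by
    rw [hr, inv_pow, Real.sq_sqrt hρ0.le, inv_mul_cancel₀ hρ0.ne']
  set k : ℝ := S.card + 1 with hk
  have hk0 : 0 < k := Nat.cast_add_one_pos _
  obtain ⟨n, hn⟩ := exists_nat_gt (‖b‖ ^ 2 * ε ^ 2)
  have hn0 : (0 : ℝ) < n := lt_of_le_of_lt (mul_nonneg (sq_nonneg _) (sq_nonneg _)) hn
  set Λ : ℝ := 2 * n * k * 2 ^ p / ε ^ 2 with hΛ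
  have hΛ0 : 0 < Λ :=
    div_pos (mul_pos (mul_pos (mul_pos two_pos hn0) hk0) (pow_pos two_pos p)) (pow_pos hε 2)
  have h2p : (1 : ℝ) ≤ 2 ^ p := one_le_pow₀ (by norm_num)
  have hΛ1 : ‖b‖ ^ 2 * k ≤ Λ := by
    rw [hΛ, le_div_iff₀ (pow_pos hε 2)]
    have a1 := mul_le_mul_of_nonneg_left h2p (mul_pos hn0 hk0).le
    have a2 := mul_pos hn0 hk0
    have a3 := mul_le_mul_of_nonneg_right hn.le hk0.le
    linarith
  set g : H →L[ℂ] H := ((Λ⁻¹ : ℝ) : ℂ) • ∑ t ∈ S, U t * c * U t⁻¹ with hg_def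
  have hgx : ∀ x, g x = ((Λ⁻¹ : ℝ) : ℂ) • ∑ t ∈ S, U t (b (b' (U t⁻¹ x))) := fun x => by
    rw [hg_def, smul_apply, sum_apply]
    rfl
  have hgi : ∀ x y, ⟪g x, y⟫_ℂ = ((Λ⁻¹ : ℝ) : ℂ) * ∑ t ∈ S, ⟪b' (U t⁻¹ x), b' (U t⁻¹ y)⟫_ℂ := by
    intro x y
    rw [hgx, inner_smul_left, Complex.conj_ofReal, sum_inner]
    congr 1
    exact Finset.sum_congr rfl fun t _ => by rw [hU.inner_left, hadj]
  have hgre : ∀ x, (⟪g x, x⟫_ℂ).re = Λ⁻¹ * ∑ t ∈ S, ‖b' (U t⁻¹ x)‖ ^ 2 := fun x => by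
    rw [hgi, Complex.re_ofReal_mul, Complex.re_sum]
    simp only [re_inner_self]
  have hg : IsEffect g := by
    clear * - H g Λ G S b' U hgi b hgx hΛ0 hU hgre k hk hΛ1 n ε p
    refine ⟨fun x y => ?_, fun x => ?_⟩
    · rw [← inner_conj_symm x, hgi, hgi, map_mul, Complex.conj_ofReal, map_sum]
      simp only [inner_conj_symm]
    · have a1 : ‖g x‖ ≤ Λ⁻¹ * (‖b‖ * ∑ t ∈ S, ‖b' (U t⁻¹ x)‖) := by
        rw [hgx, norm_smul, Complex.norm_real, Real.norm_of_nonneg (inv_pos.2 hΛ0).le,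
          Finset.mul_sum]
        refine mul_le_mul_of_nonneg_left ((norm_sum_le _ _).trans
          (Finset.sum_le_sum fun t _ => ?_)) (inv_pos.2 hΛ0).le
        rw [hU.norm]
        exact b.le_opNorm _
      have a2 := sq_sum_le_card_mul_sum_sq (s := S) (f := fun t => ‖b' (U t⁻¹ x)‖)
      set T := ∑ t ∈ S, ‖b' (U t⁻¹ x)‖ ^ 2 with hT
      have hT0 : 0 ≤ T := Finset.sum_nonneg fun _ _ => sq_nonneg _
      rw [hgre, ← hT]
      refine (pow_le_pow_left₀ (norm_nonneg _) a1 2).trans ?_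
      rw [mul_pow, mul_pow, sq Λ⁻¹, mul_assoc]
      refine mul_le_mul_of_nonneg_left ?_ (inv_pos.2 hΛ0).le
      rw [inv_mul_le_iff₀ hΛ0]
      have a3 : (∑ t ∈ S, ‖b' (U t⁻¹ x)‖) ^ 2 ≤ k * T := by
        refine a2.trans (mul_le_mul_of_nonneg_right ?_ hT0)
        rw [hk]
        linarith
      have a4 := mul_le_mul_of_nonneg_left a3 (sq_nonneg ‖b‖)
      have a5 := mul_le_mul_of_nonneg_right hΛ1 hT0
      linarith
  have hgm : g ∈ spanRep U := Submodule.smul_mem _ _ (Submodule.sum_mem _ fun t _ =>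
    mul_mem_spanRep U (mul_mem_spanRep U (rep_mem U _) (posW_span hcV)) (rep_mem U _))
  obtain ⟨hq, hkill, hfix⟩ := exists_filter hg n
  have hP := pow_mem_spanRep U (Submodule.sub_mem _ (one_mem_spanRep U) hgm) n
  have hb'n : ∀ᶠ z in Sm1 U, ‖b' z‖ ^ 2 = 2 ^ p * ‖z‖ ^ 2 := hτ.norm_sq hadj'
  have hcn : ∀ᶠ z in Sm1 U, ‖c z‖ ^ 2 = ρ * ‖z‖ ^ 2 := hτ2.norm_sq hcs
  refine ⟨(r : ℂ) • c, 1 - (1 - g) ^ n * (1 - g) ^ n, Submodule.smul_mem _ _ (posW_span hcV),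
    Submodule.sub_mem _ (one_mem_spanRep U) (mul_mem_spanRep U hP hP), hq, ?_, ?_, ?_⟩
  · filter_upwards [eventually_lives hV, hτ2] with x hx1 hx2
    refine ⟨(hx1.posW hU (fun t ht z hz s hs => ?_) hcV hcV).smul _ _, ?_⟩
    · simpa using hVN ht.1 hz hs.2 hV1
    · rw [smul_apply, smul_apply, inner_smul_left, inner_smul_right, hcs, Complex.conj_ofReal]
      change _ * (_ * ⟪x.2, (c * c) x.1⟫_ℂ) = _
      rw [hx2, ← mul_assoc, ← mul_assoc, ← Complex.ofReal_mul, ← Complex.ofReal_mul, ← sq, hr2]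
      simp
  · have : ∀ᶠ z in Sm1 U, ∀ t ∈ S, ‖b' (U t⁻¹ z)‖ ^ 2 = 2 ^ p * ‖U t⁻¹ z‖ ^ 2 := by
      rw [eventually_all_finset]
      exact fun t _ => (tendsto_rep1 hU t⁻¹).eventually hb'n
    filter_upwards [this] with z hz
    refine (pow_le_pow_iff_left₀ (norm_nonneg _) (mul_nonneg hε.le (norm_nonneg _)) two_ne_zero).1
      ((hkill z).trans ?_)
    rw [hgre, Finset.sum_congr rfl fun t ht => (hz t ht).trans (by rw [hU.norm]), Finset.sum_const,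
      nsmul_eq_mul, hΛ]
    have a1 : (S.card : ℝ) ≤ k := by
      rw [hk]
      linarith
    field_simp
    exact mul_le_mul_of_nonneg_right a1 (sq_nonneg _)
  · filter_upwards [hb'n, hcn] with z hz1 hz2 t ht
    set x := U t (((r : ℂ) • c) z) with hx
    have hxn : ‖x‖ ^ 2 = ‖z‖ ^ 2 := by
      rw [hx, hU.norm, smul_apply, norm_smul, Complex.norm_real, Real.norm_of_nonneg hr0.le,
        mul_pow, hz2, ← mul_assoc, hr2, one_mul]
    obtain ⟨y, hy1, hy2⟩ := hfix x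
    have a1 : (⟪y, x⟫_ℂ).re ≤ ‖b' (U t⁻¹ y)‖ * (r * ‖b' z‖) := by
      have : ⟪y, x⟫_ℂ = ⟪b' (U t⁻¹ y), (r : ℂ) • b' z⟫_ℂ := by
        rw [hadj', hU.inner_left, inv_inv, map_smul]
        rfl
      rw [this]
      refine (Complex.re_le_norm _).trans ((norm_inner_le_norm _ _).trans_eq ?_)
      rw [norm_smul, Complex.norm_real, Real.norm_of_nonneg hr0.le]
    have a2 : ‖b' (U t⁻¹ y)‖ ^ 2 * ε ^ 2 ≤ k * 2 ^ p * ‖z‖ ^ 2 := by
      clear * - H b' G U t y S ht n k p ε hn0 hε hk0 z h2p Λ hΛ x hxn g hgre hy2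
      have a3 : ‖b' (U t⁻¹ y)‖ ^ 2 ≤ ∑ t ∈ S, ‖b' (U t⁻¹ y)‖ ^ 2 :=
        Finset.single_le_sum (f := fun t => ‖b' (U t⁻¹ y)‖ ^ 2) (fun _ _ => sq_nonneg _) ht
      rw [hgre, hxn, hΛ] at hy2
      have a4 : 2 * n * ((2 * n * k * 2 ^ p / ε ^ 2)⁻¹ * ∑ t ∈ S, ‖b' (U t⁻¹ y)‖ ^ 2) =
          (∑ t ∈ S, ‖b' (U t⁻¹ y)‖ ^ 2) * ε ^ 2 / (k * 2 ^ p) := by
        field_simp
      rw [a4, div_le_iff₀ (mul_pos hk0 (zero_lt_one.trans_le h2p))] at hy2
      exact (mul_le_mul_of_nonneg_right a3 (sq_nonneg ε)).trans (hy2.trans_eq (mul_comm _ _))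
    have a13 := level_arith hε hr0.le (norm_nonneg _) (norm_nonneg _) hp hρ hr2 hz1 a2
    exact (pow_le_pow_iff_left₀ (norm_nonneg _) (mul_nonneg hε.le (norm_nonneg _)) two_ne_zero).1
      (hy1.trans (a1.trans a13))

end Pool.Agent.Work.MP_129c4a_an.N
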