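import Pool.Agent.Work.MP_129c4a_an.N.Step

/-!
The sequence of stages and the test operators.
-/

namespace Pool.Agent.Work.MP_129c4a_an.N

open Filter Topology
open scoped InnerProductSpace

universe u v

variable {G : Type u} [Group G] {H : Type v} [NormedAddCommGroup H] [InnerProductSpace ℂ H]

/-- the product `a j * ... * a (m - 1)` -/
noncomputable def tl (a : ℕ → H →L[ℂ] H) (j : ℕ) : ℕ → H →L[ℂ] H
  | 0 => 1
  | m + 1 => if j ≤ m then tl a j m * a m else 1

theorem tl_self (a : ℕ → H →L[ℂ] H) (j : ℕ) : tl a j j = 1 := by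
  cases j with
  | zero => rfl
  | succ j => simp [tl]

theorem tl_succ (a : ℕ → H →L[ℂ] H) {j m : ℕ} (h : j ≤ m) : tl a j (m + 1) = tl a j m * a m := by
  simp [tl, h]

theorem tl_mul (a : ℕ → H →L[ℂ] H) {j i m : ℕ} (hji : j ≤ i) (him : i ≤ m) :
    tl a j i * tl a i m = tl a j m := by
  induction m, him using Nat.le_induction with
  | base => rw [tl_self, mul_one]
  | succ m him ih => rw [tl_succ a him, tl_succ a (hji.trans him), ← mul_assoc, ih]

theorem tl_split (a : ℕ → H →L[ℂ] H) {j i m : ℕ} (hji : j ≤ i) (him : i < m) :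
    tl a j m = tl a j i * a i * tl a (i + 1) m := by
  rw [← tl_succ a hji, tl_mul a (by omega) him]

variable [TopologicalSpace G] {U : G →* (H →L[ℂ] H)}

variable (U) in
/-- a sequence of stages -/
structure Sys (ω : ℝ) (I : ℕ → Inp G H) (O : ℕ → Out G H) : Prop where
  pos : 0 < ω
  start : (I 0).A U = 1
  good : ∀ i, (I i).Good U
  spec : ∀ i, Spec U (ω / 2 ^ i) (I i) (O i)
  next : ∀ i, I (i + 1) = (I i).next U (O i)

theorem exists_sys [IsTopologicalGroup G] [T1Space G] (hnd : ¬ DiscreteTopology G)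
    (hU : IsUnitaryRep U) (hc : ∀ ξ, Continuous fun s => U s ξ) (hpl : HasPlateau U) {ω : ℝ}
    (hω : 0 < ω) : ∃ I O, Sys U ω I O := by
  have h : ∀ (i : ℕ) (I : {I : Inp G H // I.Good U}), ∃ O, Spec U (ω / 2 ^ i) I.1 O :=
    fun i I => exists_stage hnd hU hc hpl (by positivity) I.1 I.2
  choose f hf using h
  let I0 : {I : Inp G H // I.Good U} := ⟨⟨{1}, fun _ => 1, {U 1}, ∅, Set.univ⟩,
    Set.finite_singleton _, by rintro _ rfl; exact rep_mem U 1, by simp, Set.finite_empty,
    univ_mem⟩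
  let I : ℕ → {I : Inp G H // I.Good U} := fun n =>
    Nat.rec I0 (fun i J => ⟨J.1.next U (f i J), (hf i J).good J.2⟩) n
  exact ⟨fun i => (I i).1, fun i => f i (I i), hω, by simp [I, I0, Inp.A], fun i => (I i).2,
    fun i => hf i (I i), fun i => rfl⟩

/-- the parity of `j` as a scalar -/
noncomputable def sg (j : ℕ) : ℂ := if Even j then 1 else 0

theorem norm_sg (j : ℕ) : ‖sg j‖ ≤ 1 := by
  unfold sg
  split_ifs <;> simp

theorem contr_sg (j : ℕ) : Contr (sg j • (1 : H →L[ℂ] H)) := fun x => by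
  rw [smul_apply, norm_smul]
  exact mul_le_of_le_one_left (norm_nonneg _) (norm_sg j)

/-- the inner test operators -/
noncomputable def opR (O : ℕ → Out G H) : ℕ → H →L[ℂ] H :=
  chain (fun i => (O i).q) fun i => sg i • 1

/-- the test operators -/
noncomputable def opT (O : ℕ → Out G H) : ℕ → H →L[ℂ] H :=
  chain (fun i => (O i).L) fun i => sg i • opR O i

namespace Sys

variable {ω : ℝ} {I : ℕ → Inp G H} {O : ℕ → Out G H} (h : Sys U ω I O)
include h

theorem A_eq {j m : ℕ} (hjm : j ≤ m) : (I m).A U = (I j).A U * tl (fun i => (O i).a) j m := by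
  induction m, hjm using Nat.le_induction with
  | base => rw [tl_self, mul_one]
  | succ m hjm ih =>
    rw [tl_succ _ hjm, ← mul_assoc, ← ih, (h.spec m).A_next, h.next]
    rfl

theorem A_eq_tl (m : ℕ) : (I m).A U = tl (fun i => (O i).a) 0 m := by
  rw [h.A_eq (Nat.zero_le m), h.start, one_mul]

theorem mem_B {j m : ℕ} (hjm : j ≤ m) {s : G} (hs : s ∈ (I j).S) :
    U s * tl (fun i => (O i).a) j m ∈ (I m).𝔅 := by
  induction m, hjm using Nat.le_induction with
  | base => rw [tl_self, mul_one]; exact (h.good j).rep s hs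
  | succ m hjm ih =>
    rw [tl_succ _ hjm, ← mul_assoc, h.next]
    exact Or.inl ⟨_, ih, rfl⟩

theorem M_succ (m : ℕ) : (I (m + 1)).M = (O m).M := by
  rw [h.next]
  rfl

theorem M_anti {j m : ℕ} (hjm : j ≤ m) : (I m).M ⊆ (I j).M := by
  induction m, hjm using Nat.le_induction with
  | base => exact subset_rfl
  | succ m hjm ih =>
    rw [h.M_succ]
    exact ((h.spec m).M_sub.trans (h.spec m).N_sub).trans ih

theorem M_sub_W {j m : ℕ} (hjm : j < m) : (I m).M ⊆ (O j).W :=
  (h.M_anti hjm).trans (by rw [h.M_succ]; exact (h.spec j).M_sub)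

theorem pair_a {m : ℕ} {x y : H} (hp : Pair U (I (m + 1)).M x y) :
    Pair U (O m).W ((O m).a x) ((O m).a y) := by
  rw [h.M_succ] at hp
  exact hp.map (h.spec m).a_map

theorem pair_tl {j m : ℕ} (hjm : j ≤ m) {x y : H} (hp : Pair U (I m).M x y) :
    Pair U (I j).M (tl (fun i => (O i).a) j m x) (tl (fun i => (O i).a) j m y) := by
  induction m, hjm using Nat.le_induction generalizing x y with
  | base => rw [tl_self]; exact hp
  | succ m hjm ih =>
    rw [tl_succ _ hjm]
    exact ih ((h.pair_a hp).mono (h.spec m).N_sub)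

theorem pair_tl' {j m : ℕ} (hjm : j < m) {x y : H} (hp : Pair U (I m).M x y) :
    Pair U (O j).W (tl (fun i => (O i).a) j m x) (tl (fun i => (O i).a) j m y) := by
  rw [tl_split _ le_rfl hjm, tl_self, one_mul]
  exact h.pair_a (h.pair_tl hjm hp)

theorem X_mono {j m : ℕ} (hjm : j ≤ m) : (I j).X ⊆ (I m).X := by
  induction m, hjm using Nat.le_induction with
  | base => exact subset_rfl
  | succ m hjm ih =>
    rw [h.next]
    exact fun x hx => Or.inl (Or.inl (ih hx))

theorem mem_X {m i : ℕ} (hmi : m < i) {B : H →L[ℂ] H} (hB : B ∈ (I m).𝔅) :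
    B (O m).α ∈ (I i).X ∧ B (O m).α' ∈ (I i).X := by
  refine ⟨h.X_mono hmi ?_, h.X_mono hmi ?_⟩ <;> rw [h.next]
  · exact Or.inl (Or.inr ⟨B, hB, rfl⟩)
  · exact Or.inr ⟨B, hB, rfl⟩

theorem div_le (i : ℕ) : ω / 2 ^ i ≤ ω := div_le_self h.pos.le (one_le_pow₀ (by norm_num))

theorem opR_contr (N : ℕ) : Contr (opR O N) :=
  chain_contr (fun i => (h.spec i).q_eff) contr_sg N

theorem leaf_contr (i : ℕ) : Contr (sg i • opR O i) := fun x => by
  rw [smul_apply, norm_smul]
  exact (mul_le_of_le_one_left (norm_nonneg _) (norm_sg i)).trans (h.opR_contr i x)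

theorem opT_contr (N : ℕ) : Contr (opT O N) :=
  chain_contr (fun i => (h.spec i).L_eff) h.leaf_contr N

theorem opT_mem (N : ℕ) : opT O N ∈ spanRep U :=
  chain_mem (fun i => (h.spec i).L_mem) (fun i => Submodule.smul_mem _ _
    (chain_mem (fun i => (h.spec i).q_mem)
      (fun _ => Submodule.smul_mem _ _ (one_mem_spanRep U)) i)) N

theorem opR_est {j m : ℕ} (hjm : j + 1 ≤ m) {s : G} (hs : s ∈ (I (j + 1)).S) {x y : H}
    (hp : Pair U (I m).M x y) :
    ‖opR O m (U s (tl (fun i => (O i).a) (j + 1) m x)) -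
      sg j • U s (tl (fun i => (O i).a) (j + 1) m x)‖ ≤ 6 * ω := by
  refine (chain_est (fun i => (h.spec i).q_eff) contr_sg (norm_sg j) h.pos.le hjm (ε := ω)
    (δ := 0) ?_ (by simp) fun i hi him => ?_).trans_eq (by ring)
  · have h1 := h.pair_tl hjm hp
    rw [h.M_succ] at h1
    rw [h.next] at hs
    have h2 := (h.spec j).q_kill _ h1.2.2.1 s hs
    rw [h1.1, mul_one] at h2
    exact h2.trans (h.div_le j)
  · have h1 := h.pair_tl him hp
    rw [h.M_succ] at h1
    have h2 := (h.spec i).q_fix _ h1.2.2.1 _ (h.mem_B hi hs)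
    rw [h1.1, mul_one] at h2
    rw [tl_split _ hi him]
    exact h2

theorem opT_est' {j m N : ℕ} (hjm : j + 1 ≤ m) (hm : Even m) (hN : m < N) {s : G}
    (hs : s ∈ (I (j + 1)).S) :
    ‖opT O N (U s (tl (fun i => (O i).a) (j + 1) m (O m).α')) -
      sg j • U s (tl (fun i => (O i).a) (j + 1) m (O m).α')‖ ≤ 12 * ω := by
  have hB := h.mem_B hjm hs
  refine (chain_est (fun i => (h.spec i).L_eff) h.leaf_contr (norm_sg j) h.pos.le hN (ε := ω)
    (δ := 6 * ω) (((h.spec m).L_kill _ hB).trans (h.div_le m)) ?_ fun i hi _ => ?_).trans_eq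
    (by ring)
  · rw [sg, if_pos hm, one_smul]
    exact h.opR_est hjm hs (h.spec m).pair'
  · exact (h.spec i).L_X _ (h.mem_X hi hB).2

theorem opT_est {j m N : ℕ} (hjm : j ≤ m) (hm : ¬ Even m) (hN : m < N) {s : G}
    (hs : s ∈ (I j).S) :
    ‖opT O N (U s (tl (fun i => (O i).a) j (m + 1) (O (m + 1)).α)) -
      (0 : ℂ) • U s (tl (fun i => (O i).a) j (m + 1) (O (m + 1)).α)‖ ≤ 12 * ω := by
  have hB := h.mem_B (hjm.trans (Nat.le_succ m)) hs
  refine (chain_est (fun i => (h.spec i).L_eff) h.leaf_contr (by simp) h.pos.le hN (ε := ω)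
    (δ := 0) ?_ (by simp [sg, hm]) fun i hi _ => ?_).trans (by linarith [h.pos])
  · have h1 := h.pair_a (h.spec (m + 1)).pair
    have h2 := (h.spec m).L_killN _ h1.2.2.1 _ (h.mem_B hjm hs)
    rw [h1.1, mul_one] at h2
    rw [tl_succ _ hjm]
    exact h2.trans (h.div_le m)
  · rcases (Nat.succ_le_of_lt hi).eq_or_lt with rfl | hi'
    · exact (h.spec (m + 1)).L_fix _ hB
    · exact (h.spec i).L_X _ (h.mem_X hi' hB).1

end Sys

end Pool.Agent.Work.MP_129c4a_an.N
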