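import Pool.Agent.Work.MP_129c4a_an.N.Abel
import Pool.Agent.Work.MP_129c4a_an.N.System

/-!
The radical is not nilpotent for a group with a non-discrete abelian subgroup.
-/

namespace Pool.Agent.Work.MP_129c4a_an.N

open MeasureTheory Filter Topology
open scoped InnerProductSpace

universe u v

theorem rprod_contr {H : Type v} [NormedAddCommGroup H] [InnerProductSpace ℂ H]
    {T : ℕ → H →L[ℂ] H} (hT : ∀ c, Contr (T c)) (k : ℕ) : Contr (rprod T k) := by
  induction k with
  | zero => exact hT 0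
  | succ k ih => exact (hT _).mul ih

theorem rprod_mem {G : Type u} [Group G] {H : Type v} [NormedAddCommGroup H]
    [InnerProductSpace ℂ H] {U : G →* (H →L[ℂ] H)} {T : ℕ → H →L[ℂ] H}
    (hT : ∀ c, T c ∈ spanRep U) (k : ℕ) : rprod T k ∈ spanRep U := by
  induction k with
  | zero => exact hT 0
  | succ k ih => exact mul_mem_spanRep U (hT _) ih

theorem rprod_est {H : Type v} [NormedAddCommGroup H] [InnerProductSpace ℂ H]
    {T : ℕ → H →L[ℂ] H} (hT : ∀ c, Contr (T c)) {σ : ℕ → ℂ} (hσ : ∀ c, ‖σ c‖ ≤ 1) {x : H} {ε : ℝ}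
    (k : ℕ) (h : ∀ c ≤ k, ‖T c x - σ c • x‖ ≤ ε) :
    ‖rprod T k x - (∏ c ∈ Finset.range (k + 1), σ c) • x‖ ≤ (k + 1) * ε := by
  induction k with
  | zero => simpa [rprod] using h 0 le_rfl
  | succ k ih =>
    have h1 := ih fun c hc => h c (hc.trans (Nat.le_succ k))
    have h2 := h (k + 1) le_rfl
    set p := ∏ c ∈ Finset.range (k + 1), σ c with hp
    have h3 : ‖p‖ ≤ 1 := by
      rw [hp, norm_prod]
      exact Finset.prod_le_one (fun _ _ => norm_nonneg _) fun c _ => hσ c
    have e : rprod T (k + 1) x - (∏ c ∈ Finset.range (k + 1 + 1), σ c) • x =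
        T (k + 1) (rprod T k x - p • x) + p • (T (k + 1) x - σ (k + 1) • x) := by
      rw [Finset.prod_range_succ, ← hp, rprod, mul_apply_eq_comp, map_sub, map_smul, smul_sub,
        mul_smul]
      abel
    rw [e]
    refine (norm_add_le _ _).trans ?_
    have h4 := hT (k + 1) (rprod T k x - p • x)
    have h5 : ‖p • (T (k + 1) x - σ (k + 1) • x)‖ ≤ ‖T (k + 1) x - σ (k + 1) • x‖ := by
      rw [norm_smul]
      exact mul_le_of_le_one_left (norm_nonneg _) h3
    push_cast
    linarith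

theorem expand_est {A : Type v} [NonUnitalNormedRing A] [NormedSpace ℂ A] [IsScalarTower ℂ A A]
    [SMulCommClass ℂ A A] (y y' : ℕ → A) (ε : ℝ) (k : ℕ) : ∀ (F : StrongDual ℂ A) (z : ℂ),
    (∀ b : ℕ → Bool, ‖F (rprod (fun c => if b c then y' c else y c) k) -
      z * ∏ c ∈ Finset.range (k + 1), (if b c then 0 else 1 : ℂ)‖ ≤ ε) →
    ‖F (rprod (fun c => y c - y' c) k) - z‖ ≤ 2 ^ (k + 1) * ε := by
  induction k with
  | zero =>
    intro F z h
    have h1 := h fun _ => false
    have h2 := h fun _ => true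
    simp only [rprod, Bool.false_eq_true, if_false, if_true, Finset.prod_const_one, mul_one,
      zero_add, Finset.range_one, Finset.prod_singleton, mul_zero, sub_zero] at h1 h2
    rw [rprod, map_sub, sub_right_comm, zero_add, pow_one]
    refine (norm_sub_le _ _).trans ?_
    linarith
  | succ k ih =>
    intro F z h
    have key : ∀ (t : Bool) (b : ℕ → Bool),
        ‖dualAct F (if t then y' (k + 1) else y (k + 1))
          (rprod (fun c => if b c then y' c else y c) k) - (z * if t then 0 else 1) *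
          ∏ c ∈ Finset.range (k + 1), (if b c then 0 else 1 : ℂ)‖ ≤ ε := by
      intro t b
      have h1 := h (Function.update b (k + 1) t)
      rw [rprod, Finset.prod_range_succ _ (k + 1), Function.update_self,
        rprod_congr (y := fun c => if b c then y' c else y c)
          (fun i hi => by rw [Function.update_of_ne (by omega)]),
        Finset.prod_congr rfl (g := fun c => (if b c then 0 else 1 : ℂ)) (fun i hi => by
          rw [Function.update_of_ne (Finset.mem_range.1 hi).ne])] at h1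
      rwa [dualAct_apply, mul_right_comm, mul_assoc]
    have h1 := ih _ _ (key false)
    have h2 := ih _ _ (key true)
    simp only [dualAct_apply, Bool.false_eq_true, if_false, if_true, mul_one, mul_zero,
      sub_zero] at h1 h2
    rw [rprod, sub_mul, map_sub, sub_right_comm, pow_succ]
    refine (norm_sub_le _ _).trans ?_
    linarith

variable {G : Type u} [Group G] [TopologicalSpace G] [IsTopologicalGroup G]
  [LocallyCompactSpace G] [T2Space G] [MeasurableSpace G] [BorelSpace G] {μ : Measure G}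
  [μ.IsHaarMeasure] {A : Type v} [NonUnitalNormedRing A] [NormedSpace ℂ A] {ι : A → G → ℂ}

/-- `a` kills level `m` of class `cl` and is almost one at all levels other than the levels
`t ≤ m` of class `cl` -/
def Fac (ι : A → G → ℂ) (F : ℕ → Finset G) (c₀ : ℝ) (cl m : ℕ) (a : A) : Prop :=
  ‖a‖ ≤ 1 ∧ ι a 1 = 1 ∧
    (∀ x ∈ F (Nat.pair cl m), ∀ y ∈ F (Nat.pair cl m), x ≠ y → ι a (x⁻¹ * y) = 0) ∧
    ∀ j, (∀ t ≤ m, j ≠ Nat.pair cl t) → ∀ g ∈ F j, ‖1 - ι a g‖ ≤ 2 * (c₀ / 4 ^ j)

omit [LocallyCompactSpace G] [T2Space G] in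
theorem exists_test (h : IsFourierAlgebra μ A ι) {F : ℕ → Finset G} {r k : ℕ} {ω c₀ : ℝ}
    (hω : 0 < ω) (hc₀ : 0 ≤ c₀) (hF : ∀ j, (F j).card = r) (hr : 8 / ω ^ 2 ≤ r)
    (hc : (k + 1) * (2 * c₀) ≤ ω ^ 2 / 16) (N : ℕ) :
    ∃ T : StrongDual ℂ A, ‖T‖ ≤ 1 ∧ ∀ (m : ℕ → ℕ) (a : ℕ → A), (∀ c, Fac ι F c₀ c (m c) (a c)) →
      (∀ c ≤ k, m c < N) →
      ‖T (rprod a k) - ∏ c ∈ Finset.range (k + 1), sg (m c)‖ ≤ 2 * ((k + 1) * (6 * ω)) := by
  have hU := isUnitaryRep_lam μ
  have hr0 : (0 : ℝ) < r := lt_of_lt_of_le (by positivity) hr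
  have hne : ∀ j, (F j).Nonempty := fun j => Finset.card_pos.1 (by rw [hF]; exact_mod_cast hr0)
  set Q : ℕ → Lp ℂ 2 μ →L[ℂ] Lp ℂ 2 μ := fun c =>
    chain (fun t => avgE (lam μ) (F (Nat.pair c t))) (fun t => sg t • 1) N with hQ
  have hE : ∀ c t, IsEffect (avgE (lam μ) (F (Nat.pair c t))) := fun c t => avgE_effect hU (hne _)
  have hQc : ∀ c, Contr (Q c) := fun c => chain_contr (hE c) contr_sg N
  have hQm : ∀ c, Q c ∈ spanRep (lam μ) := fun c => chain_mem (fun _ => avgE_mem _ _)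
    (fun _ => Submodule.smul_mem _ _ (one_mem_spanRep _)) N
  obtain ⟨T, hT1, hT2⟩ := h.exists_clm (rprod_mem hQm k) (rprod_contr hQc k)
  refine ⟨T, hT1, fun m a ha hm => ?_⟩
  have hφ : ∀ g, ι (rprod a k) g = ∏ c ∈ Finset.range (k + 1), ι (a c) g := fun g => by
    rw [fa_rprod h, Finset.prod_apply]
  have hφ1 : ι (rprod a k) 1 = 1 := by
    rw [hφ]
    exact Finset.prod_eq_one fun c _ => (ha c).2.1
  set δ : ℝ := ω ^ 2 / 32 / 4 ^ N with hδ
  have hδ0 : 0 < δ := by positivity
  obtain ⟨ξ, η, h1, h2, h3, h4⟩ := fa_state h (norm_rprod_le (fun c => (ha c).1) k) hφ1 hδ0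
  have h5 : ⟪η, ξ⟫_ℂ = 1 := by
    rw [← hφ1, h1, coeff_eq_inner, map_one, one_apply_eq_self]
  have h6 : ‖ξ‖ ^ 2 ≤ 1 + δ := by
    have := (abs_le.1 ((Complex.abs_re_le_norm _).trans (h4 1))).2
    rw [map_one, one_apply_eq_self, hφ1, Complex.sub_re, re_inner_self, Complex.one_re] at this
    linarith
  have h7 : ∀ c ≤ k, ‖Q c ξ - sg (m c) • ξ‖ ≤ 6 * ω := by
    intro c hck
    refine (chain_est (hE c) contr_sg (norm_sg (m c)) hω.le (hm c hck) (ε := ω) (δ := 0) ?_
      (by simp) fun i hi hiN => ?_).trans_eq (by ring)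
    · refine (pow_le_pow_iff_left₀ (norm_nonneg _) hω.le two_ne_zero).1
        ((avgE_kill hU (hne _) hδ0.le fun x hx y hy hxy => ?_).trans ?_)
      · have := (abs_le.1 ((Complex.abs_re_le_norm _).trans (h4 (x⁻¹ * y)))).2
        rwa [hφ, Finset.prod_eq_zero (Finset.mem_range.2 (Nat.lt_succ_of_le hck))
          ((ha c).2.2.1 x hx y hy hxy), sub_zero] at this
      · have a1 : δ ≤ ω ^ 2 / 32 := div_le_self (by positivity) (one_le_pow₀ (by norm_num))
        have a2 : ‖ξ‖ ^ 2 / r ≤ ω ^ 2 / 2 := by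
          rw [div_le_iff₀ hr0]
          rw [div_le_iff₀ (by positivity)] at hr
          nlinarith [norm_nonneg ξ]
        rw [hF]
        nlinarith [sq_nonneg ω]
    · refine (avgE_fix hU (hne _) (ε := ω / 2 ^ i / 2) fun g hg => ?_).trans_eq (by ring)
      have a1 : ‖1 - ι (rprod a k) g‖ ≤ ω ^ 2 / 16 / 4 ^ i := by
        rw [hφ]
        refine (norm_one_sub_prod_le _ _ fun c' _ => (fa_norm_apply h _ g).trans (ha c').1).trans
          ((Finset.sum_le_card_nsmul _ _ (2 * (c₀ / 4 ^ i)) fun c' _ => ?_).trans ?_)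
        · refine ((ha c').2.2.2 _ (fun t ht hh => ?_) g hg).trans ?_
          · obtain ⟨rfl, rfl⟩ := Nat.pair_eq_pair.1 hh
            omega
          · exact mul_le_mul_of_nonneg_left (div_le_div_of_nonneg_left hc₀ (by positivity)
              (pow_le_pow_right₀ (by norm_num) (Nat.right_le_pair c i))) zero_le_two
        · rw [Finset.card_range, nsmul_eq_mul, ← mul_div_assoc, ← mul_div_assoc]
          push_cast
          exact div_le_div_of_nonneg_right hc (by positivity)
      have a2 := (abs_le.1 ((Complex.abs_re_le_norm _).trans a1)).2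
      have a3 := (abs_le.1 ((Complex.abs_re_le_norm _).trans (h4 g))).1
      rw [Complex.sub_re] at a2 a3
      rw [Complex.one_re] at a2
      have a4 : δ ≤ ω ^ 2 / 32 / 4 ^ i := div_le_div_of_nonneg_left (by positivity) (by positivity)
        (pow_le_pow_right₀ (by norm_num) hiN.le)
      refine (pow_le_pow_iff_left₀ (norm_nonneg _) (by positivity) two_ne_zero).1 ?_
      have a5 : (ω / 2 ^ i / 2) ^ 2 = 8 * (ω ^ 2 / 32 / 4 ^ i) := by
        rw [show (4 : ℝ) = 2 ^ 2 by norm_num, ← pow_mul, mul_comm 2 i, pow_mul]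
        field_simp
        norm_num
      have a6 : ω ^ 2 / 16 / 4 ^ i = 2 * (ω ^ 2 / 32 / 4 ^ i) := by ring
      rw [norm_sub_rev, norm_sub_sq (𝕜 := ℂ), hU.norm, a5]
      change ‖ξ‖ ^ 2 - 2 * (⟪ξ, lam μ g ξ⟫_ℂ).re + _ ≤ _
      linarith
  have h8 := rprod_est hQc (fun c => norm_sg (m c)) k h7
  rw [hT2 _ _ _ h1, ← mul_one (∏ c ∈ Finset.range (k + 1), sg (m c)), ← h5, ← inner_smul_right,
    ← inner_sub_right]
  exact (norm_inner_le_norm _ _).trans (mul_le_mul h3 h8 (norm_nonneg _) zero_le_two)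

theorem exists_family [μ.InnerRegularCompactLTTop] [IsScalarTower ℂ A A]
    [SMulCommClass ℂ A A] (h : IsFourierAlgebra μ A ι) (K : Subgroup G)
    (hK : ∀ a ∈ K, ∀ b ∈ K, a * b = b * a) (hKi : ∀ W ∈ 𝓝 (1 : G), (W ∩ K).Infinite) (k : ℕ) :
    ∃ (e : ℕ → ℕ → A) (Ψ : ℕ → ArensBidual A) (S : StrongDual ℂ A),
      (∀ c, Ψ c * Ψ c = 0 ∧ ∀ Φ, Ψ c * (Φ * Ψ c) = 0) ∧ (∀ c, IsLim (e c) (toB (Ψ c))) ∧
      ∀ n : ℕ → ℕ, 1 / 2 ≤ (S (rprod (fun c => e c (n c)) k)).re := by
  set ω : ℝ := 1 / (24 * (k + 1) * 2 ^ (k + 1)) with hω_def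
  have hω : 0 < ω := by positivity
  obtain ⟨r, hr⟩ := exists_nat_ge (8 / ω ^ 2)
  set c₀ : ℝ := ω ^ 2 / 32 / (k + 1) with hc₀_def
  have hc₀ : 0 < c₀ := by positivity
  obtain ⟨v, P, F, h1, h2⟩ := exists_indep h K hK hKi r hc₀
  choose T hT1 hT2 using exists_test h hω hc₀.le (fun j => (h1 j).2.2.2.2.2.1) hr (k := k)
    (le_of_eq (by rw [hc₀_def]; field_simp; norm_num))
  obtain ⟨S, hS⟩ := exists_ultralim uf T 1 hT1
  have hS' : ∀ (m : ℕ → ℕ) (a : ℕ → A), (∀ c, Fac ι F c₀ c (m c) (a c)) →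
      ‖S (rprod a k) - ∏ c ∈ Finset.range (k + 1), sg (m c)‖ ≤ 2 * ((k + 1) * (6 * ω)) := by
    intro m a ha
    refine le_of_tendsto ((hS _).sub_const _).norm (uf_le ?_)
    filter_upwards [eventually_gt_atTop ((Finset.range (k + 1)).sup m)] with N hN
    exact hT2 N m a ha fun c hc =>
      (Finset.le_sup (f := m) (Finset.mem_range.2 (Nat.lt_succ_of_le hc))).trans_lt hN
  have hfac : ∀ (c m : ℕ) (f : ℕ → A), (∀ t, f t = v (Nat.pair c t) ∨ f t = P (Nat.pair c t)) →
      Fac ι F c₀ c m (rprod f m) := by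
    intro c m f hf
    have hf1 : ∀ t, ‖f t‖ ≤ 1 := fun t => by
      rcases hf t with e | e <;> rw [e]
      exacts [(h1 _).1, (h1 _).2.1]
    have hφ : ∀ g, ι (rprod f m) g = ∏ t ∈ Finset.range (m + 1), ι (f t) g := fun g => by
      rw [fa_rprod h, Finset.prod_apply]
    refine ⟨norm_rprod_le hf1 m, ?_, fun x hx y hy hxy => ?_, fun j hj g hg => ?_⟩
    · rw [hφ]
      refine Finset.prod_eq_one fun t _ => ?_
      rcases hf t with e | e <;> rw [e]
      exacts [(h1 _).2.2.1, (h1 _).2.2.2.1]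
    · rw [hφ]
      refine Finset.prod_eq_zero (Finset.self_mem_range_succ m) ?_
      rcases hf m with e | e <;> rw [e]
      exacts [((h1 _).2.2.2.2.2.2 x hx y hy hxy).1, ((h1 _).2.2.2.2.2.2 x hx y hy hxy).2]
    · rw [hφ]
      refine (norm_one_sub_prod_le _ _ fun t _ => (fa_norm_apply h _ g).trans (hf1 t)).trans
        ((Finset.sum_le_sum fun t ht => ?_).trans
          (sum_geom_le (c := c₀ / 4 ^ j) (by positivity) (m + 1)))
      have a1 := h2 j _ (hj t (Nat.le_of_lt_succ (Finset.mem_range.1 ht))) g hg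
      have a2 : c₀ / 4 ^ j / 2 ^ Nat.pair c t ≤ c₀ / 4 ^ j / 2 ^ t :=
        div_le_div_of_nonneg_left (by positivity) (by positivity)
          (pow_le_pow_right₀ (by norm_num) (Nat.right_le_pair c t))
      rcases hf t with e | e <;> rw [e]
      exacts [a1.1.trans a2, a1.2.trans a2]
  set W : ℕ → ℕ → A := fun c => rprod fun t => P (Nat.pair c t) with hW
  have hW1 : ∀ c n, Fac ι F c₀ c n (W c n) := fun c n => hfac c n _ fun _ => Or.inr rfl
  have hW2 : ∀ c n, Fac ι F c₀ c (n + 1) (v (Nat.pair c (n + 1)) * W c n) := by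
    intro c n
    have := hfac c (n + 1) (Function.update (fun t => P (Nat.pair c t)) (n + 1)
      (v (Nat.pair c (n + 1)))) fun t => by
        by_cases ht : t = n + 1
        · rw [ht, Function.update_self]
          exact Or.inl rfl
        · rw [Function.update_of_ne ht]
          exact Or.inr rfl
    rwa [rprod, Function.update_self, rprod_congr (y := fun t => P (Nat.pair c t))
      fun i hi => Function.update_of_ne (by omega) _ _] at this
  have hmul : ∀ a b : A, ‖a‖ ≤ 1 → ‖a * b‖ ≤ ‖b‖ := fun a b ha =>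
    (norm_mul_le _ _).trans (mul_le_of_le_one_left (norm_nonneg _) ha)
  have horth : ∀ c n m, n + 1 ≤ m →
      ‖(W c n - v (Nat.pair c (n + 1)) * W c n) * W c m‖ ≤ 2 / (n + 1) := by
    intro c n m hm
    induction m, hm using Nat.le_induction with
    | base =>
      have e : (W c n - v (Nat.pair c (n + 1)) * W c n) * W c (n + 1) = W c n * (W c n *
          (P (Nat.pair c (n + 1)) - v (Nat.pair c (n + 1)) * P (Nat.pair c (n + 1)))) := by
        apply h.injective
        change ι (_ * (P (Nat.pair c (n + 1)) * W c n)) = _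
        simp only [h.map_mul, fa_sub h]
        ring
      rw [e]
      refine (hmul _ _ (hW1 c n).1).trans ((hmul _ _ (hW1 c n).1).trans
        ((h1 _).2.2.2.2.1.trans ?_))
      refine div_le_div_of_nonneg_left zero_le_two (by positivity) ?_
      exact_mod_cast Nat.succ_le_succ ((Nat.le_succ n).trans (Nat.right_le_pair c (n + 1)))
    | succ m hm ih =>
      have e : (W c n - v (Nat.pair c (n + 1)) * W c n) * W c (m + 1) = P (Nat.pair c (m + 1)) *
          ((W c n - v (Nat.pair c (n + 1)) * W c n) * W c m) := by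
        apply h.injective
        change ι (_ * (P (Nat.pair c (m + 1)) * W c m)) = _
        simp only [h.map_mul, fa_sub h]
        ring
      rw [e]
      exact (hmul _ _ (h1 _).2.1).trans ih
  have hlim : Tendsto (fun n : ℕ => 4 * (1 / ((n : ℝ) + 1))) atTop (𝓝 0) := by
    simpa using (tendsto_one_div_add_atTop_nhds_zero_nat (𝕜 := ℝ)).const_mul 4
  choose Ψ hΨ1 hΨ2 using fun c => exists_sq_lim h.comm
    (fun n => W c (2 * n) - v (Nat.pair c (2 * n + 1)) * W c (2 * n)) 2
    (fun n => (norm_sub_le _ _).trans (by linarith [(hW1 c (2 * n)).1, (hW2 c (2 * n)).1]))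
    _ hlim (fun n m hnm => by
      have a1 := horth c (2 * n) (2 * m) (by omega)
      have a2 : (2 : ℝ) / ((2 * n : ℕ) + 1) ≤ 2 * (1 / (n + 1)) := by
        rw [mul_one_div]
        refine div_le_div_of_nonneg_left zero_le_two (by positivity) ?_
        exact_mod_cast Nat.succ_le_succ (by omega)
      rw [mul_sub, ← mul_assoc, h.comm _ (v _), mul_assoc]
      refine (norm_sub_le _ _).trans ?_
      linarith [hmul _ ((W c (2 * n) - v (Nat.pair c (2 * n + 1)) * W c (2 * n)) * W c (2 * m))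
        (h1 (Nat.pair c (2 * m + 1))).1])
  refine ⟨_, Ψ, S, hΨ1, hΨ2, fun n => ?_⟩
  have a1 := expand_est (fun c => W c (2 * n c))
    (fun c => v (Nat.pair c (2 * n c + 1)) * W c (2 * n c)) (2 * ((k + 1) * (6 * ω))) k S 1
    (fun b => by
      have := hS' (fun c => if b c then 2 * n c + 1 else 2 * n c) _ (fun c => show Fac ι F c₀ c _
        (if b c then v (Nat.pair c (2 * n c + 1)) * W c (2 * n c) else W c (2 * n c)) by
          split_ifs
          exacts [hW2 c _, hW1 c _])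
      rwa [Finset.prod_congr rfl (g := fun c => (if b c then 0 else 1 : ℂ)) (fun c _ => by
        split_ifs <;> simp [sg]), ← one_mul (Finset.prod _ _)] at this)
  have a2 : (2 : ℝ) ^ (k + 1) * (2 * ((k + 1) * (6 * ω))) = 1 / 2 := by
    rw [hω_def]
    field_simp
    norm_num
  rw [a2] at a1
  have a3 := (abs_le.1 ((Complex.abs_re_le_norm _).trans a1)).1
  rw [Complex.sub_re, Complex.one_re] at a3
  linarith

end Pool.Agent.Work.MP_129c4a_an.N
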