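import Pool.Agent.Work.MP_129c4a_an.Nondiscrete
import Mathlib.LinearAlgebra.Finsupp.LinearCombination
import Mathlib.Algebra.Order.Chebyshev

/-!
Decision chains of effects, averaging effects and the filter of small pairs of vectors.
-/

namespace Pool.Agent.Work.MP_129c4a_an.N

open Filter Topology
open scoped InnerProductSpace

universe u v

variable {G : Type u} [Group G] {H : Type v} [NormedAddCommGroup H] [InnerProductSpace ℂ H]

/-- a contraction -/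
def Contr (T : H →L[ℂ] H) : Prop := ∀ x, ‖T x‖ ≤ ‖x‖

theorem contr_zero : Contr (0 : H →L[ℂ] H) := fun x => by simp

theorem contr_one : Contr (1 : H →L[ℂ] H) := fun _ => le_rfl

theorem Contr.mul {S T : H →L[ℂ] H} (hS : Contr S) (hT : Contr T) : Contr (S * T) :=
  fun x => (hS _).trans (hT x)

/-- `L X L + (1 - L) Y (1 - L)` -/
noncomputable def node (L X Y : H →L[ℂ] H) : H →L[ℂ] H := L * X * L + (1 - L) * Y * (1 - L)

theorem node_apply (L X Y : H →L[ℂ] H) (x : H) :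
    node L X Y x = L (X (L x)) + (Y (x - L x) - L (Y (x - L x))) := rfl

theorem node_swap (L X Y : H →L[ℂ] H) : node L X Y = node (1 - L) Y X := by
  rw [node, node, sub_sub_cancel, add_comm]

theorem node_mem {U : G →* (H →L[ℂ] H)} {L X Y : H →L[ℂ] H} (hL : L ∈ spanRep U)
    (hX : X ∈ spanRep U) (hY : Y ∈ spanRep U) : node L X Y ∈ spanRep U := by
  have h1 := Submodule.sub_mem _ (one_mem_spanRep U) hL
  exact Submodule.add_mem _ (mul_mem_spanRep U (mul_mem_spanRep U hL hX) hL)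
    (mul_mem_spanRep U (mul_mem_spanRep U h1 hY) h1)

theorem node_contr {L X Y : H →L[ℂ] H} (hL : IsEffect L) (hX : Contr X) (hY : Contr Y) :
    Contr (node L X Y) := by
  intro x
  set y := node L X Y x with hy
  have hy' : y = L (X (L x)) + (Y (x - L x) - L (Y (x - L x))) := rfl
  have h1 : ⟪y, y⟫_ℂ = ⟪Y (x - L x), y - L y⟫_ℂ + ⟪X (L x), L y⟫_ℂ := by
    conv_lhs => enter [2]; rw [hy']
    rw [inner_add_left, inner_sub_left, inner_sub_right, hL.1, hL.1 (Y _), add_comm]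
  have h2 : ‖y‖ ^ 2 ≤ ‖x - L x‖ * ‖y - L y‖ + ‖L x‖ * ‖L y‖ := by
    have h3 : ‖y‖ ^ 2 = ‖⟪y, y⟫_ℂ‖ := by
      rw [inner_self_eq_norm_sq_to_K]
      simp
    rw [h3, h1]
    refine (norm_add_le _ _).trans (add_le_add ?_ ?_)
    · exact (norm_inner_le_norm _ _).trans (mul_le_mul_of_nonneg_right (hY _) (norm_nonneg _))
    · exact (norm_inner_le_norm _ _).trans (mul_le_mul_of_nonneg_right (hX _) (norm_nonneg _))
  have h4 := hL.sum_sq x
  have h5 := hL.sum_sq y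
  by_contra hcon
  push Not at hcon
  have hx0 := norm_nonneg x
  have h6 : ‖x‖ ^ 2 < ‖y‖ ^ 2 := by nlinarith
  nlinarith [sq_nonneg (‖x - L x‖ - ‖y - L y‖), sq_nonneg (‖L x‖ - ‖L y‖)]

theorem node_fix {L X Y : H →L[ℂ] H} (hL : IsEffect L) (hX : Contr X) (hY : Contr Y) {x : H}
    {σ : ℂ} (hσ : ‖σ‖ ≤ 1) {ε δ : ℝ} (h1 : ‖L x - x‖ ≤ ε) (h2 : ‖X x - σ • x‖ ≤ δ) :
    ‖node L X Y x - σ • x‖ ≤ δ + 3 * ε := by
  have e1 : node L X Y x - σ • x = (L (X (L x - x)) + L (X x - σ • x)) + (σ • (L x - x) +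
      (Y (x - L x) - L (Y (x - L x)))) := by
    rw [node_apply]
    simp only [map_sub, map_smul, smul_sub]
    abel
  have a1 := (hL.norm_le (X (L x - x))).trans (hX _)
  have a2 := hL.norm_le (X x - σ • x)
  have a3 : ‖σ • (L x - x)‖ ≤ ‖L x - x‖ := by
    rw [norm_smul]
    exact mul_le_of_le_one_left (norm_nonneg _) hσ
  have a4 := (hL.norm_sub_le (Y (x - L x))).trans (hY _)
  rw [norm_sub_rev x] at a4
  rw [e1]
  refine (norm_add_le _ _).trans ?_
  have a5 := norm_add_le (L (X (L x - x))) (L (X x - σ • x))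
  have a6 := norm_add_le (σ • (L x - x)) (Y (x - L x) - L (Y (x - L x)))
  linarith

theorem node_kill {L X Y : H →L[ℂ] H} (hL : IsEffect L) (hX : Contr X) (hY : Contr Y) {x : H}
    {σ : ℂ} (hσ : ‖σ‖ ≤ 1) {ε δ : ℝ} (h1 : ‖L x‖ ≤ ε) (h2 : ‖Y x - σ • x‖ ≤ δ) :
    ‖node L X Y x - σ • x‖ ≤ δ + 3 * ε := by
  rw [node_swap]
  refine node_fix hL.one_sub hY hX hσ ?_ h2
  change ‖x - L x - x‖ ≤ ε
  rwa [sub_sub_cancel_left, norm_neg]

/-- the chain of nodes -/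
noncomputable def chain (q Y : ℕ → H →L[ℂ] H) : ℕ → H →L[ℂ] H
  | 0 => 0
  | i + 1 => node (q i) (chain q Y i) (Y i)

theorem chain_mem {U : G →* (H →L[ℂ] H)} {q Y : ℕ → H →L[ℂ] H} (hq : ∀ i, q i ∈ spanRep U)
    (hY : ∀ i, Y i ∈ spanRep U) (N : ℕ) : chain q Y N ∈ spanRep U := by
  induction N with
  | zero => exact Submodule.zero_mem _
  | succ i ih => exact node_mem (hq i) ih (hY i)

theorem chain_contr {q Y : ℕ → H →L[ℂ] H} (hq : ∀ i, IsEffect (q i)) (hY : ∀ i, Contr (Y i))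
    (N : ℕ) : Contr (chain q Y N) := by
  induction N with
  | zero => exact contr_zero
  | succ i ih => exact node_contr (hq i) ih (hY i)

theorem chain_est {q Y : ℕ → H →L[ℂ] H} (hq : ∀ i, IsEffect (q i)) (hY : ∀ i, Contr (Y i))
    {x : H} {σ : ℂ} (hσ : ‖σ‖ ≤ 1) {ε δ θ : ℝ} (hθ : 0 ≤ θ) {m N : ℕ} (hmN : m < N)
    (h1 : ‖q m x‖ ≤ ε) (h2 : ‖Y m x - σ • x‖ ≤ δ)
    (h3 : ∀ i, m < i → i < N → ‖q i x - x‖ ≤ θ / 2 ^ i) :
    ‖chain q Y N x - σ • x‖ ≤ δ + 3 * ε + 3 * θ := by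
  have key : ∀ k, m ≤ k → k < N →
      ‖chain q Y (k + 1) x - σ • x‖ ≤ δ + 3 * ε + 3 * (θ - θ / 2 ^ k) := by
    intro k hk
    induction k, hk using Nat.le_induction with
    | base =>
      intro _
      have a1 := node_kill (hq m) (chain_contr hq hY m) (hY m) hσ h1 h2
      have a2 : θ / 2 ^ m ≤ θ := div_le_self hθ (one_le_pow₀ (by norm_num))
      rw [chain]
      linarith
    | succ k hk ih =>
      intro hkN
      have a1 := node_fix (hq (k + 1)) (chain_contr hq hY (k + 1)) (hY (k + 1)) hσ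
        (h3 (k + 1) (by omega) hkN) (ih (by omega))
      have a2 : θ / 2 ^ k = 2 * (θ / 2 ^ (k + 1)) := by
        rw [pow_succ]
        field_simp
      rw [chain]
      linarith
  obtain ⟨k, rfl⟩ : ∃ k, N = k + 1 := ⟨N - 1, by omega⟩
  have a1 := key k (by omega) (by omega)
  have a2 : 0 ≤ θ / 2 ^ k := by positivity
  linarith

/-- the averaging effect -/
noncomputable def avgE (U : G →* (H →L[ℂ] H)) (F : Finset G) : H →L[ℂ] H :=
  avg U F (fun t => t⁻¹) * avg U F id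

theorem avgE_mem (U : G →* (H →L[ℂ] H)) (F : Finset G) : avgE U F ∈ spanRep U :=
  mul_mem_spanRep U (avg_mem U _ _) (avg_mem U _ _)

variable {U : G →* (H →L[ℂ] H)}

theorem avgE_effect (hU : IsUnitaryRep U) {F : Finset G} (hF : F.Nonempty) :
    IsEffect (avgE U F) :=
  isEffect_of_pair (avg_inner hU F) (avg_norm_le hU hF _)

theorem norm_inv_sub (hU : IsUnitaryRep U) (t : G) (x : H) : ‖U t⁻¹ x - x‖ = ‖U t x - x‖ := by
  rw [← hU.norm t, map_sub, rep_apply_inv, norm_sub_rev]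

theorem avgE_fix (hU : IsUnitaryRep U) {F : Finset G} (hF : F.Nonempty) {x : H} {ε : ℝ}
    (h : ∀ t ∈ F, ‖U t x - x‖ ≤ ε) : ‖avgE U F x - x‖ ≤ 2 * ε := by
  have a1 : ‖avg U F id x - x‖ ≤ ε := avg_sub_le U hF _ _ _ h
  have a2 : ‖avg U F (fun t => t⁻¹) x - x‖ ≤ ε :=
    avg_sub_le U hF _ _ _ fun t ht => (norm_inv_sub hU t x).trans_le (h t ht)
  have a3 := avg_norm_le hU hF (fun t => t⁻¹) (avg U F id x - x)
  have e1 : avgE U F x - x =
      avg U F (fun t => t⁻¹) (avg U F id x - x) + (avg U F (fun t => t⁻¹) x - x) := by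
    rw [map_sub]
    change avg U F (fun t => t⁻¹) (avg U F id x) - x = _
    abel
  rw [e1]
  refine (norm_add_le _ _).trans ?_
  linarith

theorem re_inner_self (x : H) : (⟪x, x⟫_ℂ).re = ‖x‖ ^ 2 := by
  rw [inner_self_eq_norm_sq_to_K]
  norm_cast

theorem avgE_kill (hU : IsUnitaryRep U) {F : Finset G} (hF : F.Nonempty) {x : H} {δ : ℝ}
    (hδ : 0 ≤ δ) (h : ∀ a ∈ F, ∀ b ∈ F, a ≠ b → (⟪x, U (a⁻¹ * b) x⟫_ℂ).re ≤ δ) :
    ‖avgE U F x‖ ^ 2 ≤ ‖x‖ ^ 2 / F.card + δ := by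
  classical
  have hc : (0 : ℝ) < F.card := by exact_mod_cast hF.card_pos
  have h1 : ‖∑ t ∈ F, U t x‖ ^ 2 ≤ F.card * (‖x‖ ^ 2 + F.card * δ) := by
    rw [← re_inner_self, sum_inner, Complex.re_sum]
    refine (Finset.sum_le_card_nsmul F _ (‖x‖ ^ 2 + F.card * δ) fun a ha => ?_).trans_eq
      (nsmul_eq_mul _ _)
    rw [inner_sum, Complex.re_sum]
    calc ∑ b ∈ F, (⟪U a x, U b x⟫_ℂ).re
        ≤ ∑ b ∈ F, ((if b = a then ‖x‖ ^ 2 else 0) + δ) := by
          refine Finset.sum_le_sum fun b hb => ?_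
          split_ifs with hba
          · rw [hba, hU, re_inner_self]
            linarith
          · rw [hU.inner_left, rep_rep, zero_add]
            exact h a ha b hb (Ne.symm hba)
      _ = ‖x‖ ^ 2 + F.card * δ := by
          rw [Finset.sum_add_distrib, Finset.sum_ite_eq' F a, if_pos ha]
          simp
  have h2 : ‖avg U F id x‖ ^ 2 ≤ ‖x‖ ^ 2 / F.card + δ := by
    rw [avg_apply, norm_smul, norm_inv, Complex.norm_natCast, mul_pow, inv_pow,
      inv_mul_le_iff₀ (by positivity)]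
    refine h1.trans_eq ?_
    field_simp
  exact (pow_le_pow_left₀ (norm_nonneg _) (avg_norm_le hU hF _ _) 2).trans h2

theorem exists_rep_span {B : H →L[ℂ] H} (hB : B ∈ spanRep U) :
    ∃ (S : Finset G) (κ : G → ℂ), B = ∑ s ∈ S, κ s • U s := by
  obtain ⟨c, hc⟩ := Finsupp.mem_span_range_iff_exists_finsupp.1 hB
  exact ⟨c.support, c, hc.symm⟩

theorem exists_dom {𝔅 : Set (H →L[ℂ] H)} (hf : 𝔅.Finite) (h : ∀ B ∈ 𝔅, B ∈ spanRep U) :
    ∃ (S : Finset G) (C : ℝ), 0 < C ∧ ∀ B ∈ 𝔅, ∀ (D : H →L[ℂ] H) (w : H) (ε : ℝ), 0 ≤ ε →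
      (∀ t ∈ S, ‖D (U t w)‖ ≤ ε) → ‖D (B w)‖ ≤ C * ε := by
  classical
  induction 𝔅, hf using Set.Finite.induction_on with
  | empty => exact ⟨∅, 1, one_pos, by simp⟩
  | @insert B 𝔅 _ _ ih =>
    obtain ⟨S, C, hC, hS⟩ := ih fun B' hB' => h B' (Set.mem_insert_of_mem _ hB')
    obtain ⟨S', κ, hκ⟩ := exists_rep_span (h B (Set.mem_insert _ _))
    have h0 : 0 ≤ ∑ s ∈ S', ‖κ s‖ := Finset.sum_nonneg fun _ _ => norm_nonneg _
    refine ⟨S ∪ S', C + ∑ s ∈ S', ‖κ s‖, by linarith, ?_⟩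
    rintro B' (rfl | hB') D w ε hε hw
    · have : ‖D (B' w)‖ ≤ (∑ s ∈ S', ‖κ s‖) * ε := by
        rw [hκ, sum_apply, map_sum, Finset.sum_mul]
        refine (norm_sum_le _ _).trans (Finset.sum_le_sum fun s hs => ?_)
        rw [smul_apply, map_smul, norm_smul]
        exact mul_le_mul_of_nonneg_left (hw s (Finset.mem_union_right _ hs)) (norm_nonneg _)
      nlinarith
    · have := hS B' hB' D w ε hε fun t ht => hw t (Finset.mem_union_left _ ht)
      nlinarith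

theorem inner_rep_sum (hU : IsUnitaryRep U) (S S' : Finset G) (κ κ' : G → ℂ) (x y : H) (g : G) :
    ⟪(∑ t ∈ S', κ' t • U t) y, U g ((∑ s ∈ S, κ s • U s) x)⟫_ℂ =
      ∑ t ∈ S', ∑ s ∈ S, (starRingEnd ℂ) (κ' t) * κ s * ⟪y, U (t⁻¹ * g * s) x⟫_ℂ := by
  rw [sum_apply, sum_apply, sum_inner]
  refine Finset.sum_congr rfl fun t _ => ?_
  rw [map_sum, inner_sum]
  refine Finset.sum_congr rfl fun s _ => ?_
  rw [smul_apply, smul_apply, map_smul, inner_smul_left,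
    inner_smul_right, hU.inner_left, rep_rep, rep_rep, mul_assoc, mul_assoc]

end Pool.Agent.Work.MP_129c4a_an.N
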