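import Pool.Agent.Work.MP_129c4a_an.N.Level
import Mathlib.Topology.Algebra.Group.Pointwise

/-!
One stage of the construction for a non-discrete group.
-/

namespace Pool.Agent.Work.MP_129c4a_an.N

open Filter Topology
open scoped InnerProductSpace Pointwise

universe u v

variable {G : Type u} [Group G] {H : Type v} [NormedAddCommGroup H] [InnerProductSpace ℂ H]

/-- a unit vector and a partner of norm at most two, all coefficients living in `M` -/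
def Pair (U : G →* (H →L[ℂ] H)) (M : Set G) (α β : H) : Prop :=
  ‖α‖ = 1 ∧ ‖β‖ ≤ 2 ∧ Lives U M α α ∧ Lives U M α β ∧ Lives U M β β ∧ ⟪β, α⟫_ℂ = 1

theorem Pair.mono {U : G →* (H →L[ℂ] H)} {M M' : Set G} {α β : H} (h : Pair U M α β)
    (hM : M ⊆ M') : Pair U M' α β :=
  ⟨h.1, h.2.1, h.2.2.1.mono hM, h.2.2.2.1.mono hM, h.2.2.2.2.1.mono hM, h.2.2.2.2.2⟩

theorem norm_eq_of_inner {x y : H} (h : ⟪x, x⟫_ℂ = ⟪y, y⟫_ℂ) : ‖x‖ = ‖y‖ := by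
  have := congrArg Complex.re h
  rw [re_inner_self, re_inner_self] at this
  exact (pow_left_inj₀ (norm_nonneg _) (norm_nonneg _) two_ne_zero).1 this

theorem Pair.map {U : G →* (H →L[ℂ] H)} {M N : Set G} {α β : H} (h : Pair U M α β)
    {a : H →L[ℂ] H} (ha : ∀ z z', Lives U M z z' → Lives U N (a z) (a z') ∧
      ⟪a z', a z⟫_ℂ = ⟪z', z⟫_ℂ) : Pair U N (a α) (a β) := by
  obtain ⟨h1, h2, h3, h4, h5, h6⟩ := h
  exact ⟨(norm_eq_of_inner (ha _ _ h3).2).trans h1, (norm_eq_of_inner (ha _ _ h5).2).trans_le h2,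
    (ha _ _ h3).1, (ha _ _ h4).1, (ha _ _ h5).1, (ha _ _ h4).2.trans h6⟩

variable [TopologicalSpace G]

/-- plateau pairs exist in every neighbourhood of the identity -/
def HasPlateau (U : G →* (H →L[ℂ] H)) : Prop :=
  ∀ M ∈ 𝓝 (1 : G), ∃ α β : H, ‖α‖ = 1 ∧ ‖β‖ ≤ 2 ∧ Lives U M α α ∧ Lives U M α β ∧
    Lives U M β β ∧ ∀ᶠ g in 𝓝 (1 : G), ⟪β, U g α⟫_ℂ = 1

open Classical in
/-- `u` is one near the identity and zero near the other points of `D` -/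
def Loc (D : Finset G) (u : G → ℂ) : Prop :=
  ∀ p ∈ D, ∀ᶠ g in 𝓝 p, u g = if p = 1 then 1 else 0

variable [IsTopologicalGroup G] [T1Space G] {U : G →* (H →L[ℂ] H)}

theorem HasPlateau.loc (hpl : HasPlateau U) {M : Set G} (hM : M ∈ 𝓝 (1 : G)) (D : Finset G) :
    ∃ α β : H, Pair U M α β ∧ (∀ᶠ g in 𝓝 (1 : G), ⟪β, U g α⟫_ℂ = 1) ∧
      Loc D fun g => ⟪β, U g α⟫_ℂ := by
  classical
  have h1 : ((D.erase 1 : Finset G) : Set G)ᶜ ∈ 𝓝 (1 : G) :=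
    (D.erase 1).finite_toSet.isClosed.isOpen_compl.mem_nhds (by simp)
  obtain ⟨Z, hZ, hZc, hZs⟩ := exists_mem_nhds_isClosed_subset (inter_mem hM h1)
  obtain ⟨α, β, a1, a2, a3, a4, a5, a6⟩ := hpl Z hZ
  have hZM : Z ⊆ M := hZs.trans Set.inter_subset_left
  refine ⟨α, β, ⟨a1, a2, a3.mono hZM, a4.mono hZM, a5.mono hZM, by simpa using a6.self_of_nhds⟩,
    a6, fun p hp => ?_⟩
  split_ifs with h
  · rw [h]
    exact a6
  · have : p ∉ Z := fun hh => (hZs hh).2 (by simp [h, hp])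
    filter_upwards [hZc.isOpen_compl.mem_nhds this] with g hg
    exact a4 g hg

theorem exists_avg (hnd : ¬ DiscreteTopology G) (hU : IsUnitaryRep U)
    (hc : ∀ ξ, Continuous fun s => U s ξ) {X : Set H} (hX : X.Finite) {𝔅 : Set (H →L[ℂ] H)}
    (h𝔅 : 𝔅.Finite) (h𝔅' : ∀ B ∈ 𝔅, B ∈ spanRep U) {e : ℝ} (he : 0 < e) :
    ∃ L ∈ spanRep U, IsEffect L ∧ (∀ x ∈ X, ‖L x - x‖ ≤ e) ∧
      ∀ᶠ z in Sm1 U, ∀ B ∈ 𝔅, ‖L (B z)‖ ≤ e * ‖z‖ := by
  obtain ⟨S, C, hC, hS⟩ := exists_dom h𝔅 h𝔅'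
  obtain ⟨r, hr⟩ := exists_nat_gt ((C / e) ^ 2)
  have hr0 : (0 : ℝ) < r := lt_of_le_of_lt (sq_nonneg _) hr
  have hW : ∀ᶠ t in 𝓝 (1 : G), ∀ x ∈ X, ‖U t x - x‖ ≤ e / 2 :=
    (eventually_all_finite hX).2 fun x _ => eventually_near hc x (half_pos he)
  obtain ⟨F, hFW, hF⟩ := (infinite_of_nhds hnd hW).exists_subset_card_eq r
  have hFne : F.Nonempty := Finset.card_pos.1 (by rw [hF]; exact_mod_cast hr0)
  refine ⟨avgE U F, avgE_mem U F, avgE_effect hU hFne, fun x hx => ?_, ?_⟩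
  · exact (avgE_fix hU hFne fun t ht => hFW ht x hx).trans_eq (by ring)
  · have h1 : ∀ᶠ z in Sm1 U, ∀ a ∈ F, ∀ b ∈ F, a ≠ b → ⟪z, U (a⁻¹ * b) z⟫_ℂ = 0 := by
      rw [eventually_all_finset]
      intro a _
      rw [eventually_all_finset]
      intro b _
      by_cases hab : a = b
      · exact Eventually.of_forall fun _ h => (h hab).elim
      · exact (Sm_diag (eventually_inner_zero fun h => hab (inv_mul_eq_one.1 h))).mono
          fun _ h _ => h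
    have h2 : ∀ᶠ z in Sm1 U, ‖avgE U F z‖ ≤ e / C * ‖z‖ := by
      filter_upwards [h1] with z hz
      refine (pow_le_pow_iff_left₀ (norm_nonneg _) (by positivity) two_ne_zero).1
        ((avgE_kill hU hFne le_rfl fun a ha b hb hab => by rw [hz a ha b hb hab]; rfl).trans ?_)
      rw [add_zero, hF, div_le_iff₀ hr0]
      have h3 : 1 ≤ (e / C) ^ 2 * r := by
        have : (e / C) ^ 2 * (C / e) ^ 2 = 1 := by field_simp
        rw [← this]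
        exact mul_le_mul_of_nonneg_left hr.le (sq_nonneg _)
      nlinarith [mul_le_mul_of_nonneg_right h3 (sq_nonneg ‖z‖)]
    have h3 : ∀ᶠ z in Sm1 U, ∀ t ∈ S, ‖avgE U F (U t z)‖ ≤ e / C * ‖U t z‖ := by
      rw [eventually_all_finset]
      exact fun t _ => (tendsto_rep1 hU t).eventually h2
    filter_upwards [h3] with z hz B hB
    refine (hS B hB _ z (e / C * ‖z‖) (by positivity) fun t ht => ?_).trans_eq (by field_simp)
    simpa only [hU.norm] using hz t ht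

theorem exists_level' (hnd : ¬ DiscreteTopology G) (hU : IsUnitaryRep U) {𝔅 : Set (H →L[ℂ] H)}
    (h𝔅 : 𝔅.Finite) (h𝔅' : ∀ B ∈ 𝔅, B ∈ spanRep U) {e : ℝ} (he : 0 < e) {N : Set G}
    (hN : N ∈ 𝓝 (1 : G)) :
    ∃ a q : H →L[ℂ] H, a ∈ spanRep U ∧ q ∈ spanRep U ∧ IsEffect q ∧
      (∀ᶠ p in Sm U, Lives U N (a p.1) (a p.2) ∧ ⟪a p.2, a p.1⟫_ℂ = ⟪p.2, p.1⟫_ℂ) ∧
      (∀ᶠ z in Sm1 U, ‖q z‖ ≤ e * ‖z‖) ∧
      ∀ᶠ z in Sm1 U, ∀ B ∈ 𝔅, ‖q (B (a z)) - B (a z)‖ ≤ e * ‖z‖ := by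
  obtain ⟨S, C, hC, hS⟩ := exists_dom h𝔅 h𝔅'
  have h1 : 0 < e / (C + 1) := by positivity
  obtain ⟨a, q, ha, hq, hE, h2, h3, h4⟩ := exists_level hnd hU S h1 hN
  refine ⟨a, q, ha, hq, hE, h2, h3.mono fun z hz => hz.trans ?_, h4.mono fun z hz B hB => ?_⟩
  · exact mul_le_mul_of_nonneg_right (div_le_self he.le (by linarith)) (norm_nonneg _)
  · refine (hS B hB (q - 1) (a z) (e / (C + 1) * ‖z‖) (by positivity) hz).trans ?_
    rw [← mul_assoc]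
    refine mul_le_mul_of_nonneg_right ?_ (norm_nonneg _)
    rw [← mul_div_assoc, div_le_iff₀ (by linarith)]
    nlinarith

omit [T1Space G] in
theorem tendsto_sandwich (t s : G) : Tendsto (fun x : G => t * x * s) (𝓝 1) (𝓝 (t * s)) := by
  have : Continuous fun x : G => t * x * s := by fun_prop
  simpa using this.tendsto 1

omit [T1Space G] in
theorem eventually_decohere (hU : IsUnitaryRep U) (S : Finset G) (κ : G → ℂ) {D : Finset G}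
    (hD : ∀ t ∈ S, ∀ s ∈ S, t * s⁻¹ ∈ D) {u : G → ℂ} (hu : Loc D u) :
    ∀ᶠ p in Sm U, ∀ g, u g * ⟪(∑ s ∈ S, κ s • U s) p.2, U g ((∑ s ∈ S, κ s • U s) p.1)⟫_ℂ =
      ∑ s ∈ S, ((‖κ s‖ ^ 2 : ℝ) : ℂ) * ⟪U s p.2, U g (U s p.1)⟫_ℂ := by
  classical
  have h1 : ∀ᶠ x in 𝓝 (1 : G), ∀ t ∈ S, ∀ s ∈ S, u (t * x * s⁻¹) = if t = s then 1 else 0 := by
    rw [eventually_all_finset]
    intro t ht
    rw [eventually_all_finset]
    intro s hs
    filter_upwards [(tendsto_sandwich t s⁻¹).eventually (hu _ (hD t ht s hs))] with x hx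
    rw [hx]
    simp [mul_inv_eq_one]
  filter_upwards [eventually_lives h1] with p hp g
  rw [inner_rep_sum hU, Finset.mul_sum]
  refine Finset.sum_congr rfl fun t ht => ?_
  rw [Finset.mul_sum, Finset.sum_eq_single_of_mem t ht]
  · rw [hU.inner_left, rep_rep, rep_rep, Complex.conj_mul']
    push_cast
    by_cases hh : ∀ a ∈ S, ∀ s ∈ S, u (a * (t⁻¹ * g * t) * s⁻¹) = if a = s then 1 else 0
    · have := hh t ht t ht
      rw [show t * (t⁻¹ * g * t) * t⁻¹ = g by group, if_pos rfl] at this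
      rw [this, one_mul]
    · rw [hp _ hh]
      simp
  · intro s hs hst
    by_cases hh : ∀ a ∈ S, ∀ b ∈ S, u (a * (t⁻¹ * g * s) * b⁻¹) = if a = b then 1 else 0
    · have := hh t ht s hs
      rw [show t * (t⁻¹ * g * s) * s⁻¹ = g by group, if_neg hst.symm] at this
      rw [this, zero_mul]
    · rw [hp _ hh]
      simp

omit [T1Space G] in
theorem eventually_agree (hU : IsUnitaryRep U) (S : Finset G) (κ : G → ℂ) {D : Finset G}
    (hD : ∀ a ∈ S, ∀ t ∈ S, ∀ s ∈ S, ∀ b ∈ S, a⁻¹ * t * (s⁻¹ * b) ∈ D) {α β α' β' : H}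
    (hu : Loc D fun g => ⟪β, U g α⟫_ℂ) (hu' : Loc D fun g => ⟪β', U g α'⟫_ℂ) :
    ∀ᶠ p in Sm U, ∀ g, (⟪(∑ s ∈ S, κ s • U s) β', U g ((∑ s ∈ S, κ s • U s) α')⟫_ℂ -
      ⟪(∑ s ∈ S, κ s • U s) β, U g ((∑ s ∈ S, κ s • U s) α)⟫_ℂ) *
      ⟪(∑ s ∈ S, κ s • U s) p.2, U g ((∑ s ∈ S, κ s • U s) p.1)⟫_ℂ = 0 := by
  have h1 : ∀ᶠ x in 𝓝 (1 : G), ∀ a ∈ S, ∀ t ∈ S, ∀ s ∈ S, ∀ b ∈ S,
      ⟪β', U (a⁻¹ * t * x * (s⁻¹ * b)) α'⟫_ℂ = ⟪β, U (a⁻¹ * t * x * (s⁻¹ * b)) α⟫_ℂ := by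
    simp only [eventually_all_finset]
    intro a ha t ht s hs b hb
    filter_upwards [(tendsto_sandwich _ _).eventually (hu _ (hD a ha t ht s hs b hb)),
      (tendsto_sandwich _ _).eventually (hu' _ (hD a ha t ht s hs b hb))] with x hx hx'
    rw [hx, hx']
  filter_upwards [eventually_lives h1] with p hp g
  by_cases hh : ∃ t ∈ S, ∃ s ∈ S, ⟪p.2, U (t⁻¹ * g * s) p.1⟫_ℂ ≠ 0
  · obtain ⟨t, ht, s, hs, hts⟩ := hh
    have h2 := not_not.1 fun h => hts (hp _ h)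
    refine mul_eq_zero_of_left (sub_eq_zero.2 ?_) _
    rw [inner_rep_sum hU, inner_rep_sum hU]
    refine Finset.sum_congr rfl fun a ha => Finset.sum_congr rfl fun b hb => ?_
    have := h2 a ha t ht s hs b hb
    rw [show a⁻¹ * t * (t⁻¹ * g * s) * (s⁻¹ * b) = a⁻¹ * g * b by group] at this
    rw [this]
  · push Not at hh
    refine mul_eq_zero_of_right _ ?_
    rw [inner_rep_sum hU]
    exact Finset.sum_eq_zero fun t ht => Finset.sum_eq_zero fun s hs => by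
      rw [hh t ht s hs, mul_zero]

/-- the data a stage starts from -/
structure Inp (G : Type u) (H : Type v) [NormedAddCommGroup H] [InnerProductSpace ℂ H] where
  S : Finset G
  κ : G → ℂ
  𝔅 : Set (H →L[ℂ] H)
  X : Set H
  M : Set G

/-- the data a stage produces -/
structure Out (G : Type u) (H : Type v) [NormedAddCommGroup H] [InnerProductSpace ℂ H] where
  α : H
  β : H
  α' : H
  β' : H
  L : H →L[ℂ] H
  a : H →L[ℂ] H
  q : H →L[ℂ] H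
  W : Set G
  M : Set G
  S : Finset G
  κ : G → ℂ

variable (U) in
/-- the operator of a stage -/
noncomputable def Inp.A (I : Inp G H) : H →L[ℂ] H := ∑ s ∈ I.S, I.κ s • U s

variable (U) in
/-- admissible starting data -/
structure Inp.Good (I : Inp G H) : Prop where
  fin : I.𝔅.Finite
  span : ∀ B ∈ I.𝔅, B ∈ spanRep U
  rep : ∀ s ∈ I.S, U s ∈ I.𝔅
  finX : I.X.Finite
  nhds : I.M ∈ 𝓝 (1 : G)

variable (U) in
/-- the starting data of the next stage -/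
noncomputable def Inp.next (I : Inp G H) (O : Out G H) : Inp G H where
  S := O.S
  κ := O.κ
  𝔅 := (fun B => B * O.a) '' I.𝔅 ∪ U '' O.S
  X := I.X ∪ (fun B => B O.α) '' I.𝔅 ∪ (fun B => B O.α') '' I.𝔅
  M := O.M

variable (U) in
/-- what a stage achieves -/
structure Spec (e : ℝ) (I : Inp G H) (O : Out G H) : Prop where
  pair : Pair U I.M O.α O.β
  pair' : Pair U I.M O.α' O.β'
  L_mem : O.L ∈ spanRep U
  L_eff : IsEffect O.L
  L_X : ∀ x ∈ I.X, ‖O.L x - x‖ ≤ e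
  L_fix : ∀ B ∈ I.𝔅, ‖O.L (B O.α) - B O.α‖ ≤ e
  L_kill : ∀ B ∈ I.𝔅, ‖O.L (B O.α')‖ ≤ e
  L_killN : ∀ z, Lives U O.W z z → ∀ B ∈ I.𝔅, ‖O.L (B z)‖ ≤ e * ‖z‖
  N_sub : O.W ⊆ I.M
  one : ∀ g ∈ O.W, ⟪O.β, U g O.α⟫_ℂ = 1
  dec : ∀ z z', Lives U O.W z z' → ∀ g, ⟪O.β, U g O.α⟫_ℂ * ⟪I.A U z', U g (I.A U z)⟫_ℂ =
    ∑ s ∈ I.S, ((‖I.κ s‖ ^ 2 : ℝ) : ℂ) * ⟪U s z', U g (U s z)⟫_ℂ
  agree : ∀ z z', Lives U O.W z z' → ∀ g, (⟪I.A U O.β', U g (I.A U O.α')⟫_ℂ -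
    ⟪I.A U O.β, U g (I.A U O.α)⟫_ℂ) * ⟪I.A U z', U g (I.A U z)⟫_ℂ = 0
  a_mem : O.a ∈ spanRep U
  q_mem : O.q ∈ spanRep U
  q_eff : IsEffect O.q
  M_nhds : O.M ∈ 𝓝 (1 : G)
  M_sub : O.M ⊆ O.W
  a_map : ∀ z z', Lives U O.M z z' → Lives U O.W (O.a z) (O.a z') ∧
    ⟪O.a z', O.a z⟫_ℂ = ⟪z', z⟫_ℂ
  q_fix : ∀ z, Lives U O.M z z → ∀ B ∈ I.𝔅, ‖O.q (B (O.a z)) - B (O.a z)‖ ≤ e * ‖z‖
  q_kill : ∀ z, Lives U O.M z z → ∀ s ∈ O.S, ‖O.q (U s z)‖ ≤ e * ‖z‖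
  A_next : I.A U * O.a = ∑ s ∈ O.S, O.κ s • U s

omit [IsTopologicalGroup G] [T1Space G] in
theorem Spec.good {e : ℝ} {I : Inp G H} {O : Out G H} (h : Spec U e I O) (hI : I.Good U) :
    (I.next U O).Good U where
  fin := (hI.fin.image _).union (O.S.finite_toSet.image _)
  span := by
    rintro _ (⟨B, hB, rfl⟩ | ⟨s, -, rfl⟩)
    · exact mul_mem_spanRep U (hI.span B hB) h.a_mem
    · exact rep_mem U s
  rep := fun s hs => Or.inr ⟨s, hs, rfl⟩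
  finX := (hI.finX.union (hI.fin.image _)).union (hI.fin.image _)
  nhds := h.M_nhds

theorem exists_stage (hnd : ¬ DiscreteTopology G) (hU : IsUnitaryRep U)
    (hc : ∀ ξ, Continuous fun s => U s ξ) (hpl : HasPlateau U) {e : ℝ} (he : 0 < e)
    (I : Inp G H) (hI : I.Good U) : ∃ O : Out G H, Spec U e I O := by
  classical
  set D : Finset G := (I.S ×ˢ I.S).image (fun p => p.1 * p.2⁻¹) ∪
    ((I.S ×ˢ I.S) ×ˢ (I.S ×ˢ I.S)).image (fun p => p.1.1⁻¹ * p.1.2 * (p.2.1⁻¹ * p.2.2)) with hD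
  have hD1 : ∀ t ∈ I.S, ∀ s ∈ I.S, t * s⁻¹ ∈ D := fun t ht s hs =>
    Finset.mem_union_left _ (Finset.mem_image.2 ⟨(t, s), Finset.mem_product.2 ⟨ht, hs⟩, rfl⟩)
  have hD2 : ∀ a ∈ I.S, ∀ t ∈ I.S, ∀ s ∈ I.S, ∀ b ∈ I.S, a⁻¹ * t * (s⁻¹ * b) ∈ D :=
    fun a ha t ht s hs b hb => Finset.mem_union_right _ (Finset.mem_image.2 ⟨((a, t), (s, b)),
      Finset.mem_product.2 ⟨Finset.mem_product.2 ⟨ha, ht⟩, Finset.mem_product.2 ⟨hs, hb⟩⟩, rfl⟩)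
  obtain ⟨α, β, hp, h1, hl⟩ := hpl.loc hI.nhds D
  obtain ⟨L, hL1, hL2, hL3, hL4⟩ :=
    exists_avg hnd hU hc (hI.finX.union (hI.fin.image fun B => B α)) hI.fin hI.span he
  obtain ⟨Y, hY, hY'⟩ := eventually_Sm1.1 hL4
  obtain ⟨α', β', hp', -, hl'⟩ := hpl.loc (inter_mem hI.nhds hY) D
  obtain ⟨Z, hZ, hZ'⟩ := eventually_Sm.1
    ((eventually_decohere hU I.S I.κ hD1 hl).and (eventually_agree hU I.S I.κ hD2 hl hl'))
  set N : Set G := (I.M ∩ Y) ∩ (Z ∩ {g | ⟪β, U g α⟫_ℂ = 1}) with hN_def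
  have hN : N ∈ 𝓝 (1 : G) := inter_mem (inter_mem hI.nhds hY) (inter_mem hZ h1)
  obtain ⟨a, q, ha, hq, hE, h2, h3, h4⟩ := exists_level' hnd hU hI.fin hI.span he hN
  have hA : I.A U ∈ spanRep U :=
    Submodule.sum_mem _ fun s _ => Submodule.smul_mem _ _ (rep_mem U s)
  obtain ⟨S', κ', hS'⟩ := exists_rep_span (mul_mem_spanRep U hA ha)
  have h5 : ∀ᶠ z in Sm1 U, ∀ s ∈ S', ‖q (U s z)‖ ≤ e * ‖U s z‖ := by
    rw [eventually_all_finset]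
    exact fun t _ => (tendsto_rep1 hU t).eventually h3
  obtain ⟨Z1, hZ1, hZ1'⟩ := eventually_Sm.1 h2
  obtain ⟨Z2, hZ2, hZ2'⟩ := eventually_Sm1.1 (h4.and h5)
  refine ⟨⟨α, β, α', β', L, a, q, N, N ∩ (Z1 ∩ Z2), S', κ'⟩, hp, hp'.mono Set.inter_subset_left,
    hL1, hL2, fun x hx => hL3 x (Or.inl hx), fun B hB => hL3 _ (Or.inr ⟨B, hB, rfl⟩),
    fun B hB => ?_, fun z hz => hY' z (hz.mono fun g hg => hg.1.2), fun g hg => hg.1.1,
    fun g hg => hg.2.2, fun z z' hz => (hZ' z z' (hz.mono fun g hg => hg.2.1)).1,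
    fun z z' hz => (hZ' z z' (hz.mono fun g hg => hg.2.1)).2, ha, hq, hE,
    inter_mem hN (inter_mem hZ1 hZ2), Set.inter_subset_left,
    fun z z' hz => hZ1' z z' (hz.mono fun g hg => hg.2.1),
    fun z hz => (hZ2' z (hz.mono fun g hg => hg.2.2)).1, fun z hz s hs => ?_, hS'⟩
  · have := hY' α' (hp'.2.2.1.mono Set.inter_subset_right) B hB
    rwa [hp'.1, mul_one] at this
  · have := (hZ2' z (hz.mono fun g hg => hg.2.2)).2 s hs
    rwa [hU.norm] at this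

end Pool.Agent.Work.MP_129c4a_an.N
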